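import Mathlib

/-! Hecke algebras, Kazhdan-Lusztig basis, a-function, distinguished involutions, maximal
finite parabolic factors, for an arbitrary Coxeter system (problem MP_28e63a_al). -/

set_option autoImplicit false

namespace Pool.Agent.H7.KL

open Polynomial

/-- The ring `ℤ[q^{1/2}, q^{-1/2}]`; the variable `q^{1/2}` is `LaurentPolynomial.T 1`. -/
abbrev A := LaurentPolynomial ℤ

/-- The element `q` of `A`. -/
noncomputable def qA : A := LaurentPolynomial.T 2

section defs

variable {B : Type} {M : CoxeterMatrix B} {W : Type} [Group W] (cs : CoxeterSystem M W)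

/-- The Bruhat order on `W`: the reflexive transitive closure of `x → x t`, `t` a reflection with
`ℓ(x) < ℓ(x t)`. -/
def BruhatLE (x y : W) : Prop :=
  Relation.ReflTransGen
    (fun a b => ∃ t, cs.IsReflection t ∧ b = a * t ∧ cs.length a < cs.length b) x y

/-- The Hecke algebra of `(W, S)` over `A`: a ring `H` which is a free `A`-module with basis
`T_w`, `w ∈ W`, such that `T_1 = 1`, `T_x T_y = T_{xy}` if `ℓ(xy) = ℓ(x) + ℓ(y)`,
`(T_s - q)(T_s + 1) = 0`; together with the bar involution, the ring homomorphism with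
`q^{1/2} ↦ q^{-1/2}` and `T_w ↦ (T_{w⁻¹})⁻¹`. -/
structure HeckeAlgebra (H : Type) [Ring H] [Algebra A H] where
  /-- the standard basis -/
  T : Module.Basis W A H
  T_one : T 1 = 1
  T_mul : ∀ x y : W, cs.length (x * y) = cs.length x + cs.length y → T x * T y = T (x * y)
  T_quad : ∀ i : B, (T (cs.simple i) - algebraMap A H qA) * (T (cs.simple i) + 1) = 0
  /-- the bar involution -/
  bar : H →+* H
  bar_algebraMap : ∀ a : A, bar (algebraMap A H a) = algebraMap A H (LaurentPolynomial.invert a)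
  bar_T : ∀ w : W, bar (T w) * T w⁻¹ = 1 ∧ T w⁻¹ * bar (T w) = 1

/-- The Kazhdan-Lusztig polynomials `P_{y,w}` and the Kazhdan-Lusztig basis
`C_w = ∑_{y ≤ w} (-1)^{ℓ(w)-ℓ(y)} q^{ℓ(w)/2-ℓ(y)} P_{y,w}(q⁻¹) T_y` of a Hecke algebra:
`C_w` is fixed by the bar involution, `P_{w,w} = 1`, `P_{y,w} = 0` unless `y ≤ w`, and
`deg P_{y,w} ≤ (ℓ(w) - ℓ(y) - 1)/2` for `y < w`. -/
structure KLBasis {H : Type} [Ring H] [Algebra A H] (𝓗 : HeckeAlgebra cs H) where
  /-- the Kazhdan-Lusztig polynomial `P_{y,w}`, a polynomial in `q` -/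
  P : W → W → ℤ[X]
  P_self : ∀ w : W, P w w = 1
  P_zero : ∀ y w : W, ¬ BruhatLE cs y w → P y w = 0
  P_deg : ∀ y w : W, BruhatLE cs y w → y ≠ w →
    2 * (P y w).natDegree + 1 ≤ cs.length w - cs.length y
  /-- the Kazhdan-Lusztig basis -/
  C : Module.Basis W A H
  C_coeff : ∀ y w : W, 𝓗.T.repr (C w) y =
    (-1) ^ (cs.length w + cs.length y) *
      LaurentPolynomial.T ((cs.length w : ℤ) - 2 * (cs.length y : ℤ)) *
      Polynomial.aeval (LaurentPolynomial.T (-2) : A) (P y w)
  bar_C : ∀ w : W, 𝓗.bar (C w) = C w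

variable {cs}

namespace KLBasis

variable {H : Type} [Ring H] [Algebra A H] {𝓗 : HeckeAlgebra cs H} (K : KLBasis cs 𝓗)

/-- The structure constants: `C_x C_y = ∑_z h_{x,y,z} C_z`. -/
noncomputable def h (x y z : W) : A := K.C.repr (K.C x * K.C y) z

/-- Lusztig's `a`-function: `a(z)` is the least `n` with `q^{-n/2} h_{x,y,z} ∈ ℤ[q^{-1/2}]` for
all `x, y`, and `∞` if there is none. -/
noncomputable def a (z : W) : ℕ∞ :=
  ⨅ (n : ℕ) (_ : ∀ x y : W, ∀ k : ℤ, (K.h x y z).coeff k ≠ 0 → k ≤ n), (n : ℕ∞)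

/-- The distinguished involutions: `ℓ(z) - a(z) - 2δ(z) = 0` where `δ(z) = deg P_{e,z}`. -/
def IsDistinguished (z : W) : Prop :=
  (cs.length z : ℕ∞) = K.a z + 2 * ((K.P 1 z).natDegree : ℕ∞)

open scoped Classical in
/-- `μ(x, y)` for `x < y`: the coefficient of `q^{(ℓ(y)-ℓ(x)-1)/2}` in `P_{x,y}`. -/
noncomputable def muLT (x y : W) : ℤ :=
  if Odd (cs.length y - cs.length x) then (K.P x y).coeff ((cs.length y - cs.length x - 1) / 2)
  else 0

open scoped Classical in
/-- The symmetric function `μ`, which vanishes on incomparable pairs. -/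
noncomputable def mu (x y : W) : ℤ :=
  if BruhatLE cs x y ∧ x ≠ y then K.muLT x y
  else if BruhatLE cs y x ∧ x ≠ y then K.muLT y x
  else 0

end KLBasis

variable (cs)

/-- `w = x.v`: `w = x v` with lengths adding up. -/
def Red2 (w x v : W) : Prop := w = x * v ∧ cs.length w = cs.length x + cs.length v

/-- `w = x.v.y`: `w = x v y` with lengths adding up. -/
def Red3 (w x v y : W) : Prop :=
  w = x * v * y ∧ cs.length w = cs.length x + cs.length v + cs.length y

/-- `v` lies in a finite standard parabolic subgroup. -/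
def InFiniteParabolic (v : W) : Prop :=
  ∃ I : Set B, (Subgroup.closure (cs.simple '' I) : Set W).Finite ∧
    v ∈ Subgroup.closure (cs.simple '' I)

/-- The factor `v` (in the position `w = x.v.y`) is maximal in `w`: it lies in a finite standard
parabolic subgroup, and there is no `w = x'.v'.y'` with `v'` in a finite standard parabolic
subgroup, `x' ≤ x`, `y' ≤ y` and `v' = p.v.r`, `ℓ(v') > ℓ(v)`. -/
def IsMaximalFactor (w x v y : W) : Prop :=
  Red3 cs w x v y ∧ InFiniteParabolic cs v ∧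
    ¬ ∃ x' v' y' p r : W, Red3 cs w x' v' y' ∧ InFiniteParabolic cs v' ∧
      BruhatLE cs x' x ∧ BruhatLE cs y' y ∧ Red3 cs v' p v r ∧ cs.length v < cs.length v'

variable {cs} {H : Type} [Ring H] [Algebra A H] {𝓗 : HeckeAlgebra cs H} (K : KLBasis cs 𝓗)

/-- `v ∈ 𝒟_f`: a distinguished involution lying in a finite standard parabolic subgroup. -/
def InDf (v : W) : Prop := K.IsDistinguished v ∧ InFiniteParabolic cs v

end defs

end Pool.Agent.H7.KL
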