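import Mathlib

/-! Strong exchange condition for Coxeter systems. -/

set_option autoImplicit false

namespace Pool.Agent.H7.KL

open CoxeterSystem List

variable {B : Type} {M : CoxeterMatrix B} {W : Type} [Group W] (cs : CoxeterSystem M W)

open scoped Classical in
/-- The involution `(t, ε) ↦ (s t s, ε + [t = s])`. -/
noncomputable def phiFun (i : B) (p : W × ZMod 2) : W × ZMod 2 :=
  (cs.simple i * p.1 * cs.simple i, p.2 + if p.1 = cs.simple i then 1 else 0)

lemma zmod2_add_self (a : ZMod 2) : a + a = 0 := by
  revert a; decide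

lemma phiFun_invol (i : B) (p : W × ZMod 2) : phiFun cs i (phiFun cs i p) = p := by
  classical
  obtain ⟨t, e⟩ := p
  have h1 : (cs.simple i * t * cs.simple i = cs.simple i) ↔ t = cs.simple i := by
    constructor
    · intro h
      have := congrArg (fun x => cs.simple i * x * cs.simple i) h
      simpa [mul_assoc] using this
    · rintro rfl; simp
  unfold phiFun
  simp only [h1]
  ext
  · simp [mul_assoc]
  · simp only [add_assoc, zmod2_add_self, add_zero]

/-- The involution as a permutation. -/
noncomputable def phi (i : B) : Equiv.Perm (W × ZMod 2) where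
  toFun := phiFun cs i
  invFun := phiFun cs i
  left_inv := phiFun_invol cs i
  right_inv := phiFun_invol cs i

lemma phi_apply (i : B) (p : W × ZMod 2) : phi cs i p = phiFun cs i p := rfl

open scoped Classical in
lemma phi_mul_pow (i j : B) (n : ℕ) (t : W) (e : ZMod 2) :
    ((phi cs i * phi cs j) ^ n) (t, e) =
      ((cs.simple i * cs.simple j) ^ n * t * ((cs.simple i * cs.simple j) ^ n)⁻¹,
        e + ∑ k ∈ Finset.range (2 * n),
          if t = cs.simple j * (cs.simple i * cs.simple j) ^ k then (1 : ZMod 2) else 0) := by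
  have hinv : ∀ n : ℕ, cs.simple j * (cs.simple i * cs.simple j) ^ n =
      ((cs.simple i * cs.simple j) ^ n)⁻¹ * cs.simple j := by
    intro n
    induction n with
    | zero => simp
    | succ n ih =>
      rw [pow_succ, ← mul_assoc, ih, mul_inv_rev]
      have : cs.simple j * (cs.simple i * cs.simple j) =
          (cs.simple i * cs.simple j)⁻¹ * cs.simple j := by simp [mul_assoc]
      rw [mul_assoc, this, ← mul_assoc, ← mul_inv_rev, ← pow_succ', ← mul_inv_rev, ← pow_succ]
  induction n with
  | zero => simp
  | succ n ih =>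
    rw [pow_succ', Equiv.Perm.mul_apply, ih, Equiv.Perm.mul_apply, phi_apply, phi_apply]
    set c := cs.simple i * cs.simple j with hc
    have e1 : (c ^ n * t * (c ^ n)⁻¹ = cs.simple j) ↔ t = cs.simple j * c ^ (2 * n) := by
      have : cs.simple j * c ^ (2 * n) = (c ^ n)⁻¹ * cs.simple j * c ^ n := by
        rw [two_mul, pow_add, ← mul_assoc, hinv]
      rw [this]
      constructor
      · intro h; rw [← h]; group
      · intro h; rw [h]; group
    have e2 : (cs.simple j * (c ^ n * t * (c ^ n)⁻¹) * cs.simple j = cs.simple i) ↔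
        t = cs.simple j * c ^ (2 * n + 1) := by
      have : cs.simple j * c ^ (2 * n + 1) = (c ^ n)⁻¹ * (cs.simple j * c) * c ^ n := by
        have h3 : 2 * n + 1 = n + (1 + n) := by ring
        rw [h3, pow_add, ← mul_assoc, hinv, pow_add, pow_one]
        simp only [mul_assoc]
      rw [this]
      constructor
      · intro h
        have : cs.simple j * c = c ^ n * t * (c ^ n)⁻¹ := by
          calc cs.simple j * c = cs.simple j * cs.simple i * cs.simple j := by
                rw [hc, mul_assoc]
            _ = cs.simple j * (cs.simple j * (c ^ n * t * (c ^ n)⁻¹) * cs.simple j) *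
                cs.simple j := by rw [h]
            _ = c ^ n * t * (c ^ n)⁻¹ := by simp [mul_assoc]
        rw [this]; group
      · intro h
        rw [h]
        have : c ^ n * ((c ^ n)⁻¹ * (cs.simple j * c) * c ^ n) * (c ^ n)⁻¹ = cs.simple j * c := by
          group
        rw [this, hc]; simp [mul_assoc]
    unfold phiFun
    simp only [e1, e2]
    ext
    · simp only [hc]
      rw [pow_succ', mul_inv_rev, mul_inv_rev, cs.inv_simple, cs.inv_simple]
      simp only [mul_assoc]
    · have : 2 * (n + 1) = 2 * n + 1 + 1 := by ring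
      rw [this, Finset.sum_range_succ, Finset.sum_range_succ]
      simp only [add_assoc]

lemma phi_liftable : M.IsLiftable (phi cs) := by
  classical
  intro i j
  ext1 ⟨t, e⟩
  rw [phi_mul_pow, cs.simple_mul_simple_pow]
  have : (∑ k ∈ Finset.range (2 * M i j),
      if t = cs.simple j * (cs.simple i * cs.simple j) ^ k then (1 : ZMod 2) else 0) = 0 := by
    rw [two_mul, Finset.sum_range_add]
    have h : ∀ x, (cs.simple i * cs.simple j) ^ (M i j + x) = (cs.simple i * cs.simple j) ^ x := by
      intro x
      rw [pow_add, cs.simple_mul_simple_pow, one_mul]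
    simp only [h]
    exact zmod2_add_self _
  rw [this]
  simp

/-- The action of `W` on `W × ℤ/2`. -/
noncomputable def eta : W →* Equiv.Perm (W × ZMod 2) := cs.lift ⟨phi cs, phi_liftable cs⟩

lemma eta_simple (i : B) : eta cs (cs.simple i) = phi cs i := by
  unfold eta
  exact cs.lift_apply_simple (phi_liftable cs) i

open scoped Classical in
lemma eta_word (ω : List B) (t : W) (e : ZMod 2) :
    eta cs (cs.wordProd ω) (t, e) =
      (cs.wordProd ω * t * (cs.wordProd ω)⁻¹, e + (List.count t (cs.rightInvSeq ω) : ZMod 2)) := by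
  induction ω with
  | nil => simp
  | cons i ω ih =>
    rw [cs.wordProd_cons, map_mul, Equiv.Perm.mul_apply, ih, eta_simple, phi_apply]
    unfold phiFun
    ext
    · simp [mul_assoc]
    · simp only [rightInvSeq, List.count_cons]
      have : (cs.wordProd ω * t * (cs.wordProd ω)⁻¹ = cs.simple i) ↔
          ((cs.wordProd ω)⁻¹ * cs.simple i * cs.wordProd ω = t) := by
        constructor
        · intro h; rw [← h]; group
        · intro h; rw [← h]; group
      simp only [this, beq_iff_eq]
      push_cast
      simp only [add_assoc]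

/-- The cocycle `N(w, t)`. -/
noncomputable def N (w t : W) : ZMod 2 := (eta cs w (t, 0)).2

lemma eta_eq (w t : W) (e : ZMod 2) : eta cs w (t, e) = (w * t * w⁻¹, e + N cs w t) := by
  classical
  obtain ⟨ω, rfl⟩ := cs.wordProd_surjective w
  unfold N
  rw [eta_word, eta_word, zero_add]

open scoped Classical in
lemma N_word (ω : List B) (t : W) :
    N cs (cs.wordProd ω) t = (List.count t (cs.rightInvSeq ω) : ZMod 2) := by
  unfold N
  rw [eta_word, zero_add]

lemma N_mul (x y t : W) : N cs (x * y) t = N cs y t + N cs x (y * t * y⁻¹) := by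
  have h := eta_eq cs (x * y) t 0
  rw [map_mul, Equiv.Perm.mul_apply, eta_eq, eta_eq] at h
  have h2 := congrArg Prod.snd h
  simp only [zero_add] at h2
  exact h2.symm

lemma N_one (t : W) : N cs 1 t = 0 := by
  unfold N; simp

lemma N_simple (i : B) : N cs (cs.simple i) (cs.simple i) = 1 := by
  unfold N; rw [eta_simple, phi_apply]; simp [phiFun]

lemma N_refl {t : W} (ht : cs.IsReflection t) : N cs t t = 1 := by
  obtain ⟨x, i, rfl⟩ := ht
  have h1 : N cs x⁻¹ (x * cs.simple i * x⁻¹) + N cs x (cs.simple i) = 0 := by
    have := N_mul cs x⁻¹ x (cs.simple i)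
    rw [inv_mul_cancel, N_one] at this
    rw [add_comm]; exact this.symm
  have h2 := N_mul cs (x * cs.simple i) x⁻¹ (x * cs.simple i * x⁻¹)
  have h3 : x⁻¹ * (x * cs.simple i * x⁻¹) * x⁻¹⁻¹ = cs.simple i := by group
  rw [h3] at h2
  have h4 := N_mul cs x (cs.simple i) (cs.simple i)
  rw [N_simple] at h4
  have h5 : cs.simple i * cs.simple i * (cs.simple i)⁻¹ = cs.simple i := by group
  rw [h5] at h4
  rw [h2, h4, add_comm (1 : ZMod 2), ← add_assoc, h1, zero_add]

lemma exists_erase_of_N {ω : List B} {t : W} (h : N cs (cs.wordProd ω) t ≠ 0) :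
    ∃ j < ω.length, cs.wordProd ω * t = cs.wordProd (ω.eraseIdx j) := by
  classical
  rw [N_word] at h
  have hc : List.count t (cs.rightInvSeq ω) ≠ 0 := by
    intro h0; rw [h0] at h; simp at h
  have hm : t ∈ cs.rightInvSeq ω := by
    by_contra hn
    exact hc (List.count_eq_zero_of_not_mem hn)
  obtain ⟨j, hj, rfl⟩ := List.mem_iff_getElem.mp hm
  refine ⟨j, by simpa using hj, ?_⟩
  rw [← cs.wordProd_mul_getD_rightInvSeq, List.getD_eq_getElem _ 1 hj]

lemma length_lt_of_N {w t : W} (h : N cs w t ≠ 0) : cs.length (w * t) < cs.length w := by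
  obtain ⟨ω, hω, rfl⟩ := cs.exists_isReduced w
  obtain ⟨j, hj, h1⟩ := exists_erase_of_N cs h
  rw [h1]
  calc cs.length (cs.wordProd (ω.eraseIdx j)) ≤ (ω.eraseIdx j).length := cs.length_wordProd_le _
    _ < ω.length := by
      rw [← List.length_eraseIdx_add_one hj]; exact Nat.lt_succ_self _
    _ = cs.length (cs.wordProd ω) := hω.symm

lemma N_ne_zero_iff {w t : W} (ht : cs.IsReflection t) :
    N cs w t ≠ 0 ↔ cs.length (w * t) < cs.length w := by
  refine ⟨length_lt_of_N cs, fun h h0 => ?_⟩
  have h1 := N_mul cs w t t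
  have h2 : t * t * t⁻¹ = t := by group
  rw [h2, N_refl cs ht, h0, add_zero] at h1
  have h3 : cs.length (w * t * t) < cs.length (w * t) := by
    apply length_lt_of_N cs
    rw [h1]; exact one_ne_zero
  rw [mul_assoc, ht.mul_self, mul_one] at h3
  omega

/-- Strong exchange condition. -/
theorem strong_exchange {ω : List B} {t : W} (ht : cs.IsReflection t)
    (h : cs.length (cs.wordProd ω * t) < cs.length (cs.wordProd ω)) :
    ∃ j < ω.length, cs.wordProd ω * t = cs.wordProd (ω.eraseIdx j) :=
  exists_erase_of_N cs ((N_ne_zero_iff cs ht).mpr h)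

/-- Strong exchange condition on the left. -/
theorem strong_exchange_left {ω : List B} {t : W} (ht : cs.IsReflection t)
    (h : cs.length (t * cs.wordProd ω) < cs.length (cs.wordProd ω)) :
    ∃ j < ω.length, t * cs.wordProd ω = cs.wordProd (ω.eraseIdx j) := by
  have h1 : t * cs.wordProd ω = cs.wordProd ω * ((cs.wordProd ω)⁻¹ * t * cs.wordProd ω) := by
    group
  rw [h1]
  apply strong_exchange cs
  · have := ht.conj (cs.wordProd ω)⁻¹
    simpa using this
  · rw [← h1]; exact h

end Pool.Agent.H7.KL
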