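import Mathlib
import Pool.Agent.H7.KL.Exchange
import Pool.Agent.H7.KL.Defs

/-! Consequences of the exchange condition; elementary facts on the Bruhat order. -/

set_option autoImplicit false

namespace Pool.Agent.H7.KL

open CoxeterSystem List

variable {B : Type} {M : CoxeterMatrix B} {W : Type} [Group W] (cs : CoxeterSystem M W)

lemma eq_of_up_up {w : W} {i j : B} (h2 : cs.length w < cs.length (w * cs.simple j))
    (h3 : cs.length (cs.simple i * w * cs.simple j) < cs.length (cs.simple i * w)) :
    cs.simple i * w = w * cs.simple j := by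
  obtain ⟨ω, hω, rfl⟩ := cs.exists_isReduced w
  have h3' : cs.length (cs.wordProd (i :: ω) * cs.simple j) < cs.length (cs.wordProd (i :: ω)) := by
    rw [cs.wordProd_cons]; exact h3
  obtain ⟨k, hk, h4⟩ := strong_exchange cs (cs.isReflection_simple j) h3'
  rcases k with _ | k
  · rw [List.eraseIdx_cons_zero, cs.wordProd_cons] at h4
    calc cs.simple i * cs.wordProd ω
        = cs.simple i * cs.wordProd ω * cs.simple j * cs.simple j := by simp [mul_assoc]
      _ = cs.wordProd ω * cs.simple j := by rw [h4]
  · exfalso
    rw [List.eraseIdx_cons_succ, cs.wordProd_cons, cs.wordProd_cons, mul_assoc] at h4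
    have h5 := mul_left_cancel h4
    have hk' : k < ω.length := by simpa using hk
    have h6 : cs.length (cs.wordProd (ω.eraseIdx k)) < ω.length :=
      lt_of_le_of_lt (cs.length_wordProd_le _)
        (by rw [← List.length_eraseIdx_add_one hk']; exact Nat.lt_succ_self _)
    rw [h5] at h2
    have h7 : cs.length (cs.wordProd ω) = ω.length := hω
    omega

lemma eq_of_down_down {w : W} {i j : B} (h1 : cs.length (cs.simple i * w) < cs.length w)
    (h2 : cs.length (w * cs.simple j) < cs.length w)
    (h3 : cs.length (w * cs.simple j) < cs.length (cs.simple i * w * cs.simple j)) :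
    cs.simple i * w = w * cs.simple j := by
  -- apply the previous lemma to `s_i w`
  have h4 := cs.length_simple_mul w i
  have h5 := cs.length_mul_simple w j
  have h6 := cs.length_simple_mul (w * cs.simple j) i
  have h7 : cs.simple i * (w * cs.simple j) = cs.simple i * w * cs.simple j := by rw [mul_assoc]
  rw [h7] at h6
  have key := eq_of_up_up cs (w := cs.simple i * w) (i := i) (j := j) (by omega) (by
    rw [← mul_assoc, cs.simple_mul_simple_self, one_mul]
    omega)
  rw [← mul_assoc, cs.simple_mul_simple_self, one_mul] at key
  calc cs.simple i * w = cs.simple i * w * cs.simple j * cs.simple j := by simp [mul_assoc]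
    _ = w * cs.simple j := by rw [← key]

/-! ### Bruhat order -/

lemma bruhat_refl (x : W) : BruhatLE cs x x := Relation.ReflTransGen.refl

lemma bruhat_trans {x y z : W} (h1 : BruhatLE cs x y) (h2 : BruhatLE cs y z) : BruhatLE cs x z :=
  Relation.ReflTransGen.trans h1 h2

lemma bruhat_length {x y : W} (h : BruhatLE cs x y) : cs.length x ≤ cs.length y := by
  induction h with
  | refl => exact le_rfl
  | tail _ h ih =>
    obtain ⟨t, _, _, h⟩ := h
    omega

lemma bruhat_eq_of_length {x y : W} (h : BruhatLE cs x y) (hl : cs.length y ≤ cs.length x) :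
    x = y := by
  rcases Relation.ReflTransGen.cases_tail h with h | ⟨z, h1, t, _, _, h2⟩
  · exact h.symm
  · have := bruhat_length cs h1
    omega

lemma bruhat_length_lt {x y : W} (h : BruhatLE cs x y) (hne : x ≠ y) :
    cs.length x < cs.length y := by
  by_contra hl
  exact hne (bruhat_eq_of_length cs h (by omega))

lemma bruhat_antisymm {x y : W} (h : BruhatLE cs x y) (h2 : BruhatLE cs y x) : x = y :=
  bruhat_eq_of_length cs h (bruhat_length cs h2)

lemma bruhat_le_one {x : W} (h : BruhatLE cs x 1) : x = 1 := by
  have := bruhat_length cs h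
  rw [cs.length_one] at this
  exact cs.length_eq_zero_iff.mp (by omega)

lemma bruhat_simple_mul {w : W} {i : B} (h : cs.length w < cs.length (cs.simple i * w)) :
    BruhatLE cs w (cs.simple i * w) := by
  apply Relation.ReflTransGen.single
  refine ⟨w⁻¹ * cs.simple i * w, ?_, by group, h⟩
  have := (cs.isReflection_simple i).conj w⁻¹
  simpa using this

lemma bruhat_simple_mul' {w : W} {i : B} (h : cs.length (cs.simple i * w) < cs.length w) :
    BruhatLE cs (cs.simple i * w) w := by
  have h2 := bruhat_simple_mul cs (w := cs.simple i * w) (i := i) (by simpa using h)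
  simpa using h2

/-- One step of the lifting property. -/
lemma bruhat_step_lift {x t : W} {i : B} (ht : cs.IsReflection t)
    (h : cs.length x < cs.length (x * t)) :
    cs.simple i * x = x * t ∨ cs.length (cs.simple i * x) < cs.length (cs.simple i * (x * t)) := by
  by_contra hcon
  push Not at hcon
  obtain ⟨hne, hle⟩ := hcon
  have hne2 : cs.length (cs.simple i * (x * t)) ≠ cs.length (cs.simple i * x) := by
    rw [← mul_assoc]
    exact ht.length_mul_left_ne (cs.simple i * x)
  have h1 := cs.length_simple_mul x i
  have h2 := cs.length_simple_mul (x * t) i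
  obtain ⟨ω, hω, rfl⟩ := cs.exists_isReduced x
  have hω' : cs.length (cs.wordProd ω) = ω.length := hω
  have h3 : cs.length (cs.wordProd (i :: ω) * t) < cs.length (cs.wordProd (i :: ω)) := by
    rw [cs.wordProd_cons, mul_assoc]; omega
  obtain ⟨k, hk, h4⟩ := strong_exchange cs ht h3
  rcases k with _ | k
  · rw [List.eraseIdx_cons_zero, cs.wordProd_cons] at h4
    apply hne
    calc cs.simple i * cs.wordProd ω
        = cs.simple i * cs.wordProd ω * t * t := by rw [mul_assoc, ht.mul_self, mul_one]
      _ = cs.wordProd ω * t := by rw [h4]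
  · rw [List.eraseIdx_cons_succ, cs.wordProd_cons, cs.wordProd_cons, mul_assoc] at h4
    have h5 := mul_left_cancel h4
    have hk' : k < ω.length := by simpa using hk
    have h6 : cs.length (cs.wordProd (ω.eraseIdx k)) < ω.length :=
      lt_of_le_of_lt (cs.length_wordProd_le _)
        (by rw [← List.length_eraseIdx_add_one hk']; exact Nat.lt_succ_self _)
    rw [h5] at h
    omega

lemma bruhat_lift_or {y w : W} (i : B) (h : BruhatLE cs y w) :
    BruhatLE cs (cs.simple i * y) w ∨ BruhatLE cs (cs.simple i * y) (cs.simple i * w) := by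
  induction h with
  | refl => exact Or.inr (bruhat_refl cs _)
  | @tail x z _ h ih =>
    obtain ⟨t, ht, rfl, hl⟩ := h
    have hxz : BruhatLE cs x (x * t) := Relation.ReflTransGen.single ⟨t, ht, rfl, hl⟩
    rcases ih with ih | ih
    · exact Or.inl (bruhat_trans cs ih hxz)
    · rcases bruhat_step_lift cs (i := i) ht hl with h | h
      · left
        rw [← h]; exact ih
      · right
        refine bruhat_trans cs ih (Relation.ReflTransGen.single ⟨t, ht, ?_, h⟩)
        rw [mul_assoc]

/-- If `y ≤ w < s w` then `s y ≤ s w`. -/
lemma bruhat_lift {y w : W} (i : B) (h : BruhatLE cs y w)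
    (hw : cs.length w < cs.length (cs.simple i * w)) :
    BruhatLE cs (cs.simple i * y) (cs.simple i * w) := by
  rcases bruhat_lift_or cs i h with h | h
  · exact bruhat_trans cs h (bruhat_simple_mul cs hw)
  · exact h

lemma bruhat_one (w : W) : BruhatLE cs 1 w := by
  obtain ⟨ω, hω, rfl⟩ := cs.exists_isReduced w
  induction ω with
  | nil => simpa using bruhat_refl cs (1 : W)
  | cons i ω ih =>
    have hω' : cs.length (cs.wordProd (i :: ω)) = (i :: ω).length := hω
    have h2 : cs.IsReduced ω := by
      have := hω.drop 1
      simpa using this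
    have h3 : cs.length (cs.wordProd ω) = ω.length := h2
    refine bruhat_trans cs (ih h2) ?_
    rw [cs.wordProd_cons]
    apply bruhat_simple_mul
    rw [← cs.wordProd_cons, hω', h3]
    simp

end Pool.Agent.H7.KL
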