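import Mathlib
import Pool.Agent.H7.KL.Cox

/-! Existence of the Hecke algebra with its bar involution, for every Coxeter system. -/

set_option autoImplicit false

namespace Pool.Agent.H7.KL

open CoxeterSystem

variable {B : Type} {M : CoxeterMatrix B} {W : Type} [Group W] (cs : CoxeterSystem M W)

section operators

open scoped Classical in
/-- Left multiplication by `T_i` on the basis. -/
noncomputable def Lb (i : B) (w : W) : W →₀ A :=
  if cs.length w < cs.length (cs.simple i * w) then Finsupp.single (cs.simple i * w) 1
  else qA • Finsupp.single (cs.simple i * w) 1 + (qA - 1) • Finsupp.single w 1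

open scoped Classical in
/-- Right multiplication by `T_i` on the basis. -/
noncomputable def Rb (i : B) (w : W) : W →₀ A :=
  if cs.length w < cs.length (w * cs.simple i) then Finsupp.single (w * cs.simple i) 1
  else qA • Finsupp.single (w * cs.simple i) 1 + (qA - 1) • Finsupp.single w 1

/-- Left operator. -/
noncomputable def Lop (i : B) : Module.End A (W →₀ A) := Finsupp.linearCombination A (Lb cs i)

/-- Right operator. -/
noncomputable def Rop (i : B) : Module.End A (W →₀ A) := Finsupp.linearCombination A (Rb cs i)

lemma Lop_single (i : B) (w : W) : Lop cs i (Finsupp.single w 1) = Lb cs i w := by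
  unfold Lop; rw [Finsupp.linearCombination_single, one_smul]

lemma Rop_single (i : B) (w : W) : Rop cs i (Finsupp.single w 1) = Rb cs i w := by
  unfold Rop; rw [Finsupp.linearCombination_single, one_smul]

lemma Lop_up {i : B} {w : W} (h : cs.length w < cs.length (cs.simple i * w)) :
    Lop cs i (Finsupp.single w 1) = Finsupp.single (cs.simple i * w) 1 := by
  rw [Lop_single, Lb, if_pos h]

lemma Lop_down {i : B} {w : W} (h : cs.length (cs.simple i * w) < cs.length w) :
    Lop cs i (Finsupp.single w 1) =
      qA • Finsupp.single (cs.simple i * w) 1 + (qA - 1) • Finsupp.single w 1 := by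
  rw [Lop_single, Lb, if_neg (by omega)]

lemma Rop_up {i : B} {w : W} (h : cs.length w < cs.length (w * cs.simple i)) :
    Rop cs i (Finsupp.single w 1) = Finsupp.single (w * cs.simple i) 1 := by
  rw [Rop_single, Rb, if_pos h]

lemma Rop_down {i : B} {w : W} (h : cs.length (w * cs.simple i) < cs.length w) :
    Rop cs i (Finsupp.single w 1) =
      qA • Finsupp.single (w * cs.simple i) 1 + (qA - 1) • Finsupp.single w 1 := by
  rw [Rop_single, Rb, if_neg (by omega)]

lemma LR_comm (i j : B) (w : W) : Lop cs i (Rop cs j (Finsupp.single w 1)) =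
    Rop cs j (Lop cs i (Finsupp.single w 1)) := by
  have ha := cs.length_simple_mul w i
  have hb := cs.length_mul_simple w j
  have hc := cs.length_simple_mul (w * cs.simple j) i
  have hd := cs.length_mul_simple (cs.simple i * w) j
  have e1 : cs.simple i * (w * cs.simple j) = cs.simple i * w * cs.simple j := by rw [mul_assoc]
  have e2 : cs.length (cs.simple i * (w * cs.simple j)) =
    cs.length (cs.simple i * w * cs.simple j) := by rw [e1]
  rcases ha with ha | ha
  · rcases hb with hb | hb
    · -- up, up
      rw [Rop_up cs (w := w) (by omega), Lop_up cs (w := w) (by omega)]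
      rcases hc with hc | hc
      · rw [Lop_up cs (w := w * cs.simple j) (by omega),
          Rop_up cs (w := cs.simple i * w) (by omega), e1]
      · have hu := eq_of_up_up cs (w := w) (i := i) (j := j) (by omega) (by omega)
        rw [Lop_down cs (w := w * cs.simple j) (by omega),
          Rop_down cs (w := cs.simple i * w) (by omega), e1, hu]
    · -- up, down
      rw [Rop_down cs (w := w) (by omega), Lop_up cs (w := w) (by omega), map_add, map_smul,
        map_smul, Lop_up cs (w := w) (by omega),
        Lop_up cs (w := w * cs.simple j) (by omega),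
        Rop_down cs (w := cs.simple i * w) (by omega), e1]
  · rcases hb with hb | hb
    · -- down, up
      rw [Rop_up cs (w := w) (by omega), Lop_down cs (w := w) (by omega), map_add, map_smul,
        map_smul, Rop_up cs (w := w) (by omega), Rop_up cs (w := cs.simple i * w) (by omega),
        Lop_down cs (w := w * cs.simple j) (by omega), e1]
    · -- down, down
      rw [Rop_down cs (w := w) (by omega), Lop_down cs (w := w) (by omega), map_add, map_smul,
        map_smul, map_add, map_smul, map_smul, Rop_down cs (w := w) (by omega),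
        Lop_down cs (w := w) (by omega)]
      rcases hc with hc | hc
      · have hu := eq_of_down_down cs (w := w) (i := i) (j := j) (by omega) (by omega) (by omega)
        rw [Lop_up cs (w := w * cs.simple j) (by omega),
          Rop_up cs (w := cs.simple i * w) (by omega), e1, hu]
      · rw [Lop_down cs (w := w * cs.simple j) (by omega),
          Rop_down cs (w := cs.simple i * w) (by omega), e1]
        simp only [smul_add]
        rw [smul_comm qA (qA - 1) (Finsupp.single (w * cs.simple j) (1 : A)),
          smul_comm qA (qA - 1) (Finsupp.single (cs.simple i * w) (1 : A))]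
        abel

lemma LR_commute (i j : B) : Lop cs i * Rop cs j = Rop cs j * Lop cs i := by
  apply Finsupp.lhom_ext'
  intro w
  apply LinearMap.ext_ring
  exact LR_comm cs i j w

lemma L_sq (i : B) : Lop cs i * Lop cs i = (qA - 1) • Lop cs i + qA • 1 := by
  apply Finsupp.lhom_ext'
  intro w
  apply LinearMap.ext_ring
  change Lop cs i (Lop cs i (Finsupp.single w 1)) =
    (qA - 1) • Lop cs i (Finsupp.single w 1) + qA • (Finsupp.single w 1)
  rcases cs.length_simple_mul w i with h | h
  · rw [Lop_up cs (w := w) (by omega), Lop_down cs (w := cs.simple i * w) (by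
      rw [cs.simple_mul_simple_cancel_left]; omega), cs.simple_mul_simple_cancel_left]
    abel
  · rw [Lop_down cs (w := w) (by omega), map_add, map_smul, map_smul,
      Lop_down cs (w := w) (by omega), Lop_up cs (w := cs.simple i * w) (by
      rw [cs.simple_mul_simple_cancel_left]; omega), cs.simple_mul_simple_cancel_left]
    abel

end operators

/-- The Hecke algebra as a centraliser. -/
abbrev HA : Type := Subalgebra.centralizer A (Set.range (Rop cs))

noncomputable instance : Ring (HA cs) := Algebra.semiringToRing A

lemma Lop_mem (i : B) : Lop cs i ∈ Subalgebra.centralizer A (Set.range (Rop cs)) := by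
  rw [Subalgebra.mem_centralizer_iff]
  rintro _ ⟨j, rfl⟩
  exact (LR_commute cs i j).symm

/-- The generator `T_i` of the Hecke algebra. -/
noncomputable def Lel (i : B) : HA cs := ⟨Lop cs i, Lop_mem cs i⟩

/-- Evaluation at `e_1`. -/
noncomputable def ev : HA cs →ₗ[A] (W →₀ A) where
  toFun h := h.1 (Finsupp.single 1 1)
  map_add' _ _ := rfl
  map_smul' _ _ := rfl

lemma HA_comm (h : HA cs) (j : B) (x : W →₀ A) : h.1 (Rop cs j x) = Rop cs j (h.1 x) := by
  have := (Subalgebra.mem_centralizer_iff A).mp h.2 (Rop cs j) ⟨j, rfl⟩
  exact (LinearMap.congr_fun this x).symm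

lemma ev_injective : Function.Injective (ev cs) := by
  rw [injective_iff_map_eq_zero]
  intro h hh
  have key : ∀ n : ℕ, ∀ w : W, cs.length w = n → h.1 (Finsupp.single w 1) = 0 := by
    intro n
    induction n with
    | zero =>
      intro w hw
      rw [cs.length_eq_zero_iff.mp hw]
      exact hh
    | succ n ih =>
      intro w hw
      obtain ⟨j, hj⟩ := cs.exists_rightDescent_of_ne_one (w := w) (by
        rintro rfl; simp at hw)
      have hj' := cs.isRightDescent_iff.mp hj
      have h1 := ih (w * cs.simple j) (by omega)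
      have h2 := Rop_up cs (w := w * cs.simple j) (i := j) (by simp; omega)
      rw [cs.simple_mul_simple_cancel_right] at h2
      rw [← h2, HA_comm, h1, map_zero]
  apply Subtype.ext
  change h.1 = (0 : Module.End A (W →₀ A))
  apply Finsupp.lhom_ext'
  intro w
  apply LinearMap.ext_ring
  exact key _ w rfl

lemma ev_Lel_mul (i : B) (h : HA cs) : ev cs (Lel cs i * h) = Lop cs i (ev cs h) := rfl

lemma exists_T (w : W) : ∃ h : HA cs, ev cs h = Finsupp.single w 1 := by
  have key : ∀ n : ℕ, ∀ w : W, cs.length w = n → ∃ h : HA cs, ev cs h = Finsupp.single w 1 := by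
    intro n
    induction n with
    | zero =>
      intro w hw
      rw [cs.length_eq_zero_iff.mp hw]
      exact ⟨1, rfl⟩
    | succ n ih =>
      intro w hw
      obtain ⟨j, hj⟩ := cs.exists_leftDescent_of_ne_one (w := w) (by
        rintro rfl; simp at hw)
      have hj' := cs.isLeftDescent_iff.mp hj
      obtain ⟨h, hh⟩ := ih (cs.simple j * w) (by omega)
      refine ⟨Lel cs j * h, ?_⟩
      rw [ev_Lel_mul, hh, Lop_up cs (by simp; omega), cs.simple_mul_simple_cancel_left]
  exact key _ w rfl

lemma ev_surjective : Function.Surjective (ev cs) := by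
  intro x
  induction x using Finsupp.induction_linear with
  | zero => exact ⟨0, map_zero _⟩
  | add f g hf hg =>
    obtain ⟨a, rfl⟩ := hf
    obtain ⟨b, rfl⟩ := hg
    exact ⟨a + b, map_add _ _ _⟩
  | single w a =>
    obtain ⟨h, hh⟩ := exists_T cs w
    refine ⟨a • h, ?_⟩
    rw [map_smul, hh, Finsupp.smul_single, smul_eq_mul, mul_one]

/-- The evaluation as a linear equivalence. -/
noncomputable def evEquiv : HA cs ≃ₗ[A] (W →₀ A) :=
  LinearEquiv.ofBijective (ev cs) ⟨ev_injective cs, ev_surjective cs⟩

/-- The standard basis. -/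
noncomputable def TH : Module.Basis W A (HA cs) := Module.Basis.ofRepr (evEquiv cs)

lemma ev_TH (w : W) : ev cs (TH cs w) = Finsupp.single w 1 := by
  have : (TH cs).repr (TH cs w) = Finsupp.single w 1 := Module.Basis.repr_self _ _
  exact this

lemma TH_eq_iff (h : HA cs) (w : W) : h = TH cs w ↔ ev cs h = Finsupp.single w 1 := by
  rw [← ev_TH]
  exact (ev_injective cs).eq_iff.symm

lemma TH_one : TH cs 1 = 1 := by
  symm; rw [TH_eq_iff]; rfl

lemma TH_simple (i : B) : TH cs (cs.simple i) = Lel cs i := by
  symm
  rw [TH_eq_iff]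
  have := ev_Lel_mul cs i 1
  rw [mul_one] at this
  rw [this]
  change Lop cs i (Finsupp.single 1 1) = _
  rw [Lop_up cs (by simp), mul_one]

lemma TH_mul : ∀ x y : W, cs.length (x * y) = cs.length x + cs.length y →
    TH cs x * TH cs y = TH cs (x * y) := by
  have key : ∀ n : ℕ, ∀ x y : W, cs.length x = n → cs.length (x * y) = cs.length x + cs.length y →
      TH cs x * TH cs y = TH cs (x * y) := by
    intro n
    induction n with
    | zero =>
      intro x y hx _
      rw [cs.length_eq_zero_iff.mp hx, TH_one, one_mul, one_mul]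
    | succ n ih =>
      intro x y hx hxy
      obtain ⟨j, hj⟩ := cs.exists_leftDescent_of_ne_one (w := x) (by
        rintro rfl; simp at hx)
      have hj' := cs.isLeftDescent_iff.mp hj
      have hle := cs.length_mul_le (cs.simple j * x) y
      have h2 := cs.length_simple_mul (x * y) j
      have e : cs.simple j * (x * y) = cs.simple j * x * y := by rw [mul_assoc]
      rw [e] at h2
      have h3 := ih (cs.simple j * x) y (by omega) (by omega)
      have h4 : Lel cs j * TH cs (cs.simple j * x) = TH cs x := by
        rw [TH_eq_iff, ev_Lel_mul, ev_TH, Lop_up cs (by simp; omega),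
          cs.simple_mul_simple_cancel_left]
      rw [← h4, mul_assoc, h3, TH_eq_iff, ev_Lel_mul, ev_TH, ← e, Lop_up cs (by
        rw [cs.simple_mul_simple_cancel_left, e]; omega), cs.simple_mul_simple_cancel_left]
  intro x y h
  exact key _ x y rfl h

lemma TH_sq (i : B) : TH cs (cs.simple i) * TH cs (cs.simple i) =
    (qA - 1) • TH cs (cs.simple i) + qA • (1 : HA cs) := by
  rw [TH_simple]
  apply Subtype.ext
  exact L_sq cs i

lemma TH_quad (i : B) :
    (TH cs (cs.simple i) - algebraMap A (HA cs) qA) * (TH cs (cs.simple i) + 1) = 0 := by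
  rw [sub_mul, mul_add, mul_add, TH_sq, Algebra.algebraMap_eq_smul_one, sub_smul, smul_mul_assoc,
    one_mul, one_smul, mul_one]
  simp only [mul_one]
  abel

/-! ### The bar involution -/

section bar

variable {cs} {H : Type} [Ring H] [Algebra A H] (T : Module.Basis W A H) (T_one : T 1 = 1)
  (T_mul : ∀ x y : W, cs.length (x * y) = cs.length x + cs.length y → T x * T y = T (x * y))
  (T_sq : ∀ i : B, T (cs.simple i) * T (cs.simple i) =
    (qA - 1) • T (cs.simple i) + qA • (1 : H))

/-- `q⁻¹`. -/
noncomputable def qi : A := LaurentPolynomial.T (-2)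

lemma qi_mul : qi * qA = 1 := by
  unfold qi qA
  rw [← LaurentPolynomial.T_add]; simp

lemma qA_mul : qA * qi = 1 := by
  unfold qi qA
  rw [← LaurentPolynomial.T_add]; simp

lemma inv_qA : LaurentPolynomial.invert qA = qi := by
  unfold qi qA; simp

include T_sq in
lemma T_inv_left (i : B) :
    (qi • T (cs.simple i) + (qi - 1) • (1 : H)) * T (cs.simple i) = 1 := by
  rw [add_mul, smul_mul_assoc, smul_mul_assoc, one_mul, T_sq, smul_add, smul_smul, smul_smul,
    qi_mul, one_smul, add_right_comm, ← add_smul]
  have : qi * (qA - 1) + (qi - 1) = 0 := by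
    rw [mul_sub, qi_mul, mul_one]; ring
  rw [this, zero_smul, zero_add]

include T_sq in
lemma T_inv_right (i : B) :
    T (cs.simple i) * (qi • T (cs.simple i) + (qi - 1) • (1 : H)) = 1 := by
  rw [mul_add, mul_smul_comm, mul_smul_comm, mul_one, T_sq, smul_add, smul_smul, smul_smul,
    qi_mul, one_smul, add_right_comm, ← add_smul]
  have : qi * (qA - 1) + (qi - 1) = 0 := by
    rw [mul_sub, qi_mul, mul_one]; ring
  rw [this, zero_smul, zero_add]

include T_one T_mul T_sq in
lemma T_isUnit (w : W) : IsUnit (T w) := by
  have key : ∀ n : ℕ, ∀ w : W, cs.length w = n → IsUnit (T w) := by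
    intro n
    induction n with
    | zero =>
      intro w hw
      rw [cs.length_eq_zero_iff.mp hw, T_one]
      exact isUnit_one
    | succ n ih =>
      intro w hw
      obtain ⟨j, hj⟩ := cs.exists_leftDescent_of_ne_one (w := w) (by
        rintro rfl; simp at hw)
      have hj' := cs.isLeftDescent_iff.mp hj
      have h1 := T_mul (cs.simple j) (cs.simple j * w) (by
        rw [cs.simple_mul_simple_cancel_left, cs.length_simple]; omega)
      rw [cs.simple_mul_simple_cancel_left] at h1
      rw [← h1]
      apply IsUnit.mul
      · exact ⟨⟨T (cs.simple j), _, T_inv_right T T_sq j, T_inv_left T T_sq j⟩, rfl⟩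
      · exact ih _ (by omega)
  exact key _ w rfl

/-- `D w = (T_{w⁻¹})⁻¹`. -/
noncomputable def Dw (w : W) : H := Ring.inverse (T w⁻¹)

include T_one T_mul T_sq in
lemma Dw_mul_T (w : W) : Dw T w * T w⁻¹ = 1 :=
  Ring.inverse_mul_cancel _ (T_isUnit T T_one T_mul T_sq w⁻¹)

include T_one T_mul T_sq in
lemma T_mul_Dw (w : W) : T w⁻¹ * Dw T w = 1 :=
  Ring.mul_inverse_cancel _ (T_isUnit T T_one T_mul T_sq w⁻¹)

include T_one T_mul T_sq in
lemma Dw_unique {w : W} {x : H} (h : x * T w⁻¹ = 1) : x = Dw T w := by
  have := T_mul_Dw T T_one T_mul T_sq w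
  calc x = x * (T w⁻¹ * Dw T w) := by rw [this, mul_one]
    _ = Dw T w := by rw [← mul_assoc, h, one_mul]

include T_one T_mul T_sq in
lemma Dw_one : Dw T (1 : W) = 1 := by
  symm
  apply Dw_unique T T_one T_mul T_sq
  rw [inv_one, T_one, mul_one]

include T_one T_mul T_sq in
lemma Dw_mul {x y : W} (h : cs.length (x * y) = cs.length x + cs.length y) :
    Dw T x * Dw T y = Dw T (x * y) := by
  apply Dw_unique T T_one T_mul T_sq
  have h1 : T (x * y)⁻¹ = T y⁻¹ * T x⁻¹ := by
    rw [T_mul, mul_inv_rev]
    rw [← mul_inv_rev, cs.length_inv, cs.length_inv, cs.length_inv, h, add_comm]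
  rw [h1]
  calc Dw T x * Dw T y * (T y⁻¹ * T x⁻¹) = Dw T x * (Dw T y * T y⁻¹) * T x⁻¹ := by
        simp only [mul_assoc]
    _ = 1 := by
        rw [Dw_mul_T T T_one T_mul T_sq, mul_one, Dw_mul_T T T_one T_mul T_sq]

include T_one T_mul T_sq in
lemma Dw_simple (i : B) : Dw T (cs.simple i) = qi • T (cs.simple i) + (qi - 1) • (1 : H) := by
  symm
  apply Dw_unique T T_one T_mul T_sq
  rw [cs.inv_simple]
  exact T_inv_left T T_sq i

include T_one T_mul T_sq in
lemma Dw_sq (i : B) : Dw T (cs.simple i) * Dw T (cs.simple i) =
    (qi - 1) • Dw T (cs.simple i) + qi • (1 : H) := by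
  have h1 := T_mul_Dw T T_one T_mul T_sq (cs.simple i)
  rw [cs.inv_simple] at h1
  nth_rewrite 1 [Dw_simple T T_one T_mul T_sq]
  rw [add_mul, smul_mul_assoc, h1, smul_mul_assoc, one_mul, add_comm]

/-- The bar involution as an additive map. -/
noncomputable def barAdd : H →+ H :=
  (Finsupp.liftAddHom (fun w : W =>
    ({ toFun := fun a : A => LaurentPolynomial.invert a • Dw T w
       map_zero' := by rw [map_zero, zero_smul]
       map_add' := fun a b => by rw [map_add, add_smul] } : A →+ H))).comp
    T.repr.toLinearMap.toAddMonoidHom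

lemma barAdd_smul_T (a : A) (w : W) :
    barAdd T (a • T w) = LaurentPolynomial.invert a • Dw T w := by
  unfold barAdd
  simp

lemma barAdd_T (w : W) : barAdd T (T w) = Dw T w := by
  have := barAdd_smul_T T 1 w
  simpa using this

lemma H_induction {p : H → Prop} (h0 : p 0) (ha : ∀ x y, p x → p y → p (x + y))
    (hs : ∀ (a : A) (w : W), p (a • T w)) (x : H) : p x := by
  rw [← T.linearCombination_repr x]
  induction T.repr x using Finsupp.induction_linear with
  | zero => simpa using h0
  | add f g hf hg => rw [map_add]; exact ha _ _ hf hg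
  | single w a => rw [Finsupp.linearCombination_single]; exact hs a w

lemma barAdd_smul (a : A) (x : H) : barAdd T (a • x) = LaurentPolynomial.invert a • barAdd T x := by
  induction x using H_induction T with
  | h0 => simp
  | ha x y hx hy => rw [smul_add, map_add, map_add, smul_add, hx, hy]
  | hs b w => rw [smul_smul, barAdd_smul_T, barAdd_smul_T, smul_smul, map_mul]

include T_one T_mul T_sq in
lemma barAdd_simple_mul (i : B) (x : H) :
    barAdd T (T (cs.simple i) * x) = Dw T (cs.simple i) * barAdd T x := by
  induction x using H_induction T with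
  | h0 => simp
  | ha x y hx hy => rw [mul_add, map_add, map_add, mul_add, hx, hy]
  | hs b w =>
    rw [mul_smul_comm, barAdd_smul, barAdd_smul_T, mul_smul_comm]
    congr 1
    rcases cs.length_simple_mul w i with h | h
    · have h1 : cs.length (cs.simple i * w) = cs.length (cs.simple i) + cs.length w := by
        rw [cs.length_simple]; omega
      rw [T_mul _ _ h1, barAdd_T, Dw_mul T T_one T_mul T_sq h1]
    · have h1 : cs.length (cs.simple i * (cs.simple i * w)) =
          cs.length (cs.simple i) + cs.length (cs.simple i * w) := by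
        rw [cs.simple_mul_simple_cancel_left, cs.length_simple]; omega
      have h2 := T_mul _ _ h1
      have h3 := Dw_mul T T_one T_mul T_sq h1
      rw [cs.simple_mul_simple_cancel_left] at h2 h3
      rw [← h2, ← h3, ← mul_assoc, ← mul_assoc, T_sq, Dw_sq T T_one T_mul T_sq, add_mul, add_mul,
        smul_mul_assoc, h2, smul_mul_assoc, one_mul, map_add, barAdd_smul, barAdd_smul, barAdd_T,
        barAdd_T, smul_mul_assoc, h3, smul_mul_assoc, one_mul, map_sub, inv_qA, map_one]

include T_one T_mul T_sq in
lemma barAdd_T_mul (w : W) (x : H) : barAdd T (T w * x) = Dw T w * barAdd T x := by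
  have key : ∀ n : ℕ, ∀ w : W, cs.length w = n → ∀ x : H,
      barAdd T (T w * x) = Dw T w * barAdd T x := by
    intro n
    induction n with
    | zero =>
      intro w hw x
      rw [cs.length_eq_zero_iff.mp hw, T_one, Dw_one T T_one T_mul T_sq, one_mul, one_mul]
    | succ n ih =>
      intro w hw x
      obtain ⟨j, hj⟩ := cs.exists_leftDescent_of_ne_one (w := w) (by
        rintro rfl; simp at hw)
      have hj' := cs.isLeftDescent_iff.mp hj
      have h1 : cs.length (cs.simple j * (cs.simple j * w)) =
          cs.length (cs.simple j) + cs.length (cs.simple j * w) := by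
        rw [cs.simple_mul_simple_cancel_left, cs.length_simple]; omega
      have h2 := T_mul _ _ h1
      have h3 := Dw_mul T T_one T_mul T_sq h1
      rw [cs.simple_mul_simple_cancel_left] at h2 h3
      rw [← h2, ← h3, mul_assoc, mul_assoc, barAdd_simple_mul T T_one T_mul T_sq,
        ih _ (by omega)]
  exact key _ w rfl x

include T_one T_mul T_sq in
lemma barAdd_mul (x y : H) : barAdd T (x * y) = barAdd T x * barAdd T y := by
  induction x using H_induction T with
  | h0 => simp
  | ha x z hx hz => rw [add_mul, map_add, map_add, add_mul, hx, hz]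
  | hs b w =>
    rw [smul_mul_assoc, barAdd_smul, barAdd_T_mul T T_one T_mul T_sq, barAdd_smul_T,
      smul_mul_assoc]

/-- The bar involution. -/
noncomputable def barHom : H →+* H where
  toFun := barAdd T
  map_zero' := map_zero _
  map_add' := map_add _
  map_one' := by rw [← T_one, barAdd_T, Dw_one T T_one T_mul T_sq, T_one]
  map_mul' := barAdd_mul T T_one T_mul T_sq

end bar

/-- The Hecke algebra of a Coxeter system exists. -/
noncomputable def heckeAlgebra : HeckeAlgebra cs (HA cs) where
  T := TH cs
  T_one := TH_one cs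
  T_mul := TH_mul cs
  T_quad := TH_quad cs
  bar := barHom (TH cs) (TH_one cs) (TH_mul cs) (TH_sq cs)
  bar_algebraMap a := by
    change barAdd (TH cs) (algebraMap A _ a) = _
    rw [Algebra.algebraMap_eq_smul_one, ← TH_one, barAdd_smul_T,
      Dw_one (TH cs) (TH_one cs) (TH_mul cs) (TH_sq cs), Algebra.algebraMap_eq_smul_one]
  bar_T w := by
    change barAdd (TH cs) (TH cs w) * _ = 1 ∧ _ * barAdd (TH cs) (TH cs w) = 1
    rw [barAdd_T]
    exact ⟨Dw_mul_T (TH cs) (TH_one cs) (TH_mul cs) (TH_sq cs) w,
      T_mul_Dw (TH cs) (TH_one cs) (TH_mul cs) (TH_sq cs) w⟩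

end Pool.Agent.H7.KL
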