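import Mathlib
import Pool.Agent.H7.KL.HeckeExist

/-! Existence of the Kazhdan-Lusztig basis in the Hecke algebra of an arbitrary Coxeter system. -/

set_option autoImplicit false

namespace Pool.Agent.H7.KL

open CoxeterSystem

section laurent

/-- All exponents are positive. -/
def Pos (a : A) : Prop := ∀ k : ℤ, a.coeff k ≠ 0 → 0 < k

/-- All exponents are at most `n` and of the parity of `n`. -/
def PG (n : ℤ) (a : A) : Prop := ∀ k : ℤ, a.coeff k ≠ 0 → k ≤ n ∧ Even (n - k)

lemma coeff_mul_ne {a b : A} {k : ℤ} (h : (a * b).coeff k ≠ 0) :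
    ∃ i j : ℤ, i + j = k ∧ a.coeff i ≠ 0 ∧ b.coeff j ≠ 0 := by
  classical
  have h1 : k ∈ (a * b).coeff.support := by simpa using h
  have h2 := AddMonoidAlgebra.support_coeff_mul_subset a b h1
  rw [Finset.mem_add] at h2
  obtain ⟨i, hi, j, hj, hij⟩ := h2
  exact ⟨i, j, hij, by simpa using hi, by simpa using hj⟩

lemma Pos.zero : Pos 0 := fun _ h => absurd rfl h
lemma PG.zero (n : ℤ) : PG n 0 := fun _ h => absurd rfl h

lemma Pos.add {a b : A} (ha : Pos a) (hb : Pos b) : Pos (a + b) := by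
  intro k h
  by_contra hk
  have h1 : a.coeff k = 0 := by by_contra h1; exact hk (ha k h1)
  have h2 : b.coeff k = 0 := by by_contra h2; exact hk (hb k h2)
  apply h
  rw [AddMonoidAlgebra.coeff_add, Finsupp.add_apply, h1, h2, add_zero]

lemma PG.add {n : ℤ} {a b : A} (ha : PG n a) (hb : PG n b) : PG n (a + b) := by
  intro k h
  by_contra hk
  have h1 : a.coeff k = 0 := by by_contra h1; exact hk (ha k h1)
  have h2 : b.coeff k = 0 := by by_contra h2; exact hk (hb k h2)
  apply h
  rw [AddMonoidAlgebra.coeff_add, Finsupp.add_apply, h1, h2, add_zero]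

lemma PG.neg {n : ℤ} {a : A} (ha : PG n a) : PG n (-a) := by
  intro k h
  apply ha k
  intro h1
  apply h
  rw [AddMonoidAlgebra.coeff_neg, Finsupp.neg_apply, h1, neg_zero]

lemma PG.mul {m n : ℤ} {a b : A} (ha : PG m a) (hb : PG n b) : PG (m + n) (a * b) := by
  intro k h
  obtain ⟨i, j, hij, hi, hj⟩ := coeff_mul_ne h
  obtain ⟨h1, h2⟩ := ha i hi
  obtain ⟨h3, h4⟩ := hb j hj
  refine ⟨by omega, ?_⟩
  have : m + n - k = (m - i) + (n - j) := by omega
  rw [this]
  exact h2.add h4

lemma PG.mono {m n : ℤ} {a : A} (ha : PG m a) (h : m ≤ n) (he : Even (n - m)) : PG n a := by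
  intro k hk
  obtain ⟨h1, h2⟩ := ha k hk
  refine ⟨by omega, ?_⟩
  have : n - k = (n - m) + (m - k) := by omega
  rw [this]
  exact he.add h2

lemma Pos.mul {a b : A} (ha : Pos a) (hb : Pos b) : Pos (a * b) := by
  intro k h
  obtain ⟨i, j, hij, hi, hj⟩ := coeff_mul_ne h
  have := ha i hi
  have := hb j hj
  omega

lemma PG_T (n : ℤ) : PG n (LaurentPolynomial.T n) := by
  intro k h
  rw [LaurentPolynomial.T_apply] at h
  have : n = k := by by_contra hne; rw [if_neg hne] at h; exact h rfl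
  subst this
  simp

lemma PG_one : PG 0 1 := by
  rw [← LaurentPolynomial.T_zero]; exact PG_T 0

/-- The part with positive exponents. -/
noncomputable def posPart (a : A) : A :=
  AddMonoidAlgebra.ofCoeff (a.coeff.filter (fun k => 0 < k))

lemma coeff_posPart (a : A) (k : ℤ) : (posPart a).coeff k = if 0 < k then a.coeff k else 0 := by
  unfold posPart
  rw [AddMonoidAlgebra.coeff_ofCoeff, Finsupp.filter_apply]

lemma posPart_pos (a : A) : Pos (posPart a) := by
  intro k h
  rw [coeff_posPart] at h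
  by_contra hk
  rw [if_neg hk] at h
  exact h rfl

lemma posPart_PG {n : ℤ} {a : A} (h : PG n a) : PG n (posPart a) := by
  intro k hk
  rw [coeff_posPart] at hk
  apply h k
  intro h0
  rw [h0] at hk
  simp at hk

lemma posPart_sub (a : A) (h : LaurentPolynomial.invert a = -a) :
    posPart a - LaurentPolynomial.invert (posPart a) = a := by
  apply LaurentPolynomial.ext
  intro k
  have h1 : a.coeff (-k) = - a.coeff k := by
    have := congrArg (fun b : A => b.coeff k) h
    simp only [LaurentPolynomial.invert_apply, AddMonoidAlgebra.coeff_neg,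
      Finsupp.neg_apply] at this
    exact this
  rw [AddMonoidAlgebra.coeff_sub, Finsupp.sub_apply, LaurentPolynomial.invert_apply,
    coeff_posPart, coeff_posPart, h1]
  rcases lt_trichotomy k 0 with hk | hk | hk
  · rw [if_neg (by omega), if_pos (by omega)]; ring
  · subst hk
    simp at h1
    have : a.coeff 0 = 0 := by omega
    simp [this]
  · rw [if_pos hk, if_neg (by omega)]; ring

lemma Pos_of_mul_one_or {a b : A} (ha : Pos a) (hb : b = 1 ∨ Pos b) : Pos (a * b) := by
  rcases hb with rfl | hb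
  · rwa [mul_one]
  · exact ha.mul hb

lemma Pos_sum {ι : Type} (s : Finset ι) (f : ι → A) (h : ∀ i ∈ s, Pos (f i)) :
    Pos (∑ i ∈ s, f i) := by
  classical
  induction s using Finset.induction_on with
  | empty => rw [Finset.sum_empty]; exact Pos.zero
  | insert a s ha ih =>
    rw [Finset.sum_insert ha]
    exact (h a (Finset.mem_insert_self _ _)).add
      (ih (fun i hi => h i (Finset.mem_insert_of_mem hi)))

lemma PG_sum {ι : Type} (n : ℤ) (s : Finset ι) (f : ι → A) (h : ∀ i ∈ s, PG n (f i)) :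
    PG n (∑ i ∈ s, f i) := by
  classical
  induction s using Finset.induction_on with
  | empty => rw [Finset.sum_empty]; exact PG.zero _
  | insert a s ha ih =>
    rw [Finset.sum_insert ha]
    exact (h a (Finset.mem_insert_self _ _)).add
      (ih (fun i hi => h i (Finset.mem_insert_of_mem hi)))

/-- A Laurent polynomial with exponents in `{D, D-2, ...}` as a polynomial in `q⁻¹`. -/
lemma exists_poly (D : ℕ) (a : A) (h : PG D a) :
    ∃ P : Polynomial ℤ,
      a = LaurentPolynomial.T D * Polynomial.aeval (LaurentPolynomial.T (-2) : A) P ∧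
      ((∀ k : ℤ, a.coeff k ≠ 0 → 0 < k) → 0 < D → 2 * P.natDegree + 1 ≤ D) := by
  classical
  refine ⟨∑ j ∈ a.coeff.support,
    Polynomial.C (a.coeff j) * Polynomial.X ^ ((D - j) / 2).toNat, ?_, ?_⟩
  · rw [map_sum, Finset.mul_sum]
    have h1 : ∀ j ∈ a.coeff.support,
        (LaurentPolynomial.T (D : ℤ) : A) * Polynomial.aeval (LaurentPolynomial.T (-2) : A)
          (Polynomial.C (a.coeff j) * Polynomial.X ^ ((D - j) / 2).toNat) =
        AddMonoidAlgebra.single j (a.coeff j) := by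
      intro j hj
      have hj' : a.coeff j ≠ 0 := by simpa using hj
      obtain ⟨hle, he⟩ := h j hj'
      rw [map_mul, map_pow, Polynomial.aeval_X, Polynomial.aeval_C, LaurentPolynomial.T_pow,
        ← LaurentPolynomial.C_eq_algebraMap, mul_left_comm, ← LaurentPolynomial.T_add,
        LaurentPolynomial.single_eq_C_mul_T]
      congr 2
      obtain ⟨m, hm⟩ := he
      have : ((D : ℤ) - j) / 2 = m := by omega
      rw [this]
      have hm0 : 0 ≤ m := by omega
      rw [Int.toNat_of_nonneg hm0]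
      omega
    rw [Finset.sum_congr rfl h1]
    apply LaurentPolynomial.ext
    intro k
    rw [AddMonoidAlgebra.coeff_sum, Finsupp.finsetSum_apply]
    simp only [AddMonoidAlgebra.coeff_single, Finsupp.single_apply]
    rw [Finset.sum_ite_eq']
    split_ifs with hk
    · rfl
    · simpa using hk
  · intro hpos hD
    have : (∑ j ∈ a.coeff.support,
        Polynomial.C (a.coeff j) * Polynomial.X ^ (((D : ℤ) - j) / 2).toNat).natDegree ≤
        (D - 1) / 2 := by
      apply Polynomial.natDegree_sum_le_of_forall_le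
      intro j hj
      refine (Polynomial.natDegree_C_mul_X_pow_le _ _).trans ?_
      have hj' : a.coeff j ≠ 0 := by simpa using hj
      have := hpos j hj'
      omega
    omega

end laurent

section basis

variable {B : Type} {M : CoxeterMatrix B} {W : Type} [Group W] {cs : CoxeterSystem M W}
variable {H : Type} [Ring H] [Algebra A H] (𝓗 : HeckeAlgebra cs H)

/-- The coefficient of `x` at the normalised basis element `v^{-ℓ(y)} T_y`. -/
noncomputable def tc (x : H) (y : W) : A :=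
  LaurentPolynomial.T (cs.length y : ℤ) * 𝓗.T.repr x y

/-- The normalised basis element. -/
noncomputable def Tt (y : W) : H := (LaurentPolynomial.T (-(cs.length y : ℤ)) : A) • 𝓗.T y

lemma T_mul_T_neg (n : ℤ) : (LaurentPolynomial.T n : A) * LaurentPolynomial.T (-n) = 1 := by
  rw [← LaurentPolynomial.T_add, add_neg_cancel, LaurentPolynomial.T_zero]

lemma T_neg_mul_T (n : ℤ) : (LaurentPolynomial.T (-n) : A) * LaurentPolynomial.T n = 1 := by
  rw [mul_comm, T_mul_T_neg]

lemma tc_add (x y : H) (w : W) : tc 𝓗 (x + y) w = tc 𝓗 x w + tc 𝓗 y w := by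
  unfold tc; rw [map_add, Finsupp.add_apply, mul_add]

lemma tc_sub (x y : H) (w : W) : tc 𝓗 (x - y) w = tc 𝓗 x w - tc 𝓗 y w := by
  unfold tc; rw [map_sub, Finsupp.sub_apply, mul_sub]

lemma tc_neg (x : H) (w : W) : tc 𝓗 (-x) w = - tc 𝓗 x w := by
  unfold tc; rw [map_neg, Finsupp.neg_apply, mul_neg]

lemma tc_zero (w : W) : tc 𝓗 0 w = 0 := by
  unfold tc; rw [map_zero, Finsupp.zero_apply, mul_zero]

lemma tc_smul (a : A) (x : H) (w : W) : tc 𝓗 (a • x) w = a * tc 𝓗 x w := by
  unfold tc; rw [map_smul, Finsupp.smul_apply, smul_eq_mul]; ring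

lemma tc_sum {ι : Type} (s : Finset ι) (f : ι → H) (w : W) :
    tc 𝓗 (∑ i ∈ s, f i) w = ∑ i ∈ s, tc 𝓗 (f i) w := by
  unfold tc; rw [map_sum, Finsupp.finsetSum_apply, Finset.mul_sum]

open scoped Classical in
lemma tc_Tt (y w : W) : tc 𝓗 (Tt 𝓗 y) w = if y = w then 1 else 0 := by
  unfold Tt
  rw [tc_smul]
  unfold tc
  rw [Module.Basis.repr_self, Finsupp.single_apply]
  split_ifs with h
  · subst h; rw [mul_one, T_neg_mul_T]
  · simp

lemma tc_self (w : W) : tc 𝓗 (Tt 𝓗 w) w = 1 := by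
  classical
  rw [tc_Tt, if_pos rfl]

lemma ext_tc {x y : H} (h : ∀ w, tc 𝓗 x w = tc 𝓗 y w) : x = y := by
  apply 𝓗.T.ext_elem
  intro w
  have := congrArg (fun a => (LaurentPolynomial.T (-(cs.length w : ℤ)) : A) * a) (h w)
  unfold tc at this
  simpa only [← mul_assoc, T_neg_mul_T, one_mul] using this

/-- Induction over linear combinations of the normalised basis. -/
lemma H_ind {p : H → Prop} (h0 : p 0) (ha : ∀ x y, p x → p y → p (x + y))
    (hs : ∀ (a : A) (w : W), p (a • Tt 𝓗 w)) (x : H) : p x := by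
  apply H_induction 𝓗.T h0 ha
  intro a w
  have := hs (a * LaurentPolynomial.T (cs.length w : ℤ)) w
  unfold Tt at this
  rwa [smul_smul, mul_assoc, T_mul_T_neg, mul_one] at this

lemma sq_of_quad (i : B) : 𝓗.T (cs.simple i) * 𝓗.T (cs.simple i) =
    (qA - 1) • 𝓗.T (cs.simple i) + qA • (1 : H) := by
  have := 𝓗.T_quad i
  rw [sub_mul, mul_add, mul_add, mul_one, mul_one, Algebra.algebraMap_eq_smul_one,
    smul_mul_assoc, one_mul] at this
  have h2 : 𝓗.T (cs.simple i) * 𝓗.T (cs.simple i) =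
      (qA • 𝓗.T (cs.simple i) + qA • (1 : H)) - 𝓗.T (cs.simple i) := by
    rw [eq_sub_iff_add_eq]
    exact sub_eq_zero.mp this
  rw [h2, sub_smul, one_smul]; abel

lemma bar_smul (a : A) (x : H) : 𝓗.bar (a • x) = LaurentPolynomial.invert a • 𝓗.bar x := by
  rw [Algebra.smul_def, map_mul, 𝓗.bar_algebraMap, ← Algebra.smul_def]

lemma bar_bar_T (w : W) : 𝓗.bar (𝓗.bar (𝓗.T w)) = 𝓗.T w := by
  have h1 := congrArg 𝓗.bar (𝓗.bar_T w).1
  rw [map_mul, map_one] at h1
  have h2 := (𝓗.bar_T w⁻¹).2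
  rw [inv_inv] at h2
  have h3 := (𝓗.bar_T w⁻¹).1
  rw [inv_inv] at h3
  calc 𝓗.bar (𝓗.bar (𝓗.T w)) = 𝓗.bar (𝓗.bar (𝓗.T w)) * (𝓗.bar (𝓗.T w⁻¹) * 𝓗.T w) := by
        rw [h3, mul_one]
    _ = 𝓗.T w := by rw [← mul_assoc, h1, one_mul]

lemma bar_bar (x : H) : 𝓗.bar (𝓗.bar x) = x := by
  induction x using H_induction 𝓗.T with
  | h0 => simp
  | ha x y hx hy => rw [map_add, map_add, hx, hy]
  | hs a w =>
    rw [bar_smul, bar_smul, bar_bar_T, LaurentPolynomial.involutive_invert a]

/-- Left multiplication by `bar(T̃_i)`. -/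
noncomputable def Eb (i : B) (x : H) : H :=
  ((LaurentPolynomial.T (-1) : A) • 𝓗.T (cs.simple i) +
    ((LaurentPolynomial.T (-1) : A) - LaurentPolynomial.T 1) • (1 : H)) * x

lemma Eb_add (i : B) (x y : H) : Eb 𝓗 i (x + y) = Eb 𝓗 i x + Eb 𝓗 i y := by
  unfold Eb; rw [mul_add]

lemma Eb_smul (i : B) (a : A) (x : H) : Eb 𝓗 i (a • x) = a • Eb 𝓗 i x := by
  unfold Eb; rw [mul_smul_comm]

lemma simple_mul_Tt_up {i : B} {w : W} (h : cs.length w < cs.length (cs.simple i * w)) :
    (LaurentPolynomial.T (-1) : A) • 𝓗.T (cs.simple i) * Tt 𝓗 w = Tt 𝓗 (cs.simple i * w) := by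
  have h1 := cs.length_simple_mul w i
  unfold Tt
  rw [mul_smul_comm, smul_mul_assoc, 𝓗.T_mul _ _ (by rw [cs.length_simple]; omega), smul_smul,
    ← LaurentPolynomial.T_add]
  congr 2
  omega

lemma simple_mul_Tt_down {i : B} {w : W} (h : cs.length (cs.simple i * w) < cs.length w) :
    (LaurentPolynomial.T (-1) : A) • 𝓗.T (cs.simple i) * Tt 𝓗 w =
      Tt 𝓗 (cs.simple i * w) +
        ((LaurentPolynomial.T 1 : A) - LaurentPolynomial.T (-1)) • Tt 𝓗 w := by
  have h1 := cs.length_simple_mul w i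
  have h2 := 𝓗.T_mul (cs.simple i) (cs.simple i * w) (by
    rw [cs.simple_mul_simple_cancel_left, cs.length_simple]; omega)
  rw [cs.simple_mul_simple_cancel_left] at h2
  have h3 : 𝓗.T (cs.simple i) * 𝓗.T w = (qA - 1) • 𝓗.T w + qA • 𝓗.T (cs.simple i * w) := by
    rw [← h2, ← mul_assoc, sq_of_quad, add_mul, smul_mul_assoc, smul_mul_assoc, one_mul]
  unfold Tt
  rw [mul_smul_comm, smul_mul_assoc, h3, smul_add, smul_add, smul_smul, smul_smul, smul_smul,
    smul_smul, add_comm, smul_smul]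
  congr 2
  · unfold qA
    rw [← LaurentPolynomial.T_add, ← LaurentPolynomial.T_add]
    congr 1
    omega
  · unfold qA
    rw [mul_sub, mul_one, sub_mul, ← LaurentPolynomial.T_add, ← LaurentPolynomial.T_add,
      ← LaurentPolynomial.T_add, ← LaurentPolynomial.T_add]
    congr 2 <;> ring

lemma Eb_Tt_up {i : B} {w : W} (h : cs.length w < cs.length (cs.simple i * w)) :
    Eb 𝓗 i (Tt 𝓗 w) = Tt 𝓗 (cs.simple i * w) +
      ((LaurentPolynomial.T (-1) : A) - LaurentPolynomial.T 1) • Tt 𝓗 w := by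
  unfold Eb
  rw [add_mul, simple_mul_Tt_up 𝓗 h, smul_mul_assoc, one_mul]

lemma Eb_Tt_down {i : B} {w : W} (h : cs.length (cs.simple i * w) < cs.length w) :
    Eb 𝓗 i (Tt 𝓗 w) = Tt 𝓗 (cs.simple i * w) := by
  unfold Eb
  rw [add_mul, simple_mul_Tt_down 𝓗 h, smul_mul_assoc, one_mul, add_assoc, ← add_smul]
  have : (LaurentPolynomial.T 1 : A) - LaurentPolynomial.T (-1) +
    ((LaurentPolynomial.T (-1) : A) - LaurentPolynomial.T 1) = 0 := by ring
  rw [this, zero_smul, add_zero]

lemma bar_simple (i : B) (x : H) :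
    𝓗.bar ((LaurentPolynomial.T (-1) : A) • 𝓗.T (cs.simple i)) * x = Eb 𝓗 i x := by
  have h1 : 𝓗.bar (𝓗.T (cs.simple i)) =
      qi • 𝓗.T (cs.simple i) + (qi - 1) • (1 : H) := by
    have h2 := (𝓗.bar_T (cs.simple i)).1
    rw [cs.inv_simple] at h2
    have h3 := T_inv_right 𝓗.T (sq_of_quad 𝓗) i
    calc 𝓗.bar (𝓗.T (cs.simple i)) = 𝓗.bar (𝓗.T (cs.simple i)) *
          (𝓗.T (cs.simple i) * (qi • 𝓗.T (cs.simple i) + (qi - 1) • (1 : H))) := by
          rw [h3, mul_one]
      _ = _ := by rw [← mul_assoc, h2, one_mul]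
  rw [bar_smul, h1]
  unfold Eb qi
  congr 1
  rw [LaurentPolynomial.invert_T, smul_add, smul_smul, smul_smul]
  congr 2
  · rw [← LaurentPolynomial.T_add]; norm_num
  · rw [mul_sub, mul_one, ← LaurentPolynomial.T_add]; norm_num

open scoped Classical in
lemma tc_Eb (i : B) (x : H) (y : W) : tc 𝓗 (Eb 𝓗 i x) y = tc 𝓗 x (cs.simple i * y) +
    (if cs.length y < cs.length (cs.simple i * y) then
      ((LaurentPolynomial.T (-1) : A) - LaurentPolynomial.T 1) * tc 𝓗 x y else 0) := by
  induction x using H_ind 𝓗 with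
  | h0 =>
    unfold Eb
    rw [mul_zero, tc_zero, tc_zero, mul_zero]; simp
  | ha x z hx hz =>
    rw [Eb_add, tc_add, tc_add, tc_add, hx, hz]
    split_ifs <;> ring
  | hs a w =>
    rw [Eb_smul, tc_smul, tc_smul, tc_smul, tc_Tt, tc_Tt]
    have e1 : (w = cs.simple i * y) ↔ (cs.simple i * w = y) := by
      constructor
      · rintro rfl; simp
      · rintro rfl; simp
    rcases cs.length_simple_mul w i with h | h
    · rw [Eb_Tt_up 𝓗 (by omega), tc_add, tc_smul, tc_Tt, tc_Tt]
      by_cases h2 : w = y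
      · subst h2
        have n1 : ¬ (cs.simple i * w = w) := by
          intro h3; rw [h3] at h; omega
        have n2 : cs.length w < cs.length (cs.simple i * w) := by omega
        simp only [e1, n1, n2, if_true, if_false]
        ring
      · rw [if_neg h2]
        simp only [e1]
        split_ifs <;> ring
    · rw [Eb_Tt_down 𝓗 (by omega), tc_Tt]
      by_cases h2 : w = y
      · subst h2
        rw [if_neg (c := cs.length w < _) (by omega)]
        simp only [e1]
        ring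
      · rw [if_neg h2]
        simp only [e1]
        split_ifs <;> ring

/-- Triangularity, degree and parity of `bar(T̃_w)`. -/
lemma bar_Tt (w : W) : tc 𝓗 (𝓗.bar (Tt 𝓗 w)) w = 1 ∧
    ∀ y, (tc 𝓗 (𝓗.bar (Tt 𝓗 w)) y ≠ 0 → BruhatLE cs y w) ∧
      PG ((cs.length w : ℤ) - cs.length y) (tc 𝓗 (𝓗.bar (Tt 𝓗 w)) y) := by
  classical
  have key : ∀ n : ℕ, ∀ w : W, cs.length w = n → tc 𝓗 (𝓗.bar (Tt 𝓗 w)) w = 1 ∧
    ∀ y, (tc 𝓗 (𝓗.bar (Tt 𝓗 w)) y ≠ 0 → BruhatLE cs y w) ∧
      PG ((cs.length w : ℤ) - cs.length y) (tc 𝓗 (𝓗.bar (Tt 𝓗 w)) y) := by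
    intro n
    induction n with
    | zero =>
      intro w hw
      have hw1 := cs.length_eq_zero_iff.mp hw
      subst hw1
      have h1 : 𝓗.bar (Tt 𝓗 (1 : W)) = Tt 𝓗 (1 : W) := by
        unfold Tt
        rw [cs.length_one, 𝓗.T_one]
        simp
      rw [h1]
      refine ⟨tc_self 𝓗 1, fun y => ?_⟩
      rw [tc_Tt]
      split_ifs with h
      · subst h
        refine ⟨fun _ => bruhat_refl cs _, ?_⟩
        rw [sub_self]; exact PG_one
      · exact ⟨fun h => absurd rfl h, PG.zero _⟩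
    | succ n ih =>
      intro w hw
      obtain ⟨j, hj⟩ := cs.exists_leftDescent_of_ne_one (w := w) (by
        rintro rfl; simp at hw)
      have hj' := cs.isLeftDescent_iff.mp hj
      obtain ⟨u, rfl⟩ : ∃ u, w = cs.simple j * u :=
        ⟨cs.simple j * w, by rw [cs.simple_mul_simple_cancel_left]⟩
      rw [cs.simple_mul_simple_cancel_left] at hj'
      obtain ⟨ih1, ih2⟩ := ih u (by omega)
      have h1 : 𝓗.bar (Tt 𝓗 (cs.simple j * u)) = Eb 𝓗 j (𝓗.bar (Tt 𝓗 u)) := by
        rw [← simple_mul_Tt_up 𝓗 (by omega), map_mul, bar_simple]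
      rw [h1]
      refine ⟨?_, fun y => ⟨?_, ?_⟩⟩
      · rw [tc_Eb, cs.simple_mul_simple_cancel_left, ih1, if_neg (by omega), add_zero]
      · intro h2
        rw [tc_Eb] at h2
        by_cases h3 : tc 𝓗 (𝓗.bar (Tt 𝓗 u)) (cs.simple j * y) = 0
        · rw [h3, zero_add] at h2
          by_cases h4 : tc 𝓗 (𝓗.bar (Tt 𝓗 u)) y = 0
          · rw [h4, mul_zero] at h2; simp at h2
          · exact bruhat_trans cs ((ih2 y).1 h4) (bruhat_simple_mul cs (by omega))
        · have := bruhat_lift cs j ((ih2 _).1 h3) (by omega)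
          rwa [cs.simple_mul_simple_cancel_left] at this
      · rw [tc_Eb]
        apply PG.add
        · refine (ih2 (cs.simple j * y)).2.mono ?_ ?_
          · rcases cs.length_simple_mul y j with h | h <;> omega
          · rcases cs.length_simple_mul y j with h | h
            · exact ⟨1, by omega⟩
            · exact ⟨0, by omega⟩
        · split_ifs with h
          · have h5 : PG 1 ((LaurentPolynomial.T (-1) : A) - LaurentPolynomial.T 1) := by
              rw [sub_eq_add_neg]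
              exact ((PG_T (-1)).mono (by norm_num) ⟨1, by norm_num⟩).add (PG_T 1).neg
            refine (h5.mul (ih2 y).2).mono (by omega) ⟨0, by omega⟩
          · exact PG.zero _
  exact key _ w rfl

/-- The defining properties of a Kazhdan-Lusztig element. -/
structure Good (w : W) (c : H) : Prop where
  bar_eq : 𝓗.bar c = c
  self : tc 𝓗 c w = 1
  le : ∀ y, tc 𝓗 c y ≠ 0 → BruhatLE cs y w
  pos : ∀ y, y ≠ w → Pos (tc 𝓗 c y)
  pg : ∀ y, PG ((cs.length w : ℤ) - cs.length y) (tc 𝓗 c y)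

open scoped Classical in
lemma tc_bar (x : H) (y : W) : tc 𝓗 (𝓗.bar x) y =
    ∑ w ∈ (𝓗.T.repr x).support,
      LaurentPolynomial.invert (tc 𝓗 x w) * tc 𝓗 (𝓗.bar (Tt 𝓗 w)) y := by
  have h1 : x = ∑ w ∈ (𝓗.T.repr x).support, tc 𝓗 x w • Tt 𝓗 w := by
    conv_lhs => rw [← 𝓗.T.linearCombination_repr x]
    rw [Finsupp.linearCombination_apply, Finsupp.sum]
    apply Finset.sum_congr rfl
    intro w _
    unfold tc Tt
    rw [smul_smul, mul_right_comm, T_mul_T_neg, one_mul]
  conv_lhs => rw [h1]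
  rw [map_sum, tc_sum]
  apply Finset.sum_congr rfl
  intro w _
  rw [bar_smul, tc_smul]

lemma tc_ne_zero_iff (x : H) (w : W) : tc 𝓗 x w ≠ 0 ↔ 𝓗.T.repr x w ≠ 0 := by
  unfold tc
  constructor
  · intro h h2; rw [h2, mul_zero] at h; exact h rfl
  · intro h h2
    apply h
    have := congrArg (fun a => (LaurentPolynomial.T (-(cs.length w : ℤ)) : A) * a) h2
    simpa only [← mul_assoc, T_neg_mul_T, one_mul, mul_zero] using this

/-- If all coefficients of `x` of length `> ℓ(y)` vanish, the coefficient at `y` of `bar x` is the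
bar of the coefficient of `x`. -/
lemma tc_bar_top (x : H) (y : W) (h : ∀ w, tc 𝓗 x w ≠ 0 → cs.length w ≤ cs.length y) :
    tc 𝓗 (𝓗.bar x) y = LaurentPolynomial.invert (tc 𝓗 x y) := by
  classical
  rw [tc_bar]
  have h1 : ∀ w ∈ (𝓗.T.repr x).support, w ≠ y →
      LaurentPolynomial.invert (tc 𝓗 x w) * tc 𝓗 (𝓗.bar (Tt 𝓗 w)) y = 0 := by
    intro w hw hne
    have h2 : tc 𝓗 x w ≠ 0 := (tc_ne_zero_iff 𝓗 x w).mpr (by simpa using hw)
    have h3 := h w h2
    by_contra h4
    have h5 : tc 𝓗 (𝓗.bar (Tt 𝓗 w)) y ≠ 0 := by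
      intro h6; rw [h6, mul_zero] at h4; exact h4 rfl
    have h6 := ((bar_Tt 𝓗 w).2 y).1 h5
    exact hne (bruhat_eq_of_length cs h6 h3).symm
  by_cases hy : y ∈ (𝓗.T.repr x).support
  · rw [Finset.sum_eq_single_of_mem y hy h1, (bar_Tt 𝓗 y).1, mul_one]
  · rw [Finset.sum_eq_zero (fun w hw => h1 w hw (by rintro rfl; exact hy hw))]
    have : tc 𝓗 x y = 0 := by
      by_contra h2
      exact hy (by simpa using (tc_ne_zero_iff 𝓗 x y).mp h2)
    rw [this, map_zero]

/-- Uniqueness: a bar-invariant element with all normalised coefficients in `v ℤ[v]` is zero. -/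
lemma eq_zero_of_pos (x : H) (hx : 𝓗.bar x = x) (h : ∀ y, Pos (tc 𝓗 x y)) : x = 0 := by
  classical
  by_contra hne
  have hs : (𝓗.T.repr x).support.Nonempty := by
    rw [Finsupp.support_nonempty_iff]
    intro h0
    apply hne
    have := congrArg 𝓗.T.repr.symm h0
    simpa using this
  obtain ⟨y, hy, hmax⟩ := Finset.exists_max_image _ (fun w => cs.length w) hs
  have h1 := tc_bar_top 𝓗 x y (fun w hw => hmax w (by simpa using (tc_ne_zero_iff 𝓗 x w).mp hw))
  rw [hx] at h1
  have h2 : tc 𝓗 x y ≠ 0 := (tc_ne_zero_iff 𝓗 x y).mpr (by simpa using hy)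
  apply h2
  apply LaurentPolynomial.ext
  intro k
  by_contra hk
  have hk' : (tc 𝓗 x y).coeff k ≠ 0 := hk
  have h3 := h y k hk'
  rw [h1, LaurentPolynomial.invert_apply] at hk'
  have h4 := h y (-k) hk'
  omega

/-- Uniqueness of Kazhdan-Lusztig elements, in a weak form. -/
lemma eq_of_good_like {w : W} {c c' : H} (h1 : 𝓗.bar c = c) (h1' : 𝓗.bar c' = c')
    (h2 : tc 𝓗 c w = 1) (h2' : tc 𝓗 c' w = 1) (h3 : ∀ y, y ≠ w → Pos (tc 𝓗 c y))
    (h3' : ∀ y, y ≠ w → Pos (tc 𝓗 c' y)) : c = c' := by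
  rw [← sub_eq_zero]
  apply eq_zero_of_pos 𝓗
  · rw [map_sub, h1, h1']
  · intro y
    rw [tc_sub]
    by_cases hy : y = w
    · subst hy; rw [h2, h2', sub_self]; exact Pos.zero
    · have h4 : Pos (-(tc 𝓗 c' y)) := by
        intro k hk
        apply h3' y hy
        intro h0; apply hk
        rw [AddMonoidAlgebra.coeff_neg, Finsupp.neg_apply, h0, neg_zero]
      rw [sub_eq_add_neg]
      exact (h3 y hy).add h4

end basis

end Pool.Agent.H7.KL
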