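import Mathlib
import Pool.Agent.H7.KL.KLExist

/-! Existence of the Kazhdan-Lusztig basis: the construction. -/

set_option autoImplicit false

namespace Pool.Agent.H7.KL

open CoxeterSystem

section basis

variable {B : Type} {M : CoxeterMatrix B} {W : Type} [Group W] {cs : CoxeterSystem M W}
variable {H : Type} [Ring H] [Algebra A H] (𝓗 : HeckeAlgebra cs H)

lemma bar_neg_of {x : H} (h : 𝓗.bar x = -x) {y : W}
    (hy : ∀ w, tc 𝓗 x w ≠ 0 → cs.length w ≤ cs.length y) :
    LaurentPolynomial.invert (tc 𝓗 x y) = - tc 𝓗 x y := by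
  rw [← tc_bar_top 𝓗 x y hy, h, tc_neg]

/-- Elimination: an anti-invariant element below `w` is of the form `p - bar p`. -/
lemma eliminate (w : W) (hC : ∀ y, cs.length y < cs.length w → ∃ c, Good 𝓗 y c) :
    ∀ n : ℕ, ∀ x : H, 𝓗.bar x = -x → (∀ y, tc 𝓗 x y ≠ 0 → BruhatLE cs y w ∧ y ≠ w) →
      (∀ y, tc 𝓗 x y ≠ 0 → cs.length y < n) →
      (∀ y, PG ((cs.length w : ℤ) - cs.length y) (tc 𝓗 x y)) →
      ∃ p : H, p - 𝓗.bar p = x ∧ (∀ y, Pos (tc 𝓗 p y)) ∧
        (∀ y, tc 𝓗 p y ≠ 0 → BruhatLE cs y w ∧ y ≠ w) ∧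
        (∀ y, PG ((cs.length w : ℤ) - cs.length y) (tc 𝓗 p y)) := by
  classical
  intro n
  induction n with
  | zero =>
    intro x _ _ h3 _
    have hx : x = 0 := by
      apply ext_tc 𝓗
      intro y
      rw [tc_zero]
      by_contra h
      exact absurd (h3 y h) (by omega)
    subst hx
    exact ⟨0, by simp, fun y => by rw [tc_zero]; exact Pos.zero,
      fun y h => absurd (tc_zero 𝓗 y) h, fun y => by rw [tc_zero]; exact PG.zero _⟩
  | succ n ih =>
    intro x h1 h2 h3 h4
    choose! c hc using hC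
    set S := (𝓗.T.repr x).support.filter (fun y => cs.length y = n) with hS
    have memS : ∀ y, y ∈ S ↔ tc 𝓗 x y ≠ 0 ∧ cs.length y = n := by
      intro y
      rw [hS, Finset.mem_filter, tc_ne_zero_iff, Finsupp.mem_support_iff]
    have hlt : ∀ y ∈ S, cs.length y < cs.length w := by
      intro y hy
      have := h2 y ((memS y).mp hy).1
      exact bruhat_length_lt cs this.1 this.2
    have hgood : ∀ y ∈ S, Good 𝓗 y (c y) := fun y hy => hc y (hlt y hy)
    have hanti : ∀ y ∈ S, LaurentPolynomial.invert (tc 𝓗 x y) = - tc 𝓗 x y := by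
      intro y hy
      apply bar_neg_of 𝓗 h1
      intro u hu
      have := h3 u hu
      have := ((memS y).mp hy).2
      omega
    set p1 : H := ∑ y ∈ S, posPart (tc 𝓗 x y) • c y with hp1
    have hbar1 : 𝓗.bar p1 = ∑ y ∈ S, LaurentPolynomial.invert (posPart (tc 𝓗 x y)) • c y := by
      rw [hp1, map_sum]
      apply Finset.sum_congr rfl
      intro y hy
      rw [bar_smul, (hgood y hy).bar_eq]
    have hdiff : p1 - 𝓗.bar p1 = ∑ y ∈ S, tc 𝓗 x y • c y := by
      rw [hbar1, hp1, ← Finset.sum_sub_distrib]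
      apply Finset.sum_congr rfl
      intro y hy
      rw [← sub_smul, posPart_sub _ (hanti y hy)]
    set x1 : H := x - (p1 - 𝓗.bar p1) with hx1
    have e1 : ∀ y, tc 𝓗 x1 y = tc 𝓗 x y - ∑ u ∈ S, tc 𝓗 x u * tc 𝓗 (c u) y := by
      intro y
      rw [hx1, tc_sub, hdiff, tc_sum]
      congr 1
      apply Finset.sum_congr rfl
      intro u _
      rw [tc_smul]
    have supp1 : ∀ y, tc 𝓗 x1 y ≠ 0 → tc 𝓗 x y ≠ 0 ∨ ∃ u ∈ S, tc 𝓗 (c u) y ≠ 0 := by
      intro y hy
      by_contra hcon
      push Not at hcon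
      apply hy
      rw [e1, hcon.1, Finset.sum_eq_zero (fun u hu => by rw [hcon.2 u hu, mul_zero]), sub_zero]
    have b1 : 𝓗.bar x1 = -x1 := by
      rw [hx1, map_sub, map_sub, bar_bar, h1]; abel
    have b2 : ∀ y, tc 𝓗 x1 y ≠ 0 → BruhatLE cs y w ∧ y ≠ w := by
      intro y hy
      rcases supp1 y hy with h | ⟨u, hu, h⟩
      · exact h2 y h
      · have hle := (hgood u hu).le y h
        have h5 := h2 u ((memS u).mp hu).1
        refine ⟨bruhat_trans cs hle h5.1, ?_⟩
        rintro rfl
        have := bruhat_length cs hle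
        have := hlt u hu
        omega
    have b3 : ∀ y, tc 𝓗 x1 y ≠ 0 → cs.length y < n := by
      intro y hy
      have hle : cs.length y ≤ n := by
        rcases supp1 y hy with h | ⟨u, hu, h⟩
        · have := h3 y h; omega
        · have := bruhat_length cs ((hgood u hu).le y h)
          have := ((memS u).mp hu).2
          omega
      rcases lt_or_eq_of_le hle with h | h
      · exact h
      · exfalso
        apply hy
        rw [e1]
        have hz : ∀ u ∈ S, u ≠ y → tc 𝓗 x u * tc 𝓗 (c u) y = 0 := by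
          intro u hu hne
          by_contra h6
          have h7 : tc 𝓗 (c u) y ≠ 0 := by
            intro h8; rw [h8, mul_zero] at h6; exact h6 rfl
          have h8 := (hgood u hu).le y h7
          have h9 := ((memS u).mp hu).2
          exact hne (bruhat_eq_of_length cs h8 (by omega)).symm
        by_cases hyS : y ∈ S
        · rw [Finset.sum_eq_single_of_mem y hyS hz, (hgood y hyS).self, mul_one, sub_self]
        · rw [Finset.sum_eq_zero (fun u hu => hz u hu (by rintro rfl; exact hyS hu))]
          have : tc 𝓗 x y = 0 := by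
            by_contra h6; exact hyS ((memS y).mpr ⟨h6, h⟩)
          rw [this, sub_zero]
    have b4 : ∀ y, PG ((cs.length w : ℤ) - cs.length y) (tc 𝓗 x1 y) := by
      intro y
      rw [e1, sub_eq_add_neg (tc 𝓗 x y)]
      apply (h4 y).add
      apply PG.neg
      apply PG_sum
      intro u hu
      exact ((h4 u).mul ((hgood u hu).pg y)).mono (by omega) ⟨0, by omega⟩
    obtain ⟨p2, q1, q2, q3, q4⟩ := ih x1 b1 b2 b3 b4
    have etc : ∀ y, tc 𝓗 p1 y = ∑ u ∈ S, posPart (tc 𝓗 x u) * tc 𝓗 (c u) y := by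
      intro y
      rw [hp1, tc_sum]
      apply Finset.sum_congr rfl
      intro u _
      rw [tc_smul]
    refine ⟨p1 + p2, ?_, ?_, ?_, ?_⟩
    · rw [map_add, add_sub_add_comm, q1, hx1]; abel
    · intro y
      rw [tc_add]
      apply Pos.add _ (q2 y)
      rw [etc]
      apply Pos_sum
      intro u hu
      apply Pos_of_mul_one_or (posPart_pos _)
      by_cases h : y = u
      · subst h; exact Or.inl (hgood y hu).self
      · exact Or.inr ((hgood u hu).pos y h)
    · intro y hy
      rw [tc_add] at hy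
      by_cases h : tc 𝓗 p2 y = 0
      · rw [h, add_zero, etc] at hy
        obtain ⟨u, hu, hne⟩ := Finset.exists_ne_zero_of_sum_ne_zero hy
        have h7 : tc 𝓗 (c u) y ≠ 0 := by
          intro h8; rw [h8, mul_zero] at hne; exact hne rfl
        have hle := (hgood u hu).le y h7
        have h5 := h2 u ((memS u).mp hu).1
        refine ⟨bruhat_trans cs hle h5.1, ?_⟩
        rintro rfl
        have := bruhat_length cs hle
        have := hlt u hu
        omega
      · exact q3 y h
    · intro y
      rw [tc_add]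
      apply PG.add _ (q4 y)
      rw [etc]
      apply PG_sum
      intro u hu
      exact ((posPart_PG (h4 u)).mul ((hgood u hu).pg y)).mono (by omega) ⟨0, by omega⟩

/-- Existence of Kazhdan-Lusztig elements. -/
theorem exists_good (w : W) : ∃ c, Good 𝓗 w c := by
  classical
  have key : ∀ n : ℕ, ∀ w : W, cs.length w = n → ∃ c, Good 𝓗 w c := by
    intro n
    induction n using Nat.strong_induction_on with
    | _ n ih =>
      intro w hw
      have hC : ∀ y, cs.length y < cs.length w → ∃ c, Good 𝓗 y c := by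
        intro y hy
        exact ih (cs.length y) (by omega) y rfl
      obtain ⟨hb1, hb2⟩ := bar_Tt 𝓗 w
      set x : H := 𝓗.bar (Tt 𝓗 w) - Tt 𝓗 w with hx
      have e1 : ∀ y, y ≠ w → tc 𝓗 x y = tc 𝓗 (𝓗.bar (Tt 𝓗 w)) y := by
        intro y hy
        rw [hx, tc_sub, tc_Tt, if_neg (Ne.symm hy), sub_zero]
      have e2 : tc 𝓗 x w = 0 := by
        rw [hx, tc_sub, hb1, tc_self, sub_self]
      obtain ⟨p, q1, q2, q3, q4⟩ := eliminate 𝓗 w hC (cs.length w) x
        (by rw [hx, map_sub, bar_bar]; abel)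
        (by
          intro y hy
          have hne : y ≠ w := by rintro rfl; exact hy e2
          rw [e1 y hne] at hy
          exact ⟨(hb2 y).1 hy, hne⟩)
        (by
          intro y hy
          have hne : y ≠ w := by rintro rfl; exact hy e2
          rw [e1 y hne] at hy
          exact bruhat_length_lt cs ((hb2 y).1 hy) hne)
        (by
          intro y
          by_cases hne : y = w
          · subst hne; rw [e2]; exact PG.zero _
          · rw [e1 y hne]; exact (hb2 y).2)
      have hpw : tc 𝓗 p w = 0 := by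
        by_contra h
        exact (q3 w h).2 rfl
      refine ⟨Tt 𝓗 w + p, ?_, ?_, ?_, ?_, ?_⟩
      · have : 𝓗.bar (Tt 𝓗 w) = Tt 𝓗 w + (p - 𝓗.bar p) := by rw [q1, hx]; abel
        rw [map_add, this]; abel
      · rw [tc_add, tc_self, hpw, add_zero]
      · intro y hy
        rw [tc_add, tc_Tt] at hy
        by_cases h : w = y
        · subst h; exact bruhat_refl cs _
        · rw [if_neg h, zero_add] at hy
          exact (q3 y hy).1
      · intro y hy
        rw [tc_add, tc_Tt, if_neg (Ne.symm hy), zero_add]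
        exact q2 y
      · intro y
        rw [tc_add, tc_Tt]
        apply PG.add _ (q4 y)
        split_ifs with h
        · subst h; rw [sub_self]; exact PG_one
        · exact PG.zero _
  exact key _ w rfl

/-- A choice of Kazhdan-Lusztig elements. -/
noncomputable def Cel (w : W) : H := (exists_good 𝓗 w).choose

lemma Cel_good (w : W) : Good 𝓗 w (Cel 𝓗 w) := (exists_good 𝓗 w).choose_spec

lemma Cel_linearIndependent : LinearIndependent A (Cel 𝓗) := by
  classical
  rw [linearIndependent_iff']
  intro s g hg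
  by_contra hcon
  push Not at hcon
  obtain ⟨i, hi, hgi⟩ := hcon
  obtain ⟨y, hy, hmax⟩ := Finset.exists_max_image (s.filter (fun w => g w ≠ 0))
    (fun w => cs.length w) ⟨i, Finset.mem_filter.mpr ⟨hi, hgi⟩⟩
  rw [Finset.mem_filter] at hy
  have h1 := congrArg (fun x => tc 𝓗 x y) hg
  simp only [tc_sum, tc_smul, tc_zero] at h1
  rw [Finset.sum_eq_single_of_mem y hy.1] at h1
  · rw [(Cel_good 𝓗 y).self, mul_one] at h1
    exact hy.2 h1
  · intro u hu hne
    by_contra h2
    have h3 : g u ≠ 0 := by rintro h; rw [h, zero_mul] at h2; exact h2 rfl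
    have h4 : tc 𝓗 (Cel 𝓗 u) y ≠ 0 := by rintro h; rw [h, mul_zero] at h2; exact h2 rfl
    have h5 := (Cel_good 𝓗 u).le y h4
    have h6 := hmax u (Finset.mem_filter.mpr ⟨hu, h3⟩)
    exact hne (bruhat_eq_of_length cs h5 h6).symm

lemma Tt_mem_span (w : W) : Tt 𝓗 w ∈ Submodule.span A (Set.range (Cel 𝓗)) := by
  classical
  have key : ∀ n : ℕ, ∀ w : W, cs.length w = n →
      Tt 𝓗 w ∈ Submodule.span A (Set.range (Cel 𝓗)) := by
    intro n
    induction n using Nat.strong_induction_on with
    | _ n ih =>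
      intro w hw
      have h1 : Cel 𝓗 w = ∑ y ∈ (𝓗.T.repr (Cel 𝓗 w)).support, tc 𝓗 (Cel 𝓗 w) y • Tt 𝓗 y := by
        conv_lhs => rw [← 𝓗.T.linearCombination_repr (Cel 𝓗 w)]
        rw [Finsupp.linearCombination_apply, Finsupp.sum]
        apply Finset.sum_congr rfl
        intro w _
        unfold tc Tt
        rw [smul_smul, mul_right_comm, T_mul_T_neg, one_mul]
      have hw' : w ∈ (𝓗.T.repr (Cel 𝓗 w)).support := by
        rw [Finsupp.mem_support_iff, ← tc_ne_zero_iff, (Cel_good 𝓗 w).self]
        exact one_ne_zero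
      rw [← Finset.add_sum_erase _ _ hw', (Cel_good 𝓗 w).self, one_smul] at h1
      have h2 : Tt 𝓗 w = Cel 𝓗 w - ∑ y ∈ (𝓗.T.repr (Cel 𝓗 w)).support.erase w,
          tc 𝓗 (Cel 𝓗 w) y • Tt 𝓗 y := by
        rw [eq_sub_iff_add_eq]; exact h1.symm
      rw [h2]
      apply Submodule.sub_mem
      · exact Submodule.subset_span ⟨w, rfl⟩
      · apply Submodule.sum_mem
        intro y hy
        apply Submodule.smul_mem
        rw [Finset.mem_erase, Finsupp.mem_support_iff, ← tc_ne_zero_iff] at hy
        have := bruhat_length_lt cs ((Cel_good 𝓗 w).le y hy.2) hy.1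
        exact ih (cs.length y) (by omega) y rfl
  exact key _ w rfl

lemma Cel_span : ⊤ ≤ Submodule.span A (Set.range (Cel 𝓗)) := by
  intro x _
  induction x using H_ind 𝓗 with
  | h0 => exact Submodule.zero_mem _
  | ha x y hx hy => exact Submodule.add_mem _ (hx trivial) (hy trivial)
  | hs a w => exact Submodule.smul_mem _ _ (Tt_mem_span 𝓗 w)

lemma neg_one_pow_mul_self (n : ℕ) (a : A) : (-1 : A) ^ n * ((-1 : A) ^ n * a) = a := by
  rw [← mul_assoc, ← pow_add, Even.neg_one_pow ⟨n, rfl⟩, one_mul]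

lemma exists_P (y w : W) : ∃ P : Polynomial ℤ,
    (𝓗.T.repr (Cel 𝓗 w) y = (-1) ^ (cs.length w + cs.length y) *
      LaurentPolynomial.T ((cs.length w : ℤ) - 2 * (cs.length y : ℤ)) *
      Polynomial.aeval (LaurentPolynomial.T (-2) : A) P) ∧
    (y = w → P = 1) ∧ (¬ BruhatLE cs y w → P = 0) ∧
    (BruhatLE cs y w → y ≠ w → 2 * P.natDegree + 1 ≤ cs.length w - cs.length y) := by
  classical
  have hrepr : 𝓗.T.repr (Cel 𝓗 w) y =
      LaurentPolynomial.T (-(cs.length y : ℤ)) * tc 𝓗 (Cel 𝓗 w) y := by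
    unfold tc
    rw [← mul_assoc, T_neg_mul_T, one_mul]
  by_cases hle : BruhatLE cs y w
  · by_cases hyw : y = w
    · subst hyw
      refine ⟨1, ?_, fun _ => rfl, fun h => absurd hle h, fun _ h => absurd rfl h⟩
      rw [hrepr, (Cel_good 𝓗 y).self, Even.neg_one_pow ⟨_, rfl⟩, one_mul, map_one]
      congr 2
      ring
    · set D : ℕ := cs.length w - cs.length y with hD
      have hlen := bruhat_length_lt cs hle hyw
      have hpg := (Cel_good 𝓗 w).pg y
      have hpos := (Cel_good 𝓗 w).pos y hyw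
      have hDz : (D : ℤ) = (cs.length w : ℤ) - cs.length y := by omega
      have hneg : ∀ a : A, ∀ k : ℤ, ((-1) ^ (cs.length w + cs.length y) * a).coeff k ≠ 0 →
          a.coeff k ≠ 0 := by
        intro a k h h0
        apply h
        rcases Nat.even_or_odd (cs.length w + cs.length y) with he | ho
        · rw [he.neg_one_pow, one_mul]; exact h0
        · rw [ho.neg_one_pow, neg_one_mul, AddMonoidAlgebra.coeff_neg, Finsupp.neg_apply, h0,
            neg_zero]
      obtain ⟨P, hP, hdeg⟩ := exists_poly D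
        ((-1) ^ (cs.length w + cs.length y) * tc 𝓗 (Cel 𝓗 w) y) (by
          intro k hk
          rw [hDz]
          exact hpg k (hneg _ k hk))
      refine ⟨P, ?_, fun h => absurd h hyw, fun h => absurd hle h, fun _ _ => ?_⟩
      · rw [hrepr]
        have : tc 𝓗 (Cel 𝓗 w) y = (-1) ^ (cs.length w + cs.length y) *
            (LaurentPolynomial.T D * Polynomial.aeval (LaurentPolynomial.T (-2) : A) P) := by
          rw [← hP, neg_one_pow_mul_self]
        rw [this, mul_left_comm, ← mul_assoc (LaurentPolynomial.T _),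
          ← LaurentPolynomial.T_add, ← mul_assoc]
        congr 3
        omega
      · exact hdeg (fun k hk => hpos k (hneg _ k hk)) (by omega)
  · refine ⟨0, ?_, ?_, fun _ => rfl, fun h => absurd h hle⟩
    · have : tc 𝓗 (Cel 𝓗 w) y = 0 := by
        by_contra h; exact hle ((Cel_good 𝓗 w).le y h)
      rw [hrepr, this]; simp
    · rintro rfl; exact absurd (bruhat_refl cs _) hle

/-- The Kazhdan-Lusztig basis exists. -/
noncomputable def klBasis : KLBasis cs 𝓗 where
  P y w := (exists_P 𝓗 y w).choose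
  P_self w := (exists_P 𝓗 w w).choose_spec.2.1 rfl
  P_zero y w h := (exists_P 𝓗 y w).choose_spec.2.2.1 h
  P_deg y w h hne := (exists_P 𝓗 y w).choose_spec.2.2.2 h hne
  C := Module.Basis.mk (Cel_linearIndependent 𝓗) (Cel_span 𝓗)
  C_coeff y w := by
    rw [Module.Basis.mk_apply]
    exact (exists_P 𝓗 y w).choose_spec.1
  bar_C w := by
    rw [Module.Basis.mk_apply]
    exact (Cel_good 𝓗 w).bar_eq

end basis

end Pool.Agent.H7.KL
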