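import Mathlib
import Pool.Agent.H7.KL.Cox

/-! Right-angled Coxeter systems. -/

set_option autoImplicit false

namespace Pool.Agent.H7.KL

open CoxeterSystem

variable {B : Type} {M : CoxeterMatrix B} {W : Type} [Group W] (cs : CoxeterSystem M W)

/-- Right-angled: all off-diagonal entries are `2` or `∞` (written `0`). -/
def RightAngled (M : CoxeterMatrix B) : Prop := ∀ i j, i ≠ j → M i j = 2 ∨ M i j = 0

/-- No three distinct pairwise commuting generators. -/
def NoTriple (M : CoxeterMatrix B) : Prop :=
  ∀ i j k, i ≠ j → j ≠ k → i ≠ k → M i j = 2 → M j k = 2 → M i k = 2 → False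

/-- The reflection `n ↦ -1 - n`. -/
def r0 : Equiv.Perm ℤ where
  toFun n := -1 - n
  invFun n := -1 - n
  left_inv n := by ring
  right_inv n := by ring

/-- The reflection `n ↦ 1 - n`. -/
def r1 : Equiv.Perm ℤ where
  toFun n := 1 - n
  invFun n := 1 - n
  left_inv n := by ring
  right_inv n := by ring

lemma r0_apply (n : ℤ) : r0 n = -1 - n := rfl
lemma r1_apply (n : ℤ) : r1 n = 1 - n := rfl

lemma r0_sq : r0 * r0 = 1 := by ext n; simp [r0_apply]
lemma r1_sq : r1 * r1 = 1 := by ext n; simp [r1_apply]

open scoped Classical in
/-- The map on generators defining the dihedral representation. -/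
noncomputable def dih (i j : B) (a : B) : Equiv.Perm ℤ :=
  if a = i then r0 else if a = j then r1 else 1

lemma dih_left (i j : B) : dih i j i = r0 := by classical simp [dih]
lemma dih_right {i j : B} (h : i ≠ j) : dih i j j = r1 := by
  classical simp [dih, Ne.symm h]
lemma dih_other {i j a : B} (h1 : a ≠ i) (h2 : a ≠ j) : dih i j a = 1 := by
  classical simp [dih, h1, h2]

lemma dih_sq (i j a : B) : dih i j a * dih i j a = 1 := by
  classical
  unfold dih
  split_ifs
  · exact r0_sq
  · exact r1_sq
  · simp

variable {cs} in
lemma dih_liftable (hR : RightAngled M) {i j : B} (hij : i ≠ j) (h : M i j = 0) :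
    M.IsLiftable (dih i j) := by
  intro a b
  by_cases hab : a = b
  · subst hab; rw [dih_sq]; simp
  rcases hR a b hab with h2 | h2
  · rw [h2]
    by_cases ha : a = i
    · subst ha
      have hb : b ≠ j := by rintro rfl; rw [h] at h2; exact absurd h2 (by norm_num)
      rw [dih_other (Ne.symm hab) hb, mul_one, pow_two, dih_sq]
    · by_cases ha' : a = j
      · subst ha'
        have hb : b ≠ i := by
          rintro rfl; rw [M.symmetric, h] at h2; exact absurd h2 (by norm_num)
        rw [dih_other hb (Ne.symm hab), mul_one, pow_two, dih_sq]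
      · rw [dih_other ha ha', one_mul, pow_two, dih_sq]
  · rw [h2, pow_zero]

/-- The dihedral representation. -/
noncomputable def psi (hR : RightAngled M) {i j : B} (hij : i ≠ j) (h : M i j = 0) :
    W →* Equiv.Perm ℤ := cs.lift ⟨dih i j, dih_liftable hR hij h⟩

lemma psi_simple (hR : RightAngled M) {i j : B} (hij : i ≠ j) (h : M i j = 0) (a : B) :
    psi cs hR hij h (cs.simple a) = dih i j a := cs.lift_apply_simple (dih_liftable hR hij h) a

lemma dih_abs (i j a : B) (n : ℤ) : |dih i j a n| ≤ |n| + 1 := by
  classical
  unfold dih
  split_ifs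
  · rw [r0_apply]
    have := abs_sub (-1 : ℤ) n
    simp at this; linarith
  · rw [r1_apply]
    have := abs_sub (1 : ℤ) n
    simp at this; linarith
  · simp

lemma psi_abs_le (hR : RightAngled M) {i j : B} (hij : i ≠ j) (h : M i j = 0) (ω : List B) :
    |psi cs hR hij h (cs.wordProd ω) 0| ≤ ω.length := by
  induction ω with
  | nil => simp
  | cons a ω ih =>
    rw [cs.wordProd_cons, map_mul, psi_simple, Equiv.Perm.mul_apply]
    have := dih_abs i j a (psi cs hR hij h (cs.wordProd ω) 0)
    push_cast [List.length_cons]
    linarith

/-- Alternating products starting with `s_i`. -/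
noncomputable def alt (i j : B) : ℕ → W
  | 0 => 1
  | n + 1 => cs.simple i * alt j i n

/-- Alternating words starting with `i`. -/
def altW (i j : B) : ℕ → List B
  | 0 => []
  | n + 1 => i :: altW j i n

lemma altW_prod (i j : B) (n : ℕ) : cs.wordProd (altW i j n) = alt cs i j n := by
  induction n generalizing i j with
  | zero => simp [altW, alt]
  | succ n ih => rw [altW, alt, cs.wordProd_cons, ih]

lemma altW_length (i j : B) (n : ℕ) : (altW i j n).length = n := by
  induction n generalizing i j with
  | zero => rfl
  | succ n ih => rw [altW, List.length_cons, ih]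

lemma psi_alt (hR : RightAngled M) {i j : B} (hij : i ≠ j) (h : M i j = 0) (n : ℕ) :
    psi cs hR hij h (alt cs i j n) 0 = -(n : ℤ) ∧ psi cs hR hij h (alt cs j i n) 0 = n := by
  induction n with
  | zero => simp [alt]
  | succ n ih =>
    constructor
    · rw [alt, map_mul, psi_simple, Equiv.Perm.mul_apply, ih.2, dih_left, r0_apply]
      push_cast; ring
    · rw [alt, map_mul, psi_simple, Equiv.Perm.mul_apply, ih.1, dih_right hij, r1_apply]
      push_cast; ring

lemma alt_abs (hR : RightAngled M) {i j : B} (hij : i ≠ j) (h : M i j = 0) (n : ℕ) :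
    |psi cs hR hij h (alt cs i j n) 0| = n ∧ |psi cs hR hij h (alt cs j i n) 0| = n := by
  obtain ⟨h1, h2⟩ := psi_alt cs hR hij h n
  rw [h1, h2]
  simp

lemma mem_closure_alt (i j : B) {g : W}
    (hg : g ∈ Subgroup.closure ({cs.simple i, cs.simple j} : Set W)) :
    ∃ n, g = alt cs i j n ∨ g = alt cs j i n := by
  have step : ∀ a ∈ ({cs.simple i, cs.simple j} : Set W), ∀ y : W,
      (∃ n, y = alt cs i j n ∨ y = alt cs j i n) →
      ∃ n, a * y = alt cs i j n ∨ a * y = alt cs j i n := by
    rintro a (rfl | rfl) y ⟨n, rfl | rfl⟩
    · rcases n with _ | n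
      · exact ⟨1, Or.inl rfl⟩
      · refine ⟨n, Or.inr ?_⟩
        rw [alt, cs.simple_mul_simple_cancel_left]
    · exact ⟨n + 1, Or.inl rfl⟩
    · exact ⟨n + 1, Or.inr rfl⟩
    · rcases n with _ | n
      · exact ⟨1, Or.inr rfl⟩
      · refine ⟨n, Or.inl ?_⟩
        rw [alt, cs.simple_mul_simple_cancel_left]
  induction hg using Subgroup.closure_induction_left with
  | one => exact ⟨0, Or.inl rfl⟩
  | mul_left x hx y hy ih => exact step x hx y ih
  | inv_mul_cancel x hx y hy ih =>
    have : x⁻¹ = x := by
      rcases hx with rfl | rfl <;> exact cs.inv_simple _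
    rw [this]
    exact step x hx y ih

/-- In a right-angled system non-commuting generators are not both left descents. -/
lemma not_both_descents (hR : RightAngled M) {i j : B} (hij : i ≠ j) (h : M i j = 0) (z : W)
    (hi : cs.length (cs.simple i * z) < cs.length z)
    (hj : cs.length (cs.simple j * z) < cs.length z) : False := by
  set G := Subgroup.closure ({cs.simple i, cs.simple j} : Set W) with hG
  have hiG : cs.simple i ∈ G := Subgroup.subset_closure (by simp)
  have hjG : cs.simple j ∈ G := Subgroup.subset_closure (by simp)
  -- minimal element of the coset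
  obtain ⟨g, hg, hmin⟩ : ∃ g ∈ G, ∀ g' ∈ G, cs.length (g * z) ≤ cs.length (g' * z) := by
    have hne : (Set.image (fun g => cs.length (g * z)) (G : Set W)).Nonempty :=
      ⟨_, 1, G.one_mem, rfl⟩
    obtain ⟨g, hg, hgz⟩ := Nat.sInf_mem hne
    refine ⟨g, hg, fun g' hg' => ?_⟩
    have : cs.length (g * z) = sInf (Set.image (fun g => cs.length (g * z)) (G : Set W)) := hgz
    rw [this]
    exact Nat.sInf_le ⟨g', hg', rfl⟩
  set b := g * z with hb
  have hbmin : ∀ g' ∈ G, cs.length b ≤ cs.length (g' * b) := by
    intro g' hg'
    rw [hb, ← mul_assoc]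
    exact hmin _ (G.mul_mem hg' hg)
  -- lengths of alternating translates
  obtain ⟨ω, hω, hωb⟩ := cs.exists_isReduced b
  have hωl : cs.length b = ω.length := by rw [hωb]; exact hω
  have altG : ∀ n, alt cs i j n ∈ G ∧ alt cs j i n ∈ G := by
    intro n
    induction n with
    | zero => exact ⟨G.one_mem, G.one_mem⟩
    | succ n ih => exact ⟨G.mul_mem hiG ih.2, G.mul_mem hjG ih.1⟩
  have stepLemma : ∀ (n : ℕ) (a a' : B), cs.simple a ∈ G → alt cs a' a n ∈ G →
      |psi cs hR hij h (alt cs a a' (n + 1)) 0| = (n + 1 : ℕ) →
      cs.length (alt cs a' a n * b) = n + cs.length b →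
      cs.length (alt cs a a' (n + 1) * b) = n + 1 + cs.length b := by
    intro n a a' haG haltG habs hl
    have e1 : alt cs a a' (n + 1) * b = cs.simple a * (alt cs a' a n * b) := by
      rw [alt, mul_assoc]
    rcases cs.length_simple_mul (alt cs a' a n * b) a with h1 | h1
    · rw [e1, h1, hl]; ring
    · exfalso
      have e2 : alt cs a' a n * b = cs.wordProd (altW a' a n ++ ω) := by
        rw [cs.wordProd_append, altW_prod, ← hωb]
      have h2 : cs.length (cs.simple a * cs.wordProd (altW a' a n ++ ω)) <
          cs.length (cs.wordProd (altW a' a n ++ ω)) := by rw [← e2]; omega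
      obtain ⟨k, hk, h3⟩ := strong_exchange_left cs (cs.isReflection_simple a) h2
      by_cases hkn : k < (altW a' a n).length
      · rw [List.eraseIdx_append_of_lt_length hkn, cs.wordProd_append, cs.wordProd_append,
          ← mul_assoc] at h3
        have h4 := mul_right_cancel h3
        rw [altW_prod] at h4
        have h5 : alt cs a a' (n + 1) = cs.wordProd ((altW a' a n).eraseIdx k) := by
          rw [alt]; exact h4
        rw [h5] at habs
        have h6 := psi_abs_le cs hR hij h ((altW a' a n).eraseIdx k)
        rw [habs] at h6
        have h7 := List.length_eraseIdx_add_one hkn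
        rw [altW_length] at h7
        have h8 : n + 1 ≤ ((altW a' a n).eraseIdx k).length := by exact_mod_cast h6
        omega
      · push Not at hkn
        rw [List.eraseIdx_append_of_length_le hkn, cs.wordProd_append, cs.wordProd_append,
          altW_prod] at h3
        have hk' : k - (altW a' a n).length < ω.length := by
          rw [List.length_append] at hk; omega
        have h4 : (alt cs a' a n)⁻¹ * cs.simple a * alt cs a' a n * b =
            cs.wordProd (ω.eraseIdx (k - (altW a' a n).length)) := by
          rw [← hωb] at h3
          calc (alt cs a' a n)⁻¹ * cs.simple a * alt cs a' a n * b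
              = (alt cs a' a n)⁻¹ * (cs.simple a * (alt cs a' a n * b)) := by
                simp only [mul_assoc]
            _ = _ := by rw [h3, inv_mul_cancel_left]
        have h5 := hbmin ((alt cs a' a n)⁻¹ * cs.simple a * alt cs a' a n)
          (G.mul_mem (G.mul_mem (G.inv_mem haltG) haG) haltG)
        rw [h4] at h5
        have h6 := cs.length_wordProd_le (ω.eraseIdx (k - (altW a' a n).length))
        have h7 := List.length_eraseIdx_add_one hk'
        omega
  have altlen : ∀ n, cs.length (alt cs i j n * b) = n + cs.length b ∧
      cs.length (alt cs j i n * b) = n + cs.length b := by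
    intro n
    induction n with
    | zero => simp [alt]
    | succ n ih =>
      exact ⟨stepLemma n i j hiG (altG n).2 (alt_abs cs hR hij h (n + 1)).1 ih.2,
        stepLemma n j i hjG (altG n).1 (alt_abs cs hR hij h (n + 1)).2 ih.1⟩
  have hz : z = g⁻¹ * b := by rw [hb, inv_mul_cancel_left]
  obtain ⟨n, hn⟩ := mem_closure_alt cs i j (G.inv_mem hg)
  rcases hn with hn | hn
  · rw [hn] at hz
    have h1 := (altlen (n + 1)).2
    rw [alt, mul_assoc, ← hz] at h1
    have h2 := (altlen n).1
    rw [← hz] at h2
    omega
  · rw [hn] at hz
    have h1 := (altlen (n + 1)).1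
    rw [alt, mul_assoc, ← hz] at h1
    have h2 := (altlen n).2
    rw [← hz] at h2
    omega

open scoped Classical in
/-- The sign character counting the letter `i`. -/
noncomputable def sgnFun (i : B) (a : B) : ℤˣ := if a = i then -1 else 1

lemma sgn_liftable (hR : RightAngled M) (i : B) : M.IsLiftable (sgnFun i) := by
  classical
  intro a b
  by_cases hab : a = b
  · subst hab
    rw [M.diagonal, pow_one]
    unfold sgnFun
    split_ifs <;> simp
  · rcases hR a b hab with h | h
    · rw [h]
      unfold sgnFun
      split_ifs <;> simp
    · rw [h, pow_zero]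

/-- The sign character counting the letter `i`, as a homomorphism. -/
noncomputable def sgn (hR : RightAngled M) (i : B) : W →* ℤˣ := cs.lift ⟨sgnFun i, sgn_liftable hR i⟩

lemma sgn_simple (hR : RightAngled M) (i a : B) : sgn cs hR i (cs.simple a) = sgnFun i a :=
  cs.lift_apply_simple (sgn_liftable hR i) a

lemma simple_inj (hR : RightAngled M) {i j : B} (h : cs.simple i = cs.simple j) : i = j := by
  classical
  have h1 := congrArg (sgn cs hR i) h
  rw [sgn_simple, sgn_simple] at h1
  unfold sgnFun at h1
  rw [if_pos rfl] at h1
  by_contra hne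
  rw [if_neg (Ne.symm hne)] at h1
  exact absurd h1 (by decide)

/-- Two distinct left descents. -/
lemma two_descents (hR : RightAngled M) {i j : B} (hij : i ≠ j) {z : W}
    (hi : cs.length (cs.simple i * z) < cs.length z)
    (hj : cs.length (cs.simple j * z) < cs.length z) :
    cs.length (cs.simple i * (cs.simple j * z)) + 2 = cs.length z := by
  obtain ⟨ω, hω, hωz⟩ := cs.exists_isReduced (cs.simple i * z)
  have hl : cs.length (cs.simple i * z) = ω.length := by rw [hωz]; exact hω
  have hz : z = cs.wordProd (i :: ω) := by
    rw [cs.wordProd_cons, ← hωz, cs.simple_mul_simple_cancel_left]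
  have h1 : cs.length (cs.simple j * cs.wordProd (i :: ω)) < cs.length (cs.wordProd (i :: ω)) := by
    rw [← hz]; exact hj
  obtain ⟨k, hk, h2⟩ := strong_exchange_left cs (cs.isReflection_simple j) h1
  have h3 := cs.length_simple_mul z i
  have h4 := cs.length_simple_mul z j
  have h5 := cs.length_simple_mul (cs.simple j * z) i
  rcases k with _ | k
  · exfalso
    rw [List.eraseIdx_cons_zero, ← hωz, ← hz] at h2
    have h6 := mul_right_cancel h2
    exact hij (simple_inj cs hR h6.symm)
  · rw [List.eraseIdx_cons_succ, ← hz, cs.wordProd_cons] at h2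
    rw [h2, cs.simple_mul_simple_cancel_left]
    have hk' : k < ω.length := by simpa using hk
    have h6 := cs.length_wordProd_le (ω.eraseIdx k)
    have h7 := List.length_eraseIdx_add_one hk'
    rw [h2, cs.simple_mul_simple_cancel_left] at h5
    rw [h2] at h4
    omega

lemma commute_of_descents (hR : RightAngled M) {i j : B} (hij : i ≠ j) {z : W}
    (hi : cs.length (cs.simple i * z) < cs.length z)
    (hj : cs.length (cs.simple j * z) < cs.length z) : M i j = 2 := by
  rcases hR i j hij with h | h
  · exact h
  · exact absurd (not_both_descents cs hR hij h z hi hj) id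

lemma comm_simple {i j : B} (h : M i j = 2) :
    cs.simple i * cs.simple j = cs.simple j * cs.simple i := by
  have h1 := cs.simple_mul_simple_pow i j
  rw [h, pow_two] at h1
  calc cs.simple i * cs.simple j
      = cs.simple j * (cs.simple j * (cs.simple i * cs.simple j)) := by
        rw [cs.simple_mul_simple_cancel_left]
    _ = cs.simple j * cs.simple i *
        (cs.simple i * (cs.simple j * (cs.simple i * cs.simple j))) := by
        simp only [mul_assoc, cs.simple_mul_simple_cancel_left]
    _ = cs.simple j * cs.simple i := by
        rw [← mul_assoc (cs.simple i) (cs.simple j), h1, mul_one]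

/-- The key lemma for right-angled systems: a descent of `U.Y` that is not a descent of `U`
commutes with `U` and is a descent of `Y`. -/
lemma key_comm (hR : RightAngled M) {t : B} : ∀ (n : ℕ) (U Y : W), cs.length U = n →
    cs.length (U * Y) = cs.length U + cs.length Y →
    cs.length U < cs.length (cs.simple t * U) →
    cs.length (cs.simple t * (U * Y)) < cs.length (U * Y) →
    cs.simple t * U = U * cs.simple t ∧ cs.length (cs.simple t * Y) < cs.length Y := by
  intro n
  induction n with
  | zero =>
    intro U Y hU _ _ h3
    have hU1 := cs.length_eq_zero_iff.mp hU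
    subst hU1
    rw [one_mul] at h3
    exact ⟨by simp, h3⟩
  | succ n ih =>
    intro U Y hU h1 h2 h3
    obtain ⟨u, hu⟩ := cs.exists_leftDescent_of_ne_one (w := U) (by rintro rfl; simp at hU)
    have hu' := cs.isLeftDescent_iff.mp hu
    have htu : t ≠ u := by rintro rfl; omega
    have e1 : cs.simple u * (U * Y) = (cs.simple u * U) * Y := by rw [mul_assoc]
    have hle1 := cs.length_mul_le (cs.simple u * U) Y
    have hu2 := cs.length_simple_mul (U * Y) u
    rw [e1] at hu2
    have h4 : cs.length (cs.simple u * (U * Y)) < cs.length (U * Y) := by rw [e1]; omega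
    have hM := commute_of_descents cs hR htu h3 h4
    have h5 := two_descents cs hR htu h3 h4
    rw [e1] at h5
    have hcomm := comm_simple cs hM
    have ht' := cs.length_simple_mul (cs.simple u * U) t
    have hadd : cs.length (cs.simple t * U) ≤ cs.length (cs.simple t * (cs.simple u * U)) + 1 := by
      have e2 : cs.simple t * U = cs.simple u * (cs.simple t * (cs.simple u * U)) := by
        calc cs.simple t * U = cs.simple t * (cs.simple u * (cs.simple u * U)) := by
              rw [cs.simple_mul_simple_cancel_left]
          _ = cs.simple t * cs.simple u * (cs.simple u * U) := by simp only [mul_assoc]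
          _ = cs.simple u * cs.simple t * (cs.simple u * U) := by rw [hcomm]
          _ = _ := by simp only [mul_assoc]
      rw [e2]
      rcases cs.length_simple_mul (cs.simple t * (cs.simple u * U)) u with h | h <;> omega
    obtain ⟨h6, h7⟩ := ih (cs.simple u * U) Y (by omega) (by omega) (by omega) (by omega)
    refine ⟨?_, h7⟩
    calc cs.simple t * U = cs.simple t * (cs.simple u * (cs.simple u * U)) := by
          rw [cs.simple_mul_simple_cancel_left]
      _ = cs.simple t * cs.simple u * (cs.simple u * U) := by simp only [mul_assoc]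
      _ = cs.simple u * cs.simple t * (cs.simple u * U) := by rw [hcomm]
      _ = cs.simple u * (cs.simple t * (cs.simple u * U)) := by simp only [mul_assoc]
      _ = cs.simple u * (cs.simple u * U * cs.simple t) := by rw [h6]
      _ = U * cs.simple t := by simp only [mul_assoc, cs.simple_mul_simple_cancel_left]

/-- In a right-angled system without commuting triples, a set of left descents has at most two
elements. -/
lemma card_descents_le (hR : RightAngled M) (hT : NoTriple M) (z : W) (C : Finset B)
    (hC : ∀ c ∈ C, cs.length (cs.simple c * z) < cs.length z) : C.card ≤ 2 := by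
  by_contra h
  push Not at h
  obtain ⟨a, ha, b, hb, c, hc, hab, hac, hbc⟩ := Finset.two_lt_card.mp h
  exact hT a b c hab hbc hac (commute_of_descents cs hR hab (hC a ha) (hC b hb))
    (commute_of_descents cs hR hbc (hC b hb) (hC c hc))
    (commute_of_descents cs hR hac (hC a ha) (hC c hc))

end Pool.Agent.H7.KL
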