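import Mathlib
import Pool.Agent.H7.KL.Racg
import Pool.Agent.H7.KL.KLExist2

/-! The bound `a(z) ≤ 2` in right-angled systems without commuting triples. -/

set_option autoImplicit false

namespace Pool.Agent.H7.KL

open CoxeterSystem

/-- All exponents are at least `-n`. -/
def LB (n : ℤ) (a : A) : Prop := ∀ k : ℤ, a.coeff k ≠ 0 → -n ≤ k

lemma LB.zero (n : ℤ) : LB n 0 := fun _ h => absurd rfl h

lemma LB.add {n : ℤ} {a b : A} (ha : LB n a) (hb : LB n b) : LB n (a + b) := by
  intro k h
  by_contra hk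
  have h1 : a.coeff k = 0 := by by_contra h1; exact hk (ha k h1)
  have h2 : b.coeff k = 0 := by by_contra h2; exact hk (hb k h2)
  apply h
  rw [AddMonoidAlgebra.coeff_add, Finsupp.add_apply, h1, h2, add_zero]

lemma LB.neg {n : ℤ} {a : A} (ha : LB n a) : LB n (-a) := by
  intro k h
  apply ha k
  intro h1
  apply h
  rw [AddMonoidAlgebra.coeff_neg, Finsupp.neg_apply, h1, neg_zero]

lemma LB.sub {n : ℤ} {a b : A} (ha : LB n a) (hb : LB n b) : LB n (a - b) := by
  rw [sub_eq_add_neg]; exact ha.add hb.neg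

lemma LB.mul {m n : ℤ} {a b : A} (ha : LB m a) (hb : LB n b) : LB (m + n) (a * b) := by
  intro k h
  obtain ⟨i, j, hij, hi, hj⟩ := coeff_mul_ne h
  have := ha i hi
  have := hb j hj
  omega

lemma LB.mono {m n : ℤ} {a : A} (ha : LB m a) (h : m ≤ n) : LB n a := by
  intro k hk
  have := ha k hk
  omega

lemma LB_T (n : ℤ) : LB (-n) (LaurentPolynomial.T n) := by
  intro k h
  rw [LaurentPolynomial.T_apply] at h
  have : n = k := by by_contra hne; rw [if_neg hne] at h; exact h rfl
  omega

lemma LB_one : LB 0 1 := by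
  rw [← LaurentPolynomial.T_zero]; exact LB_T 0

lemma Pos.lb {a : A} (h : Pos a) : LB 0 a := by
  intro k hk
  have := h k hk
  omega

lemma LB_sum {ι : Type} (n : ℤ) (s : Finset ι) (f : ι → A) (h : ∀ i ∈ s, LB n (f i)) :
    LB n (∑ i ∈ s, f i) := by
  classical
  induction s using Finset.induction_on with
  | empty => rw [Finset.sum_empty]; exact LB.zero _
  | insert a s ha ih =>
    rw [Finset.sum_insert ha]
    exact (h a (Finset.mem_insert_self _ _)).add
      (ih (fun i hi => h i (Finset.mem_insert_of_mem hi)))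

section

variable {B : Type} {M : CoxeterMatrix B} {W : Type} [Group W] {cs : CoxeterSystem M W}
variable {H : Type} [Ring H] [Algebra A H] (𝓗 : HeckeAlgebra cs H)

/-- All normalised coefficients have exponents at least `-n`. -/
def LBd (n : ℤ) (x : H) : Prop := ∀ y, LB n (tc 𝓗 x y)

lemma Tt_mul {x y : W} (h : cs.length (x * y) = cs.length x + cs.length y) :
    Tt 𝓗 x * Tt 𝓗 y = Tt 𝓗 (x * y) := by
  unfold Tt
  rw [smul_mul_smul_comm, 𝓗.T_mul x y h, ← LaurentPolynomial.T_add, h]
  congr 2
  push_cast; ring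

lemma Tt_simple (i : B) : Tt 𝓗 (cs.simple i) =
    (LaurentPolynomial.T (-1) : A) • 𝓗.T (cs.simple i) := by
  unfold Tt
  rw [cs.length_simple]
  rfl

lemma simple_Tt_up {i : B} {w : W} (h : cs.length w < cs.length (cs.simple i * w)) :
    Tt 𝓗 (cs.simple i) * Tt 𝓗 w = Tt 𝓗 (cs.simple i * w) := by
  rw [Tt_simple, simple_mul_Tt_up 𝓗 h]

lemma simple_Tt_down {i : B} {w : W} (h : cs.length (cs.simple i * w) < cs.length w) :
    Tt 𝓗 (cs.simple i) * Tt 𝓗 w = Tt 𝓗 (cs.simple i * w) +
        ((LaurentPolynomial.T 1 : A) - LaurentPolynomial.T (-1)) • Tt 𝓗 w := by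
  rw [Tt_simple, simple_mul_Tt_down 𝓗 h]

/-- The main degree bound. -/
lemma main_bound (hR : RightAngled M) (hT : NoTriple M) : ∀ (n : ℕ) (x U Y : W) (C : Finset B),
    cs.length x = n →
    cs.length (x * U) = cs.length x + cs.length U →
    cs.length (U * Y) = cs.length U + cs.length Y →
    (∀ c ∈ C, cs.length (cs.simple c * Y) < cs.length Y) →
    (∀ c ∈ C, cs.length (x * U * cs.simple c) = cs.length (x * U) + 1) →
    LBd 𝓗 (2 - C.card) (Tt 𝓗 x * Tt 𝓗 (U * Y)) := by
  classical
  intro n
  induction n with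
  | zero =>
    intro x U Y C hx _ _ hC _
    have hx1 := cs.length_eq_zero_iff.mp hx
    subst hx1
    have h1 : Tt 𝓗 (1 : W) = 1 := by
      unfold Tt; rw [cs.length_one, 𝓗.T_one]; simp
    rw [h1, one_mul]
    intro y
    rw [tc_Tt]
    have hcard := card_descents_le cs hR hT Y C hC
    split_ifs
    · exact LB_one.mono (by omega)
    · exact LB.zero _
  | succ n ih =>
    intro x U Y C hx h1 h2 h3 h4
    obtain ⟨t, ht⟩ := cs.exists_rightDescent_of_ne_one (w := x) (by rintro rfl; simp at hx)
    have ht' := cs.isRightDescent_iff.mp ht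
    obtain ⟨x', rfl⟩ : ∃ x', x = x' * cs.simple t :=
      ⟨x * cs.simple t, by rw [cs.simple_mul_simple_cancel_right]⟩
    rw [cs.simple_mul_simple_cancel_right] at ht'
    have hTx : Tt 𝓗 (x' * cs.simple t) = Tt 𝓗 x' * Tt 𝓗 (cs.simple t) := by
      rw [Tt_mul]; rw [cs.length_simple]; omega
    have eU : x' * cs.simple t * U = x' * (cs.simple t * U) := by rw [mul_assoc]
    have hle := cs.length_mul_le x' (cs.simple t * U)
    have htU := cs.length_simple_mul U t
    have hUup : cs.length (cs.simple t * U) = cs.length U + 1 := by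
      rw [eU] at h1; omega
    rw [hTx, mul_assoc]
    rcases cs.length_simple_mul (U * Y) t with hup | hdown
    · -- `t` is not a descent
      rw [simple_Tt_up 𝓗 (by omega)]
      have e2 : cs.simple t * (U * Y) = (cs.simple t * U) * Y := by rw [mul_assoc]
      rw [e2] at hup ⊢
      refine ih x' (cs.simple t * U) Y C (by omega) (by rw [← eU]; omega) (by omega) h3 ?_
      intro c hc
      have := h4 c hc
      rw [eU] at this
      exact this
    · -- `t` is a descent
      obtain ⟨k1, k2⟩ := key_comm cs hR _ U Y rfl h2 (by omega) (by omega : cs.length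
        (cs.simple t * (U * Y)) < cs.length (U * Y))
      have eU' : x' * cs.simple t * U = x' * U * cs.simple t := by
        rw [mul_assoc, k1, ← mul_assoc]
      have hx'U_le := cs.length_mul_le x' U
      have hx'U := cs.length_mul_simple (x' * U) t
      rw [← eU'] at hx'U
      have hx'U2 : cs.length (x' * U) = cs.length x' + cs.length U := by omega
      have htC : t ∉ C := by
        intro htC
        have := h4 t htC
        rw [eU', cs.simple_mul_simple_cancel_right] at this
        rw [← eU'] at this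
        omega
      have hC' : ∀ c ∈ C, M c t = 2 := by
        intro c hc
        have hne : c ≠ t := by rintro rfl; exact htC hc
        exact commute_of_descents cs hR hne (h3 c hc) k2
      have h4' : ∀ c ∈ C, cs.length (x' * U * cs.simple c) = cs.length (x' * U) + 1 := by
        intro c hc
        have h5 := h4 c hc
        have hcomm := comm_simple cs (hC' c hc)
        have e3 : x' * cs.simple t * U * cs.simple c = x' * U * cs.simple c * cs.simple t := by
          rw [eU', mul_assoc (x' * U), ← hcomm, ← mul_assoc]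
        rw [e3] at h5
        have h6 := cs.length_mul_simple (x' * U * cs.simple c) t
        have h7 := cs.length_mul_simple (x' * U) c
        omega
      rw [simple_Tt_down 𝓗 (by omega), mul_add, mul_smul_comm]
      have e2 : cs.simple t * (U * Y) = U * (cs.simple t * Y) := by
        rw [← mul_assoc, k1, mul_assoc]
      have htY := cs.length_simple_mul Y t
      have b1 : LBd 𝓗 (2 - C.card) (Tt 𝓗 x' * Tt 𝓗 (cs.simple t * (U * Y))) := by
        rw [e2] at hdown ⊢
        refine ih x' U (cs.simple t * Y) C (by omega) hx'U2 (by omega) ?_ h4'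
        intro c hc
        have hne : c ≠ t := by rintro rfl; exact htC hc
        have := two_descents cs hR hne (h3 c hc) k2
        omega
      have b2 : LBd 𝓗 (2 - (insert t C).card) (Tt 𝓗 x' * Tt 𝓗 (U * Y)) := by
        refine ih x' U Y (insert t C) (by omega) hx'U2 h2 ?_ ?_
        · intro c hc
          rcases Finset.mem_insert.mp hc with rfl | hc
          · exact k2
          · exact h3 c hc
        · intro c hc
          rcases Finset.mem_insert.mp hc with rfl | hc
          · rw [← eU']; omega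
          · exact h4' c hc
      rw [Finset.card_insert_of_notMem htC] at b2
      intro y
      rw [tc_add, tc_smul]
      apply (b1 y).add
      have h8 : LB 1 ((LaurentPolynomial.T 1 : A) - LaurentPolynomial.T (-1)) :=
        ((LB_T 1).mono (by norm_num)).sub (LB_T (-1))
      exact (h8.mul (b2 y)).mono (by push_cast; linarith)

lemma Tt_mul_bound (hR : RightAngled M) (hT : NoTriple M) (x y : W) :
    LBd 𝓗 2 (Tt 𝓗 x * Tt 𝓗 y) := by
  have := main_bound 𝓗 hR hT _ x 1 y ∅ rfl (by simp) (by simp) (by simp) (by simp)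
  simpa using this

lemma sum_repr (x : H) : x = ∑ w ∈ (𝓗.T.repr x).support, tc 𝓗 x w • Tt 𝓗 w := by
  conv_lhs => rw [← 𝓗.T.linearCombination_repr x]
  rw [Finsupp.linearCombination_apply, Finsupp.sum]
  apply Finset.sum_congr rfl
  intro w _
  unfold tc Tt
  rw [smul_smul, mul_right_comm, T_mul_T_neg, one_mul]

/-- Products of elements with nonnegative exponents. -/
lemma mul_bound (hR : RightAngled M) (hT : NoTriple M) {x y : H} (hx : LBd 𝓗 0 x)
    (hy : LBd 𝓗 0 y) : LBd 𝓗 2 (x * y) := by
  intro z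
  rw [sum_repr 𝓗 x, sum_repr 𝓗 y, Finset.sum_mul_sum, tc_sum]
  apply LB_sum
  intro w _
  rw [tc_sum]
  apply LB_sum
  intro u _
  rw [smul_mul_smul_comm, tc_smul]
  exact (((hx w).mul (hy u)).mul (Tt_mul_bound 𝓗 hR hT w u z)).mono (by norm_num)

/-! ### The given Kazhdan-Lusztig basis -/

variable {𝓗} (K : KLBasis cs 𝓗)

lemma tc_C (y w : W) : tc 𝓗 (K.C w) y = (-1) ^ (cs.length w + cs.length y) *
    (LaurentPolynomial.T ((cs.length w : ℤ) - cs.length y) *
      Polynomial.aeval (LaurentPolynomial.T (-2) : A) (K.P y w)) := by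
  unfold tc
  rw [K.C_coeff, mul_assoc, mul_left_comm, ← mul_assoc (LaurentPolynomial.T _),
    ← LaurentPolynomial.T_add]
  congr 3
  ring

lemma coeff_aeval (P : Polynomial ℤ) (k : ℤ)
    (h : (Polynomial.aeval (LaurentPolynomial.T (-2) : A) P).coeff k ≠ 0) :
    -(2 * (P.natDegree : ℤ)) ≤ k := by
  rw [Polynomial.aeval_eq_sum_range] at h
  by_contra hk
  apply h
  rw [AddMonoidAlgebra.coeff_sum, Finsupp.finsetSum_apply]
  apply Finset.sum_eq_zero
  intro i hi
  rw [Finset.mem_range] at hi
  rw [LaurentPolynomial.T_pow, AddMonoidAlgebra.coeff_smul, Finsupp.smul_apply,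
    LaurentPolynomial.T_apply, if_neg (by omega), smul_zero]

lemma coeff_aeval_eq (P : Polynomial ℤ) (k : ℕ) :
    (Polynomial.aeval (LaurentPolynomial.T (-2) : A) P).coeff (-(2 * (k : ℤ))) = P.coeff k := by
  rw [Polynomial.aeval_eq_sum_range, AddMonoidAlgebra.coeff_sum, Finsupp.finsetSum_apply]
  have h1 : ∀ i ∈ Finset.range (P.natDegree + 1),
      (P.coeff i • (LaurentPolynomial.T (-2) : A) ^ i).coeff (-(2 * (k : ℤ))) =
      if i = k then P.coeff i else 0 := by
    intro i _
    rw [LaurentPolynomial.T_pow, AddMonoidAlgebra.coeff_smul, Finsupp.smul_apply,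
      LaurentPolynomial.T_apply]
    by_cases h : i = k
    · subst h
      rw [if_pos (by ring), if_pos rfl, smul_eq_mul, mul_one]
    · rw [if_neg (by omega), if_neg h, smul_zero]
  rw [Finset.sum_congr rfl h1, Finset.sum_ite_eq']
  split_ifs with h
  · rfl
  · symm
    apply Polynomial.coeff_eq_zero_of_natDegree_lt
    simpa using h

lemma coeff_neg_pow (n : ℕ) (a : A) (k : ℤ) (h : ((-1) ^ n * a).coeff k ≠ 0) :
    a.coeff k ≠ 0 := by
  intro h0
  apply h
  rcases Nat.even_or_odd n with he | ho
  · rw [he.neg_one_pow, one_mul]; exact h0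
  · rw [ho.neg_one_pow, neg_one_mul, AddMonoidAlgebra.coeff_neg, Finsupp.neg_apply, h0,
      neg_zero]

lemma tc_C_self (w : W) : tc 𝓗 (K.C w) w = 1 := by
  rw [tc_C, K.P_self, Even.neg_one_pow ⟨_, rfl⟩, one_mul, sub_self, map_one,
    LaurentPolynomial.T_zero, mul_one]

lemma tc_C_pos {y w : W} (h : y ≠ w) : Pos (tc 𝓗 (K.C w) y) := by
  rw [tc_C]
  by_cases hle : BruhatLE cs y w
  · intro k hk
    have h1 := coeff_neg_pow _ _ k hk
    obtain ⟨i, j, hij, hi, hj⟩ := coeff_mul_ne h1
    rw [LaurentPolynomial.T_apply] at hi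
    have hi' : ((cs.length w : ℤ) - cs.length y) = i := by
      by_contra hne; rw [if_neg hne] at hi; exact hi rfl
    have h2 := coeff_aeval _ j hj
    have h3 := K.P_deg y w hle h
    have h4 := bruhat_length_lt cs hle h
    omega
  · rw [K.P_zero y w hle, map_zero, mul_zero, mul_zero]
    exact Pos.zero

lemma tc_C_lb (w : W) : LBd 𝓗 0 (K.C w) := by
  intro y
  by_cases h : y = w
  · subst h; rw [tc_C_self]; exact LB_one
  · exact (tc_C_pos K h).lb

lemma tc_C_ne {y w : W} (h : tc 𝓗 (K.C w) y ≠ 0) : BruhatLE cs y w := by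
  by_contra hle
  apply h
  rw [tc_C, K.P_zero y w hle, map_zero, mul_zero, mul_zero]

/-- Recognition of Kazhdan-Lusztig elements. -/
lemma C_eq_of {w : W} {c : H} (h1 : 𝓗.bar c = c) (h2 : tc 𝓗 c w = 1)
    (h3 : ∀ y, y ≠ w → Pos (tc 𝓗 c y)) : K.C w = c :=
  eq_of_good_like 𝓗 (K.bar_C w) h1 (tc_C_self K w) h2 (fun _ h => tc_C_pos K h) h3

/-- The coordinates of `T̃_z` in the Kazhdan-Lusztig basis have nonnegative exponents. -/
lemma repr_Tt (z w : W) : LB 0 (K.C.repr (Tt 𝓗 z) w) := by
  classical
  have key : ∀ n : ℕ, ∀ z : W, cs.length z = n → LB 0 (K.C.repr (Tt 𝓗 z) w) := by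
    intro n
    induction n using Nat.strong_induction_on with
    | _ n ih =>
      intro z hz
      have h1 := sum_repr 𝓗 (K.C z)
      have hz' : z ∈ (𝓗.T.repr (K.C z)).support := by
        rw [Finsupp.mem_support_iff, ← tc_ne_zero_iff, tc_C_self]
        exact one_ne_zero
      rw [← Finset.add_sum_erase _ _ hz', tc_C_self, one_smul] at h1
      have h2 : Tt 𝓗 z = K.C z - ∑ y ∈ (𝓗.T.repr (K.C z)).support.erase z,
          tc 𝓗 (K.C z) y • Tt 𝓗 y := by
        rw [eq_sub_iff_add_eq]; exact h1.symm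
      rw [h2, map_sub, Finsupp.sub_apply, map_sum, Finsupp.finsetSum_apply]
      apply LB.sub
      · rw [Module.Basis.repr_self, Finsupp.single_apply]
        split_ifs
        · exact LB_one
        · exact LB.zero _
      · apply LB_sum
        intro y hy
        rw [map_smul, Finsupp.smul_apply, smul_eq_mul]
        rw [Finset.mem_erase, Finsupp.mem_support_iff, ← tc_ne_zero_iff] at hy
        have := bruhat_length_lt cs (tc_C_ne K hy.2) hy.1
        exact ((tc_C_lb K z y).mul (ih (cs.length y) (by omega) y rfl)).mono (by norm_num)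
  exact key _ z rfl

lemma repr_bound {n : ℤ} {x : H} (hx : LBd 𝓗 n x) (w : W) : LB n (K.C.repr x w) := by
  rw [sum_repr 𝓗 x, map_sum, Finsupp.finsetSum_apply]
  apply LB_sum
  intro y _
  rw [map_smul, Finsupp.smul_apply, smul_eq_mul]
  exact ((hx y).mul (repr_Tt K y w)).mono (by norm_num)

lemma repr_bar {x : H} (hx : 𝓗.bar x = x) (w : W) :
    LaurentPolynomial.invert (K.C.repr x w) = K.C.repr x w := by
  classical
  have h1 : x = ∑ y ∈ (K.C.repr x).support, K.C.repr x y • K.C y := by
    conv_lhs => rw [← K.C.linearCombination_repr x]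
    rw [Finsupp.linearCombination_apply, Finsupp.sum]
  have h2 : x = ∑ y ∈ (K.C.repr x).support,
      LaurentPolynomial.invert (K.C.repr x y) • K.C y := by
    conv_lhs => rw [← hx, h1]
    rw [map_sum]
    apply Finset.sum_congr rfl
    intro y _
    rw [bar_smul, K.bar_C]
  have h3 := congrArg (fun u => K.C.repr u w) h2
  simp only [map_sum, map_smul, Finsupp.finsetSum_apply, Finsupp.smul_apply,
    Module.Basis.repr_self, Finsupp.single_apply, smul_eq_mul, mul_ite, mul_one, mul_zero] at h3
  rw [Finset.sum_ite_eq'] at h3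
  by_cases h : w ∈ (K.C.repr x).support
  · rw [if_pos h] at h3
    exact h3.symm
  · rw [if_neg h] at h3
    rw [h3, map_zero]

lemma h_bound (hR : RightAngled M) (hT : NoTriple M) (x y z : W) (k : ℤ)
    (hk : (K.h x y z).coeff k ≠ 0) : k ≤ 2 := by
  unfold KLBasis.h at hk
  have h1 := repr_bound K (mul_bound 𝓗 hR hT (tc_C_lb K x) (tc_C_lb K y)) z
  have h2 := repr_bar K (x := K.C x * K.C y) (by rw [map_mul, K.bar_C, K.bar_C]) z
  rw [← h2, LaurentPolynomial.invert_apply] at hk
  have := h1 _ hk
  omega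

lemma a_le_two (hR : RightAngled M) (hT : NoTriple M) (z : W) : K.a z ≤ 2 := by
  unfold KLBasis.a
  exact iInf₂_le 2 (fun x y k hk => by
    have := h_bound K hR hT x y z k hk
    exact_mod_cast this)

lemma two_le_a {x y z : W} (h : (K.h x y z).coeff 2 ≠ 0) : 2 ≤ K.a z := by
  unfold KLBasis.a
  refine le_iInf₂ (fun n hn => ?_)
  have := hn x y 2 h
  have h2 : 2 ≤ n := by exact_mod_cast this
  exact_mod_cast h2

end

end Pool.Agent.H7.KL
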