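import Mathlib
import Pool.Agent.H7.KL.Bound

/-! The counterexample in right-angled systems. -/

set_option autoImplicit false

namespace Pool.Agent.H7.KL

open CoxeterSystem

section

variable {B : Type} {M : CoxeterMatrix B} {W : Type} [Group W] {cs : CoxeterSystem M W}
variable {H : Type} [Ring H] [Algebra A H] (𝓗 : HeckeAlgebra cs H)

/-- The element `C_s = T̃_s - v`. -/
noncomputable def ce (i : B) : H := Tt 𝓗 (cs.simple i) - (LaurentPolynomial.T 1 : A) • (1 : H)

lemma Tt_one : Tt 𝓗 (1 : W) = 1 := by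
  unfold Tt; rw [cs.length_one, 𝓗.T_one]; simp

lemma bar_ce (i : B) : 𝓗.bar (ce 𝓗 i) = ce 𝓗 i := by
  unfold ce
  have h1 := bar_simple 𝓗 i 1
  rw [mul_one, ← Tt_simple] at h1
  rw [map_sub, h1, bar_smul, map_one, LaurentPolynomial.invert_T]
  unfold Eb
  rw [mul_one, ← Tt_simple, sub_smul]
  abel

lemma ce_sq (i : B) : ce 𝓗 i * ce 𝓗 i =
    (-((LaurentPolynomial.T 1 : A) + LaurentPolynomial.T (-1))) • ce 𝓗 i := by
  have h1 : Tt 𝓗 (cs.simple i) * Tt 𝓗 (cs.simple i) =
      1 + ((LaurentPolynomial.T 1 : A) - LaurentPolynomial.T (-1)) • Tt 𝓗 (cs.simple i) := by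
    rw [simple_Tt_down 𝓗 (by simp), cs.simple_mul_simple_self, Tt_one]
  unfold ce
  rw [sub_mul, mul_sub, mul_sub, h1]
  simp only [smul_mul_assoc, mul_smul_comm, mul_one, one_mul, smul_smul]
  rw [smul_sub, smul_smul]
  have e1 : (-((LaurentPolynomial.T 1 : A) + LaurentPolynomial.T (-1))) * LaurentPolynomial.T 1 =
      -(LaurentPolynomial.T 1 * LaurentPolynomial.T 1 : A) - 1 := by
    rw [neg_mul, add_mul, T_neg_mul_T]; ring
  rw [e1]
  simp only [sub_smul, neg_smul, add_smul, one_smul]
  abel

variable {𝓗} (K : KLBasis cs 𝓗)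

/-! #### Commuting pairs -/

lemma length_pair (hR : RightAngled M) {i j : B} (hij : i ≠ j) :
    cs.length (cs.simple i * cs.simple j) = 2 := by
  rcases cs.length_simple_mul (cs.simple j) i with h | h
  · rw [h, cs.length_simple]
  · exfalso
    rw [cs.length_simple] at h
    have h1 : cs.length (cs.simple i * cs.simple j) = 0 := by omega
    rw [cs.length_eq_zero_iff] at h1
    have h2 : cs.simple i = cs.simple j := by
      calc cs.simple i = cs.simple i * cs.simple j * cs.simple j := by simp [mul_assoc]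
        _ = cs.simple j := by rw [h1, one_mul]
    exact hij (simple_inj cs hR h2)

lemma Tt_pair (hR : RightAngled M) {i j : B} (hij : i ≠ j) :
    Tt 𝓗 (cs.simple i) * Tt 𝓗 (cs.simple j) = Tt 𝓗 (cs.simple i * cs.simple j) := by
  apply Tt_mul
  rw [length_pair hR hij, cs.length_simple, cs.length_simple]

lemma Pos_T {n : ℤ} (h : 0 < n) : Pos (LaurentPolynomial.T n) := by
  intro k hk
  rw [LaurentPolynomial.T_apply] at hk
  have : n = k := by by_contra hne; rw [if_neg hne] at hk; exact hk rfl
  omega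

lemma Pos.neg {a : A} (h : Pos a) : Pos (-a) := by
  intro k hk
  apply h k
  intro h1
  apply hk
  rw [AddMonoidAlgebra.coeff_neg, Finsupp.neg_apply, h1, neg_zero]

lemma Pos.sub {a b : A} (ha : Pos a) (hb : Pos b) : Pos (a - b) := by
  rw [sub_eq_add_neg]; exact ha.add hb.neg

/-- `1` or `0`. -/
lemma tc_Tt_01 (y w : W) : tc 𝓗 (Tt 𝓗 y) w = 1 ∨ tc 𝓗 (Tt 𝓗 y) w = 0 := by
  classical
  rw [tc_Tt]
  split_ifs <;> simp

lemma Pos_smul_Tt {a : A} (ha : Pos a) (y w : W) : Pos (tc 𝓗 (a • Tt 𝓗 y) w) := by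
  rw [tc_smul]
  rcases tc_Tt_01 (𝓗 := 𝓗) y w with h | h
  · rw [h, mul_one]; exact ha
  · rw [h, mul_zero]; exact Pos.zero

lemma ce_mul (i j : B) : ce 𝓗 i * ce 𝓗 j = Tt 𝓗 (cs.simple i) * Tt 𝓗 (cs.simple j) -
    (LaurentPolynomial.T 1 : A) • Tt 𝓗 (cs.simple i) -
    (LaurentPolynomial.T 1 : A) • Tt 𝓗 (cs.simple j) +
    (LaurentPolynomial.T 2 : A) • Tt 𝓗 (1 : W) := by
  unfold ce
  rw [Tt_one, sub_mul, mul_sub, mul_sub]
  simp only [smul_mul_assoc, mul_smul_comm, mul_one, one_mul, smul_smul]
  rw [← LaurentPolynomial.T_add]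
  norm_num
  abel

lemma C_pair (hR : RightAngled M) {i j : B} (hij : i ≠ j) :
    K.C (cs.simple i * cs.simple j) = ce 𝓗 i * ce 𝓗 j := by
  classical
  have hl := length_pair (cs := cs) hR hij
  apply C_eq_of
  · rw [map_mul, bar_ce, bar_ce]
  · rw [ce_mul, Tt_pair hR hij, tc_add, tc_sub, tc_sub, tc_smul, tc_smul, tc_smul, tc_self,
      tc_Tt, tc_Tt, tc_Tt, if_neg, if_neg, if_neg]
    · ring
    · intro h; rw [← h, cs.length_one] at hl; omega
    · intro h; rw [← h, cs.length_simple] at hl; omega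
    · intro h; rw [← h, cs.length_simple] at hl; omega
  · intro y hy
    rw [ce_mul, Tt_pair hR hij, tc_add, tc_sub, tc_sub]
    refine Pos.add (Pos.sub (Pos.sub ?_ ?_) ?_) ?_
    · rw [tc_Tt, if_neg (Ne.symm hy)]; exact Pos.zero
    · exact Pos_smul_Tt (Pos_T (by norm_num)) _ _
    · exact Pos_smul_Tt (Pos_T (by norm_num)) _ _
    · exact Pos_smul_Tt (Pos_T (by norm_num)) _ _

lemma ce_comm (hR : RightAngled M) {i j : B} (hij : i ≠ j) (hM : M i j = 2) :
    ce 𝓗 i * ce 𝓗 j = ce 𝓗 j * ce 𝓗 i := by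
  rw [ce_mul, ce_mul, Tt_pair hR hij, Tt_pair hR (Ne.symm hij), comm_simple cs hM]
  abel

lemma coeff_two : ((-((LaurentPolynomial.T 1 : A) + LaurentPolynomial.T (-1))) *
    (-((LaurentPolynomial.T 1 : A) + LaurentPolynomial.T (-1)))).coeff 2 ≠ 0 := by
  have : (-((LaurentPolynomial.T 1 : A) + LaurentPolynomial.T (-1))) *
    (-((LaurentPolynomial.T 1 : A) + LaurentPolynomial.T (-1))) =
    LaurentPolynomial.T 2 + LaurentPolynomial.T 0 + LaurentPolynomial.T 0 +
      LaurentPolynomial.T (-2) := by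
    rw [neg_mul_neg, add_mul, mul_add, mul_add, ← LaurentPolynomial.T_add,
      ← LaurentPolynomial.T_add, ← LaurentPolynomial.T_add, ← LaurentPolynomial.T_add]
    norm_num
    abel
  rw [this]
  simp only [AddMonoidAlgebra.coeff_add, Finsupp.add_apply, LaurentPolynomial.T_apply]
  norm_num

lemma a_pair (hR : RightAngled M) (hT : NoTriple M) {i j : B} (hij : i ≠ j) (hM : M i j = 2) :
    K.a (cs.simple i * cs.simple j) = 2 := by
  apply le_antisymm (a_le_two K hR hT _)
  have hc := ce_comm (𝓗 := 𝓗) hR hij hM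
  have h1 : K.C (cs.simple i * cs.simple j) * K.C (cs.simple i * cs.simple j) =
      ((-((LaurentPolynomial.T 1 : A) + LaurentPolynomial.T (-1))) *
        (-((LaurentPolynomial.T 1 : A) + LaurentPolynomial.T (-1)))) •
        K.C (cs.simple i * cs.simple j) := by
    rw [C_pair K hR hij]
    calc ce 𝓗 i * ce 𝓗 j * (ce 𝓗 i * ce 𝓗 j) = ce 𝓗 i * (ce 𝓗 j * ce 𝓗 i) * ce 𝓗 j := by
          simp only [mul_assoc]
      _ = ce 𝓗 i * (ce 𝓗 i * ce 𝓗 j) * ce 𝓗 j := by rw [hc]
      _ = (ce 𝓗 i * ce 𝓗 i) * (ce 𝓗 j * ce 𝓗 j) := by simp only [mul_assoc]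
      _ = _ := by rw [ce_sq, ce_sq, smul_mul_smul_comm]
  apply two_le_a K (x := cs.simple i * cs.simple j) (y := cs.simple i * cs.simple j)
  unfold KLBasis.h
  rw [h1, map_smul, Finsupp.smul_apply, Module.Basis.repr_self, Finsupp.single_eq_same,
    smul_eq_mul, mul_one]
  exact coeff_two

lemma natDegree_pair (hR : RightAngled M) {i j : B} (hij : i ≠ j) :
    (K.P 1 (cs.simple i * cs.simple j)).natDegree = 0 := by
  classical
  have hl := length_pair (cs := cs) hR hij
  have hne : (1 : W) ≠ cs.simple i * cs.simple j := by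
    intro h; rw [← h, cs.length_one] at hl; omega
  have h1 := K.P_deg 1 (cs.simple i * cs.simple j) (bruhat_one cs _) hne
  rw [hl, cs.length_one] at h1
  omega

lemma distinguished_pair (hR : RightAngled M) (hT : NoTriple M) {i j : B} (hij : i ≠ j)
    (hM : M i j = 2) : K.IsDistinguished (cs.simple i * cs.simple j) := by
  unfold KLBasis.IsDistinguished
  rw [length_pair hR hij, a_pair K hR hT hij hM, natDegree_pair K hR hij]
  simp

/-! #### Finite parabolic subgroups -/

lemma closure_pair {i j : B} (h : i = j ∨ M i j = 2) {g : W}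
    (hg : g ∈ Subgroup.closure ({cs.simple i, cs.simple j} : Set W)) :
    g = 1 ∨ g = cs.simple i ∨ g = cs.simple j ∨ g = cs.simple i * cs.simple j := by
  have hcomm : cs.simple i * cs.simple j = cs.simple j * cs.simple i := by
    rcases h with rfl | h
    · rfl
    · exact comm_simple cs h
  have step : ∀ a ∈ ({cs.simple i, cs.simple j} : Set W), ∀ g : W,
      (g = 1 ∨ g = cs.simple i ∨ g = cs.simple j ∨ g = cs.simple i * cs.simple j) →
      (a * g = 1 ∨ a * g = cs.simple i ∨ a * g = cs.simple j ∨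
        a * g = cs.simple i * cs.simple j) := by
    rintro a (rfl | rfl) g (rfl | rfl | rfl | rfl)
    · right; left; simp
    · left; simp
    · right; right; right; rfl
    · right; right; left; simp
    · right; right; left; simp
    · right; right; right; exact hcomm.symm
    · left; simp
    · right; left
      rw [hcomm, cs.simple_mul_simple_cancel_left]
  induction hg using Subgroup.closure_induction_left with
  | one => exact Or.inl rfl
  | mul_left x hx y hy ih => exact step x hx y ih
  | inv_mul_cancel x hx y hy ih =>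
    have : x⁻¹ = x := by
      rcases hx with rfl | rfl <;> exact cs.inv_simple _
    rw [this]
    exact step x hx y ih

lemma finite_pair {i j : B} (h : M i j = 2) :
    InFiniteParabolic cs (cs.simple i * cs.simple j) := by
  refine ⟨{i, j}, ?_, ?_⟩
  · have himg : cs.simple '' ({i, j} : Set B) = {cs.simple i, cs.simple j} := by
      rw [Set.image_pair]
    rw [himg]
    apply Set.Finite.subset (s := {1, cs.simple i, cs.simple j, cs.simple i * cs.simple j})
    · exact Set.toFinite _
    · intro g hg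
      have := closure_pair (Or.inr h) hg
      simpa using this
  · apply Subgroup.mul_mem
    · exact Subgroup.subset_closure ⟨i, by simp, rfl⟩
    · exact Subgroup.subset_closure ⟨j, by simp, rfl⟩

lemma infinite_of_noncomm (hR : RightAngled M) {i j : B} (hij : i ≠ j) (h : M i j = 0)
    (G : Subgroup W) (hi : cs.simple i ∈ G) (hj : cs.simple j ∈ G) : ¬ (G : Set W).Finite := by
  intro hfin
  have altG : ∀ n, alt cs i j n ∈ G ∧ alt cs j i n ∈ G := by
    intro n
    induction n with
    | zero => exact ⟨G.one_mem, G.one_mem⟩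
    | succ n ih => exact ⟨G.mul_mem hi ih.2, G.mul_mem hj ih.1⟩
  have hinj : Function.Injective (fun n : ℕ => alt cs i j n) := by
    intro m n hmn
    have h1 := congrArg (fun g => psi cs hR hij h g 0) hmn
    simp only [(psi_alt cs hR hij h _).1] at h1
    omega
  exact Set.infinite_of_injective_forall_mem hinj (fun n => (altG n).1) hfin

lemma length_le_two_of_finite (hR : RightAngled M) (hT : NoTriple M) {v : W}
    (hv : InFiniteParabolic cs v) : cs.length v ≤ 2 := by
  obtain ⟨I, hfin, hv⟩ := hv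
  have hclique : ∀ i ∈ I, ∀ j ∈ I, i ≠ j → M i j = 2 := by
    intro i hi j hj hij
    rcases hR i j hij with h | h
    · exact h
    · exact absurd hfin (infinite_of_noncomm hR hij h _ (Subgroup.subset_closure ⟨i, hi, rfl⟩)
        (Subgroup.subset_closure ⟨j, hj, rfl⟩))
  have hpair : ∀ i j : B, (i = j ∨ M i j = 2) → I ⊆ {i, j} → cs.length v ≤ 2 := by
    intro i j hij hI
    have h1 : v ∈ Subgroup.closure ({cs.simple i, cs.simple j} : Set W) := by
      apply Subgroup.closure_mono _ hv
      rw [← Set.image_pair]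
      exact Set.image_mono hI
    have hs := cs.length_simple
    rcases closure_pair hij h1 with rfl | rfl | rfl | rfl
    · simp
    · simp [hs]
    · simp [hs]
    · have := cs.length_mul_le (cs.simple i) (cs.simple j)
      simp only [hs] at this
      exact this
  rcases I.eq_empty_or_nonempty with rfl | ⟨i, hi⟩
  · simp at hv
    rw [hv]; simp
  · by_cases h : ∃ j ∈ I, j ≠ i
    · obtain ⟨j, hj, hne⟩ := h
      refine hpair i j (Or.inr (hclique i hi j hj (Ne.symm hne))) ?_
      intro k hk
      by_contra hcon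
      simp only [Set.mem_insert_iff, Set.mem_singleton_iff, not_or] at hcon
      exact hT i j k (Ne.symm hne) (Ne.symm hcon.2) (Ne.symm hcon.1)
        (hclique i hi j hj (Ne.symm hne)) (hclique j hj k hk (Ne.symm hcon.2))
        (hclique i hi k hk (Ne.symm hcon.1))
    · push Not at h
      exact hpair i i (Or.inl rfl) (fun k hk => by simp [h k hk])

end

end Pool.Agent.H7.KL
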