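import Mathlib
import Pool.Agent.H7.KL.Main

/-! The counterexample: four generators `a, b, c, d` with `ab`, `cd` of infinite order and all other
pairs commuting. -/

set_option autoImplicit false

namespace Pool.Agent.H7.KL

open CoxeterSystem

/-- Four generators spanning a 4-cycle in the commutation graph. -/
structure Quad {B : Type} (M : CoxeterMatrix B) (a b c d : B) : Prop where
  ab : M a b = 0
  cd : M c d = 0
  ac : M a c = 2
  ad : M a d = 2
  bc : M b c = 2
  bd : M b d = 2

section

variable {B : Type} {M : CoxeterMatrix B} {W : Type} [Group W] {cs : CoxeterSystem M W}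

lemma ne_of_M {i j : B} (h : M i j ≠ 1) : i ≠ j := by
  rintro rfl; exact h (M.diagonal i)

variable {a b c d : B}

namespace Quad

variable (q : Quad M a b c d)
include q

lemma nab : a ≠ b := ne_of_M (by rw [q.ab]; norm_num)
lemma ncd : c ≠ d := ne_of_M (by rw [q.cd]; norm_num)
lemma nac : a ≠ c := ne_of_M (by rw [q.ac]; norm_num)
lemma nad : a ≠ d := ne_of_M (by rw [q.ad]; norm_num)
lemma nbc : b ≠ c := ne_of_M (by rw [q.bc]; norm_num)
lemma nbd : b ≠ d := ne_of_M (by rw [q.bd]; norm_num)

lemma swap : Quad M c d a b where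
  ab := q.cd
  cd := q.ab
  ac := by rw [M.symmetric]; exact q.ac
  ad := by rw [M.symmetric]; exact q.bc
  bc := by rw [M.symmetric]; exact q.ad
  bd := by rw [M.symmetric]; exact q.bd

end Quad

variable (cs) (q : Quad M a b c d) (hR : RightAngled M)

/-- First dihedral representation. -/
noncomputable def ps1 : W →* Equiv.Perm ℤ := psi cs hR q.nab q.ab
/-- Second dihedral representation. -/
noncomputable def ps2 : W →* Equiv.Perm ℤ := psi cs hR q.ncd q.cd

lemma ps1_a : ps1 cs q hR (cs.simple a) = r0 := by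
  unfold ps1; rw [psi_simple, dih_left]
lemma ps1_b : ps1 cs q hR (cs.simple b) = r1 := by
  unfold ps1; rw [psi_simple, dih_right q.nab]
lemma ps1_c : ps1 cs q hR (cs.simple c) = 1 := by
  unfold ps1; rw [psi_simple, dih_other q.nac.symm q.nbc.symm]
lemma ps1_d : ps1 cs q hR (cs.simple d) = 1 := by
  unfold ps1; rw [psi_simple, dih_other q.nad.symm q.nbd.symm]
lemma ps2_a : ps2 cs q hR (cs.simple a) = 1 := by
  unfold ps2; rw [psi_simple, dih_other q.nac q.nad]
lemma ps2_b : ps2 cs q hR (cs.simple b) = 1 := by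
  unfold ps2; rw [psi_simple, dih_other q.nbc q.nbd]
lemma ps2_c : ps2 cs q hR (cs.simple c) = r0 := by
  unfold ps2; rw [psi_simple, dih_left]
lemma ps2_d : ps2 cs q hR (cs.simple d) = r1 := by
  unfold ps2; rw [psi_simple, dih_right q.ncd]

lemma pot_le_word (ω : List B) : |ps1 cs q hR (cs.wordProd ω) 0| + |ps2 cs q hR (cs.wordProd ω) 0|
    ≤ ω.length := by
  induction ω with
  | nil => simp
  | cons e ω ih =>
    rw [cs.wordProd_cons, map_mul, map_mul, Equiv.Perm.mul_apply, Equiv.Perm.mul_apply]
    push_cast [List.length_cons]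
    by_cases h : e = a ∨ e = b
    · have h2 : ps2 cs q hR (cs.simple e) = 1 := by
        rcases h with rfl | rfl
        · exact ps2_a cs q hR
        · exact ps2_b cs q hR
      rw [h2, Equiv.Perm.one_apply]
      have := dih_abs a b e (ps1 cs q hR (cs.wordProd ω) 0)
      rw [← psi_simple cs hR q.nab q.ab] at this
      change |ps1 cs q hR (cs.simple e) _| ≤ _ at this
      linarith
    · push Not at h
      have h2 : ps1 cs q hR (cs.simple e) = 1 := by
        unfold ps1; rw [psi_simple, dih_other h.1 h.2]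
      rw [h2, Equiv.Perm.one_apply]
      have := dih_abs c d e (ps2 cs q hR (cs.wordProd ω) 0)
      rw [← psi_simple cs hR q.ncd q.cd] at this
      change |ps2 cs q hR (cs.simple e) _| ≤ _ at this
      linarith

lemma length_of_pot (ω : List B) (h : |ps1 cs q hR (cs.wordProd ω) 0| +
    |ps2 cs q hR (cs.wordProd ω) 0| = ω.length) : cs.length (cs.wordProd ω) = ω.length := by
  apply le_antisymm (cs.length_wordProd_le ω)
  obtain ⟨ω', hω', e⟩ := cs.exists_isReduced (cs.wordProd ω)
  have h1 := pot_le_word cs q hR ω'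
  rw [← e, h] at h1
  have h2 : cs.length (cs.wordProd ω) = ω'.length := by rw [e]; exact hω'
  rw [h2]
  exact_mod_cast h1

/-- Words in `a, b`. -/
def wd1 (a b : B) : Fin 6 → List B :=
  ![[a, b, a], [a, b], [b, a], [a], [b], []]

/-- Words in `c, d`. -/
def wd2 (c d : B) : Fin 4 → List B := ![[c, d], [c], [d], []]

/-- Values of the first representation. -/
def po1 : Fin 6 → ℤ := ![-3, -2, 2, -1, 1, 0]
/-- Values of the second representation. -/
def po2 : Fin 4 → ℤ := ![-2, -1, 1, 0]

lemma po1_inj : Function.Injective po1 := by decide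
lemma po2_inj : Function.Injective po2 := by decide

lemma ps1_wd (i : Fin 6) (j : Fin 4) :
    ps1 cs q hR (cs.wordProd (wd1 a b i ++ wd2 c d j)) 0 = po1 i := by
  fin_cases i <;> fin_cases j <;>
    simp [wd1, wd2, po1, cs.wordProd_cons, ps1_a, ps1_b, ps1_c, ps1_d, r0_apply, r1_apply]

lemma ps2_wd (i : Fin 6) (j : Fin 4) :
    ps2 cs q hR (cs.wordProd (wd1 a b i ++ wd2 c d j)) 0 = po2 j := by
  fin_cases i <;> fin_cases j <;>
    simp [wd1, wd2, po2, cs.wordProd_cons, ps2_a, ps2_b, ps2_c, ps2_d, r0_apply, r1_apply]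

include q hR in
lemma len_wd (i : Fin 6) (j : Fin 4) :
    cs.length (cs.wordProd (wd1 a b i ++ wd2 c d j)) = (wd1 a b i ++ wd2 c d j).length := by
  apply length_of_pot cs q hR
  rw [ps1_wd, ps2_wd]
  fin_cases i <;> fin_cases j <;> simp [wd1, wd2, po1, po2]

include q hR in
lemma len_wd1 (i : Fin 6) :
    cs.length (cs.wordProd (wd1 a b i)) = (wd1 a b i).length := by
  have := len_wd cs q hR i 3
  simpa [wd2] using this

include q hR in
lemma len_wd2 (j : Fin 4) :
    cs.length (cs.wordProd (wd2 c d j)) = (wd2 c d j).length := by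
  have := len_wd cs q hR 5 j
  simpa [wd1] using this

include q hR in
lemma len_add (i : Fin 6) (j : Fin 4) :
    cs.length (cs.wordProd (wd1 a b i) * cs.wordProd (wd2 c d j)) =
      cs.length (cs.wordProd (wd1 a b i)) + cs.length (cs.wordProd (wd2 c d j)) := by
  rw [← cs.wordProd_append, len_wd cs q hR, len_wd1 cs q hR, len_wd2 cs q hR, List.length_append]

include q hR in
lemma wd_inj {i i' : Fin 6} {j j' : Fin 4}
    (h : cs.wordProd (wd1 a b i) * cs.wordProd (wd2 c d j) =
      cs.wordProd (wd1 a b i') * cs.wordProd (wd2 c d j')) : i = i' ∧ j = j' := by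
  rw [← cs.wordProd_append, ← cs.wordProd_append] at h
  constructor
  · apply po1_inj
    rw [← ps1_wd cs q hR i j, h, ps1_wd cs q hR]
  · apply po2_inj
    rw [← ps2_wd cs q hR i j, h, ps2_wd cs q hR]

end

end Pool.Agent.H7.KL
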