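import Mathlib
import Pool.Agent.H7.KL.Quad

/-! Kazhdan-Lusztig elements in the counterexample. -/

set_option autoImplicit false

namespace Pool.Agent.H7.KL

open CoxeterSystem

section

variable {B : Type} {M : CoxeterMatrix B} {W : Type} [Group W] {cs : CoxeterSystem M W}
variable {H : Type} [Ring H] [Algebra A H] {𝓗 : HeckeAlgebra cs H} (K : KLBasis cs 𝓗)
variable {a b c d : B} (q : Quad M a b c d) (hR : RightAngled M)

/-- The combination of `T̃_g`, `g` among the elements of `wd1`. -/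
noncomputable def XX (𝓗 : HeckeAlgebra cs H) (a b : B) (k : Fin 6 → A) : H :=
  ∑ i : Fin 6, k i • Tt 𝓗 (cs.wordProd (wd1 a b i))

/-- The combination of `T̃_g`, `g` among the elements of `wd2`. -/
noncomputable def YY (𝓗 : HeckeAlgebra cs H) (c d : B) (m : Fin 4 → A) : H :=
  ∑ j : Fin 4, m j • Tt 𝓗 (cs.wordProd (wd2 c d j))

include q hR in
lemma XX_mul_YY (k : Fin 6 → A) (m : Fin 4 → A) : XX 𝓗 a b k * YY 𝓗 c d m =
    ∑ i : Fin 6, ∑ j : Fin 4, (k i * m j) •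
      Tt 𝓗 (cs.wordProd (wd1 a b i) * cs.wordProd (wd2 c d j)) := by
  unfold XX YY
  rw [Finset.sum_mul_sum]
  apply Finset.sum_congr rfl; intro i _
  apply Finset.sum_congr rfl; intro j _
  rw [smul_mul_smul_comm, Tt_mul 𝓗 (len_add cs q hR i j)]

include q hR in
lemma tc_XY (k : Fin 6 → A) (m : Fin 4 → A) (i0 : Fin 6) (j0 : Fin 4) :
    tc 𝓗 (XX 𝓗 a b k * YY 𝓗 c d m) (cs.wordProd (wd1 a b i0) * cs.wordProd (wd2 c d j0)) =
      k i0 * m j0 := by
  classical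
  rw [XX_mul_YY q hR, tc_sum]
  rw [Finset.sum_eq_single i0]
  · rw [tc_sum, Finset.sum_eq_single j0]
    · rw [tc_smul, tc_self, mul_one]
    · intro j _ hj
      rw [tc_smul, tc_Tt, if_neg, mul_zero]
      intro h
      exact hj (wd_inj cs q hR h).2
    · intro h; exact absurd (Finset.mem_univ _) h
  · intro i _ hi
    rw [tc_sum]
    apply Finset.sum_eq_zero
    intro j _
    rw [tc_smul, tc_Tt, if_neg, mul_zero]
    intro h
    exact hi (wd_inj cs q hR h).1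
  · intro h; exact absurd (Finset.mem_univ _) h

include q hR in
lemma C_XY (k : Fin 6 → A) (m : Fin 4 → A) (i0 : Fin 6) (j0 : Fin 4)
    (hX : 𝓗.bar (XX 𝓗 a b k) = XX 𝓗 a b k) (hY : 𝓗.bar (YY 𝓗 c d m) = YY 𝓗 c d m)
    (hk : k i0 = 1) (hm : m j0 = 1) (hk' : ∀ i, i ≠ i0 → Pos (k i))
    (hm' : ∀ j, j ≠ j0 → Pos (m j)) :
    K.C (cs.wordProd (wd1 a b i0) * cs.wordProd (wd2 c d j0)) = XX 𝓗 a b k * YY 𝓗 c d m := by
  classical
  apply C_eq_of
  · rw [map_mul, hX, hY]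
  · rw [tc_XY q hR, hk, hm, mul_one]
  · intro y hy
    rw [XX_mul_YY q hR, tc_sum]
    apply Pos_sum
    intro i _
    rw [tc_sum]
    apply Pos_sum
    intro j _
    by_cases hij : i = i0 ∧ j = j0
    · obtain ⟨rfl, rfl⟩ := hij
      rw [tc_smul, tc_Tt, if_neg (Ne.symm hy), mul_zero]
      exact Pos.zero
    · apply Pos_smul_Tt
      by_cases hi : i = i0
      · have hj : j ≠ j0 := fun h => hij ⟨hi, h⟩
        rw [hi, hk, one_mul]
        exact hm' j hj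
      · by_cases hj : j = j0
        · rw [hj, hm, mul_one]
          exact hk' i hi
        · exact (hk' i hi).mul (hm' j hj)

/-- Coefficients of `C_{aba}`. -/
noncomputable def kaba : Fin 6 → A :=
  ![1, -LaurentPolynomial.T 1, -LaurentPolynomial.T 1, LaurentPolynomial.T 2,
    LaurentPolynomial.T 2, -LaurentPolynomial.T 3]

/-- Coefficients of `C_{ab}`. -/
noncomputable def kab : Fin 6 → A :=
  ![0, 1, 0, -LaurentPolynomial.T 1, -LaurentPolynomial.T 1, LaurentPolynomial.T 2]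

/-- Coefficients of `C_{cd}`. -/
noncomputable def mcd : Fin 4 → A :=
  ![1, -LaurentPolynomial.T 1, -LaurentPolynomial.T 1, LaurentPolynomial.T 2]

lemma kab_pos : ∀ i, i ≠ 1 → Pos (kab i) := by
  intro i hi
  fin_cases i
  · exact Pos.zero
  · exact absurd rfl hi
  · exact Pos.zero
  · exact (Pos_T (by norm_num)).neg
  · exact (Pos_T (by norm_num)).neg
  · exact Pos_T (by norm_num)

lemma kaba_pos : ∀ i, i ≠ 0 → Pos (kaba i) := by
  intro i hi
  fin_cases i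
  · exact absurd rfl hi
  · exact (Pos_T (by norm_num)).neg
  · exact (Pos_T (by norm_num)).neg
  · exact Pos_T (by norm_num)
  · exact Pos_T (by norm_num)
  · exact (Pos_T (by norm_num)).neg

lemma mcd_pos : ∀ i, i ≠ 0 → Pos (mcd i) := by
  intro i hi
  fin_cases i
  · exact absurd rfl hi
  · exact (Pos_T (by norm_num)).neg
  · exact (Pos_T (by norm_num)).neg
  · exact Pos_T (by norm_num)

include q hR in
lemma Tt_ab : Tt 𝓗 (cs.simple a) * Tt 𝓗 (cs.simple b) =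
    Tt 𝓗 (cs.simple a * cs.simple b) := Tt_pair hR q.nab

include q hR in
lemma Tt_ba : Tt 𝓗 (cs.simple b) * Tt 𝓗 (cs.simple a) =
    Tt 𝓗 (cs.simple b * cs.simple a) := Tt_pair hR q.nab.symm

include q hR in
lemma len_aba : cs.length (cs.simple a * cs.simple b * cs.simple a) = 3 := by
  have := len_wd1 cs q hR 0
  simpa [wd1, cs.wordProd_cons, mul_assoc] using this

include q hR in
lemma Tt_aba : Tt 𝓗 (cs.simple a) * Tt 𝓗 (cs.simple b) * Tt 𝓗 (cs.simple a) =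
    Tt 𝓗 (cs.simple a * cs.simple b * cs.simple a) := by
  rw [Tt_ab q hR, Tt_mul]
  rw [len_aba q hR, length_pair hR q.nab, cs.length_simple]

include q hR in
lemma YY_eq : YY 𝓗 c d mcd = ce 𝓗 c * ce 𝓗 d := by
  rw [ce_mul, Tt_pair hR q.ncd]
  unfold YY mcd wd2
  simp [Fin.sum_univ_succ, cs.wordProd_cons]
  abel

include q hR in
lemma XX_kab : XX 𝓗 a b kab = ce 𝓗 a * ce 𝓗 b := by
  rw [ce_mul, Tt_pair hR q.nab]
  unfold XX kab wd1
  simp [Fin.sum_univ_succ, cs.wordProd_cons]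
  abel

lemma Tt_simple_sq (i : B) : Tt 𝓗 (cs.simple i) * Tt 𝓗 (cs.simple i) =
      Tt 𝓗 (1 : W) + ((LaurentPolynomial.T 1 : A) - LaurentPolynomial.T (-1)) •
        Tt 𝓗 (cs.simple i) := by
  rw [simple_Tt_down 𝓗 (by simp), cs.simple_mul_simple_self]

include q hR in
lemma XX_kaba : XX 𝓗 a b kaba = ce 𝓗 a * ce 𝓗 b * ce 𝓗 a - ce 𝓗 a := by
  have h1 : ce 𝓗 a * ce 𝓗 b * ce 𝓗 a =
      ce 𝓗 a * ce 𝓗 b * Tt 𝓗 (cs.simple a) -
        (LaurentPolynomial.T 1 : A) • (ce 𝓗 a * ce 𝓗 b) := by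
    conv_lhs => rw [show ce 𝓗 a * ce 𝓗 b * ce 𝓗 a = ce 𝓗 a * ce 𝓗 b *
      (Tt 𝓗 (cs.simple a) - (LaurentPolynomial.T 1 : A) • (1 : H)) from rfl]
    rw [mul_sub, mul_smul_comm, mul_one]
  have h2 : ce 𝓗 a = Tt 𝓗 (cs.simple a) - (LaurentPolynomial.T 1 : A) • Tt 𝓗 (1 : W) := by
    rw [Tt_one]; rfl
  have e1 : (LaurentPolynomial.T 1 : A) *
      ((LaurentPolynomial.T 1 : A) - LaurentPolynomial.T (-1)) = LaurentPolynomial.T 2 - 1 := by
    rw [mul_sub, T_mul_T_neg, ← LaurentPolynomial.T_add]; norm_num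
  have e2 : (LaurentPolynomial.T 1 : A) * LaurentPolynomial.T 1 = LaurentPolynomial.T 2 := by
    rw [← LaurentPolynomial.T_add]; norm_num
  have e3 : (LaurentPolynomial.T 1 : A) * LaurentPolynomial.T 2 = LaurentPolynomial.T 3 := by
    rw [← LaurentPolynomial.T_add]; norm_num
  have h1T : Tt 𝓗 (1 : W) * Tt 𝓗 (cs.simple a) = Tt 𝓗 (cs.simple a) := by
    rw [Tt_one, one_mul]
  rw [h1, ce_mul, add_mul, sub_mul, sub_mul, smul_mul_assoc, smul_mul_assoc, smul_mul_assoc,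
    Tt_aba q hR, Tt_simple_sq, Tt_ba q hR, h1T, Tt_ab q hR, h2]
  unfold XX kaba wd1
  simp only [Fin.sum_univ_succ, smul_add, smul_sub, smul_smul, e1, e2, e3]
  simp [cs.wordProd_cons, sub_smul, mul_assoc]
  abel

include q hR in
/-- `C_{aba·cd} = C_{aba} C_{cd}`. -/
lemma C_abacd : K.C (cs.wordProd (wd1 a b 0) * cs.wordProd (wd2 c d 0)) =
    XX 𝓗 a b kaba * YY 𝓗 c d mcd := by
  apply C_XY K q hR
  · rw [XX_kaba q hR, map_sub, map_mul, map_mul, bar_ce, bar_ce]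
  · rw [YY_eq q hR, map_mul, bar_ce, bar_ce]
  · rfl
  · rfl
  · exact kaba_pos
  · exact mcd_pos

include q hR in
/-- `C_{ab·cd} = C_{ab} C_{cd}`. -/
lemma C_abcd : K.C (cs.wordProd (wd1 a b 1) * cs.wordProd (wd2 c d 0)) =
    ce 𝓗 a * ce 𝓗 b * (ce 𝓗 c * ce 𝓗 d) := by
  rw [← XX_kab q hR, ← YY_eq q hR]
  apply C_XY K q hR
  · rw [XX_kab q hR, map_mul, bar_ce, bar_ce]
  · rw [YY_eq q hR, map_mul, bar_ce, bar_ce]
  · rfl
  · rfl
  · exact kab_pos
  · exact mcd_pos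

include q hR in
/-- The coefficient of `q` in `P_{ac, aba·cd}` vanishes. -/
lemma P_coeff_one : (K.P (cs.wordProd (wd1 a b 3) * cs.wordProd (wd2 c d 1))
    (cs.wordProd (wd1 a b 0) * cs.wordProd (wd2 c d 0))).coeff 1 = 0 := by
  have h1 := tc_C K (cs.wordProd (wd1 a b 3) * cs.wordProd (wd2 c d 1))
    (cs.wordProd (wd1 a b 0) * cs.wordProd (wd2 c d 0))
  rw [C_abacd K q hR, tc_XY q hR, len_add cs q hR, len_add cs q hR, len_wd1 cs q hR,
    len_wd1 cs q hR, len_wd2 cs q hR, len_wd2 cs q hR] at h1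
  have h2 : kaba 3 * mcd 1 = -LaurentPolynomial.T 3 := by
    change (LaurentPolynomial.T 2 : A) * (-LaurentPolynomial.T 1) = _
    rw [mul_neg, ← LaurentPolynomial.T_add]; norm_num
  have h3 : ((wd1 a b 0).length + (wd2 c d 0).length + ((wd1 a b 3).length +
      (wd2 c d 1).length)) = 7 := rfl
  have h4 : (((wd1 a b 0).length + (wd2 c d 0).length : ℕ) : ℤ) - (((wd1 a b 3).length +
      (wd2 c d 1).length : ℕ) : ℤ) = 3 := rfl
  rw [h2, h3, h4] at h1
  have h5 : Polynomial.aeval (LaurentPolynomial.T (-2) : A)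
      (K.P (cs.wordProd (wd1 a b 3) * cs.wordProd (wd2 c d 1))
        (cs.wordProd (wd1 a b 0) * cs.wordProd (wd2 c d 0))) = 1 := by
    have h6 := congrArg (fun z => (LaurentPolynomial.T (-3) : A) * -z) h1
    simp only [neg_neg] at h6
    rw [T_neg_mul_T] at h6
    rw [h6]
    have h7 : ((-1 : A)) ^ 7 = -1 := by norm_num
    rw [h7, neg_one_mul, neg_neg, ← mul_assoc, T_neg_mul_T, one_mul]
  rw [← coeff_aeval_eq, h5, ← LaurentPolynomial.T_zero, LaurentPolynomial.T_apply]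
  norm_num

include q hR in
lemma a_abcd (hT : NoTriple M) :
    K.a (cs.wordProd (wd1 a b 1) * cs.wordProd (wd2 c d 0)) = 2 := by
  apply le_antisymm (a_le_two K hR hT _)
  have hc := ce_comm (𝓗 := 𝓗) hR q.nac q.ac
  have hcb := ce_comm (𝓗 := 𝓗) hR q.nbc q.bc
  have h1 : K.C (cs.simple a * cs.simple c) *
      K.C (cs.wordProd (wd1 a b 1) * cs.wordProd (wd2 c d 0)) =
      ((-((LaurentPolynomial.T 1 : A) + LaurentPolynomial.T (-1))) *
        (-((LaurentPolynomial.T 1 : A) + LaurentPolynomial.T (-1)))) •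
        K.C (cs.wordProd (wd1 a b 1) * cs.wordProd (wd2 c d 0)) := by
    rw [C_pair K hR q.nac, C_abcd K q hR]
    calc ce 𝓗 a * ce 𝓗 c * (ce 𝓗 a * ce 𝓗 b * (ce 𝓗 c * ce 𝓗 d))
        = ce 𝓗 a * (ce 𝓗 c * ce 𝓗 a) * ce 𝓗 b * ce 𝓗 c * ce 𝓗 d := by
          simp only [mul_assoc]
      _ = ce 𝓗 a * (ce 𝓗 a * ce 𝓗 c) * ce 𝓗 b * ce 𝓗 c * ce 𝓗 d := by rw [hc]
      _ = (ce 𝓗 a * ce 𝓗 a) * (ce 𝓗 c * ce 𝓗 b) * ce 𝓗 c * ce 𝓗 d := by
          simp only [mul_assoc]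
      _ = (ce 𝓗 a * ce 𝓗 a) * (ce 𝓗 b * ce 𝓗 c) * ce 𝓗 c * ce 𝓗 d := by rw [hcb]
      _ = ((ce 𝓗 a * ce 𝓗 a) * ce 𝓗 b) * ((ce 𝓗 c * ce 𝓗 c) * ce 𝓗 d) := by
          simp only [mul_assoc]
      _ = _ := by simp only [ce_sq, smul_mul_assoc, mul_smul_comm, smul_smul]
  apply two_le_a K (x := cs.simple a * cs.simple c)
    (y := cs.wordProd (wd1 a b 1) * cs.wordProd (wd2 c d 0))
  unfold KLBasis.h
  rw [h1, map_smul, Finsupp.smul_apply, Module.Basis.repr_self, Finsupp.single_eq_same,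
    smul_eq_mul, mul_one]
  exact coeff_two

end

end Pool.Agent.H7.KL
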