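import Mathlib
import Pool.Agent.H7.KL.Quad2

/-! The function `μ` in the counterexample, and the concrete Coxeter matrix. -/

set_option autoImplicit false

namespace Pool.Agent.H7.KL

open CoxeterSystem

section

variable {B : Type} {M : CoxeterMatrix B} {W : Type} [Group W] {cs : CoxeterSystem M W}
variable {H : Type} [Ring H] [Algebra A H] {𝓗 : HeckeAlgebra cs H} (K : KLBasis cs 𝓗)
variable {a b c d : B} (q : Quad M a b c d) (hR : RightAngled M)

lemma mu_even {x y : W} (h : Even (cs.length x + cs.length y)) : K.mu x y = 0 := by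
  unfold KLBasis.mu KLBasis.muLT
  have h1 : ¬ Odd (cs.length y - cs.length x) := by
    rw [Nat.not_odd_iff_even]
    rw [Nat.even_iff] at h ⊢; omega
  have h2 : ¬ Odd (cs.length x - cs.length y) := by
    rw [Nat.not_odd_iff_even]
    rw [Nat.even_iff] at h ⊢; omega
  rw [if_neg h1, if_neg h2]
  split_ifs <;> rfl

lemma len_mul_parity (x y : W) :
    Even (cs.length (x * y)) ↔ Even (cs.length x + cs.length y) := by
  have h := cs.length_mul_mod_two x y
  rw [Nat.even_iff, Nat.even_iff, h]

include q hR in
lemma mu_a : K.mu (cs.simple a * cs.simple c)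
    (cs.simple a * cs.simple b * (cs.simple c * cs.simple d) * cs.simple a) = 0 := by
  have hca := comm_simple cs q.ac
  have hda := comm_simple cs q.ad
  have e1 : cs.simple a * cs.simple c =
      cs.wordProd (wd1 a b 3) * cs.wordProd (wd2 c d 1) := by
    simp [wd1, wd2, cs.wordProd_cons]
  have e2 : cs.simple a * cs.simple b * (cs.simple c * cs.simple d) * cs.simple a =
      cs.wordProd (wd1 a b 0) * cs.wordProd (wd2 c d 0) := by
    have : cs.simple c * cs.simple d * cs.simple a =
        cs.simple a * (cs.simple c * cs.simple d) := by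
      rw [mul_assoc, ← hda, ← mul_assoc, ← hca, mul_assoc]
    rw [mul_assoc, this]
    simp [wd1, wd2, cs.wordProd_cons, mul_assoc]
  rw [e1, e2]
  have l1 : cs.length (cs.wordProd (wd1 a b 3) * cs.wordProd (wd2 c d 1)) = 2 := by
    rw [len_add cs q hR, len_wd1 cs q hR, len_wd2 cs q hR]; rfl
  have l2 : cs.length (cs.wordProd (wd1 a b 0) * cs.wordProd (wd2 c d 0)) = 5 := by
    rw [len_add cs q hR, len_wd1 cs q hR, len_wd2 cs q hR]; rfl
  unfold KLBasis.mu KLBasis.muLT
  split_ifs with h1 h2 h3 h4
  · rw [l1, l2]
    exact P_coeff_one K q hR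
  · rfl
  · exfalso
    have := bruhat_length cs h3.1
    rw [l1, l2] at this
    omega
  · rfl
  · rfl

/-- The suffixes of `s_a s_c`. -/
lemma suffix_pair (hR : RightAngled M) {a c : B} (hac : a ≠ c) {v0' v01 : W}
    (h : Red2 cs (cs.simple a * cs.simple c) v0' v01) :
    v01 = 1 ∨ v01 = cs.simple a ∨ v01 = cs.simple c ∨ v01 = cs.simple a * cs.simple c := by
  classical
  obtain ⟨h1, h2⟩ := h
  rw [length_pair hR hac] at h2
  have h3 : cs.length v01 = 0 ∨ cs.length v01 = 1 ∨ cs.length v01 = 2 := by omega
  rcases h3 with h3 | h3 | h3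
  · left; exact cs.length_eq_zero_iff.mp h3
  · have h4 : cs.length v0' = 1 := by omega
    obtain ⟨i, rfl⟩ := cs.length_eq_one_iff.mp h3
    obtain ⟨j, rfl⟩ := cs.length_eq_one_iff.mp h4
    have ha := congrArg (sgn cs hR a) h1
    have hc := congrArg (sgn cs hR c) h1
    rw [map_mul, map_mul, sgn_simple, sgn_simple, sgn_simple, sgn_simple] at ha hc
    unfold sgnFun at ha hc
    rw [if_pos rfl, if_neg (Ne.symm hac)] at ha
    rw [if_neg hac, if_pos rfl] at hc
    by_cases hia : i = a
    · right; left; rw [hia]
    · by_cases hic : i = c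
      · right; right; left; rw [hic]
      · exfalso
        rw [if_neg hia] at ha
        rw [if_neg hic] at hc
        by_cases hja : j = a
        · have hjc : j ≠ c := by rw [hja]; exact hac
          rw [if_neg hjc] at hc
          revert hc; decide
        · rw [if_neg hja] at ha
          revert ha; decide
  · have h4 : cs.length v0' = 0 := by omega
    rw [cs.length_eq_zero_iff] at h4
    rw [h4, one_mul] at h1
    right; right; right; exact h1.symm

include q hR in
/-- For every suffix `v01` of `v0 = s_a s_c`, `μ(w, w' v01⁻¹) = 0`. -/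
lemma mu_suffix {v0' v01 : W} (h : Red2 cs (cs.simple a * cs.simple c) v0' v01) :
    K.mu (cs.simple a * cs.simple c)
      (cs.simple a * cs.simple c * (cs.simple b * cs.simple d) * v01⁻¹) = 0 := by
  have hbc := comm_simple cs q.bc
  have hbd := comm_simple cs q.bd
  have e : cs.simple a * cs.simple c * (cs.simple b * cs.simple d) =
      cs.simple a * cs.simple b * (cs.simple c * cs.simple d) := by
    rw [mul_assoc, ← mul_assoc (cs.simple c), ← hbc]
    simp only [mul_assoc]
  have l1 := length_pair (cs := cs) hR q.nac
  have l2 := length_pair (cs := cs) hR q.nbd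
  rcases suffix_pair hR q.nac h with rfl | rfl | rfl | rfl
  · apply mu_even
    rw [inv_one, mul_one]
    have h1 := len_mul_parity (cs := cs) (cs.simple a * cs.simple c) (cs.simple b * cs.simple d)
    rw [l1, l2] at h1
    rw [l1]
    have h2 := h1.mpr (by decide)
    rw [Nat.even_iff] at h2 ⊢; omega
  · rw [cs.inv_simple, e]
    exact mu_a K q hR
  · rw [cs.inv_simple]
    have e3 : cs.simple a * cs.simple c * (cs.simple b * cs.simple d) =
        cs.simple c * cs.simple d * (cs.simple a * cs.simple b) := by
      have had := comm_simple cs q.ad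
      have hac := comm_simple cs q.ac
      calc cs.simple a * cs.simple c * (cs.simple b * cs.simple d)
          = cs.simple c * cs.simple a * (cs.simple d * cs.simple b) := by rw [hac, hbd]
        _ = cs.simple c * (cs.simple a * cs.simple d) * cs.simple b := by
            simp only [mul_assoc]
        _ = cs.simple c * (cs.simple d * cs.simple a) * cs.simple b := by rw [had]
        _ = _ := by simp only [mul_assoc]
    rw [e3, comm_simple cs q.ac]
    exact mu_a K q.swap hR
  · apply mu_even
    rw [mul_inv_rev, cs.inv_simple, cs.inv_simple]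
    have h1 := len_mul_parity (cs := cs) (cs.simple a * cs.simple c) (cs.simple b * cs.simple d)
    have h2 := len_mul_parity (cs := cs)
      (cs.simple a * cs.simple c * (cs.simple b * cs.simple d)) (cs.simple c * cs.simple a)
    rw [length_pair hR q.nac.symm] at h2
    rw [l1, l2] at h1
    rw [l1]
    have h3 := h1.mpr (by decide)
    have h4 := h2.mpr (by rw [Nat.even_iff] at h3 ⊢; omega)
    rw [Nat.even_iff] at h4 ⊢; omega

/-- A factor of length two lying in a finite parabolic subgroup is maximal. -/
lemma maximal_of_length_two (hR : RightAngled M) (hT : NoTriple M) {w x v y : W}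
    (h : Red3 cs w x v y) (hv : InFiniteParabolic cs v) (hl : cs.length v = 2) :
    IsMaximalFactor cs w x v y := by
  refine ⟨h, hv, ?_⟩
  rintro ⟨x', v', y', p, r, -, hv', -, -, -, hlt⟩
  have := length_le_two_of_finite hR hT hv'
  omega

end

/-- The Coxeter matrix on generators `0, 1, 2, 3, 4`: `m(0,2) = m(0,3) = m(1,2) = m(1,3) = 2`, all
other off-diagonal entries infinite. -/
def mat : CoxeterMatrix (Fin 5) where
  M := !![1, 0, 2, 2, 0; 0, 1, 2, 2, 0; 2, 2, 1, 0, 0; 2, 2, 0, 1, 0; 0, 0, 0, 0, 1]
  isSymm := by
    unfold Matrix.IsSymm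
    decide
  diagonal := by decide
  off_diagonal := by decide

lemma mat_rightAngled : RightAngled mat := by
  unfold RightAngled; decide

lemma mat_noTriple : NoTriple mat := by
  unfold NoTriple; decide

lemma mat_quad : Quad mat 0 1 2 3 where
  ab := by decide
  cd := by decide
  ac := by decide
  ad := by decide
  bc := by decide
  bd := by decide

end Pool.Agent.H7.KL
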